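import Pool.Agent.EAG.Meas

/-! # EAG-VAR: the energy identity and its integrated form -/

open MeasureTheory Filter Topology Finset

namespace Pool.Agent.EAG

variable {Y : Type*} [MeasurableSpace Y] {ν : Measure Y}

private theorem sum_blocks (g : ℕ → ℝ) (n N : ℕ) :
    ∑ k ∈ Finset.range (N * n), g k = ∑ a ∈ Finset.range N, ∑ k ∈ blk n a, g k := by
  induction N with
  | zero => simp
  | succ N ih =>
    rw [Finset.sum_range_succ, ← ih, blk]
    exact (Finset.sum_range_add_sum_Ico g (Nat.mul_le_mul_right n (Nat.le_succ N))).symm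

private theorem sum_blocks_filter (g : ℕ → ℝ) (n N : ℕ) (P : ℕ → Prop) [DecidablePred P] :
    ∑ k ∈ (Finset.range (N * n)).filter P, g k
      = ∑ a ∈ Finset.range N, ∑ k ∈ (blk n a).filter P, g k := by
  rw [Finset.sum_filter, sum_blocks]
  exact Finset.sum_congr rfl fun a _ => (Finset.sum_filter _ _).symm

private theorem sum_prs (G : ℕ → ℕ → ℝ) (hs : ∀ a b, G a b = G b a) (h0 : ∀ a, G a a = 0)
    (N : ℕ) : ∑ p ∈ prs N, G p.1 p.2
      = (∑ a ∈ Finset.range N, ∑ b ∈ Finset.range N, G a b) / 2 := by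
  have h1 : ∑ p ∈ prs N, G p.1 p.2
      = ∑ a ∈ Finset.range N, ∑ b ∈ Finset.range N, (if a < b then G a b else 0) := by
    rw [prs, Finset.sum_filter, Finset.sum_product]
  have h2 : ∑ p ∈ prs N, G p.1 p.2
      = ∑ a ∈ Finset.range N, ∑ b ∈ Finset.range N, (if b < a then G a b else 0) := by
    rw [h1, Finset.sum_comm]
    refine Finset.sum_congr rfl fun a _ => Finset.sum_congr rfl fun b _ => ?_
    rw [hs b a]
  have h3 : (∑ a ∈ Finset.range N, ∑ b ∈ Finset.range N, (if a < b then G a b else 0))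
      + (∑ a ∈ Finset.range N, ∑ b ∈ Finset.range N, (if b < a then G a b else 0))
      = ∑ a ∈ Finset.range N, ∑ b ∈ Finset.range N, G a b := by
    rw [← Finset.sum_add_distrib]
    refine Finset.sum_congr rfl fun a _ => ?_
    rw [← Finset.sum_add_distrib]
    refine Finset.sum_congr rfl fun b _ => ?_
    rcases lt_trichotomy a b with h | h | h
    · rw [if_pos h, if_neg (by omega), add_zero]
    · subst h; simp [h0]
    · rw [if_neg (by omega), if_pos h, zero_add]
  rw [← h3, ← h1, ← h2]
  ring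

/-- pure algebra: `‖mean of M_a‖ ^ 2 = mean of ‖M_a‖ ^ 2 - (1/N^2) ∑_{a<b} ‖M_a - M_b‖ ^ 2`. -/
theorem var_identity (v : ℕ → ℝ) (j : ℕ) {c : ℝ} (hc : 0 < c) (n N : ℕ) (hN : 0 < N)
    (P : ℕ → Prop) [DecidablePred P] :
    en v j ((Finset.range (N * n)).filter P) ((Finset.range (N * n)).filter P) / (N * c) ^ 2
      = (∑ a ∈ Finset.range N, en v j ((blk n a).filter P) ((blk n a).filter P) / c ^ 2) / N
        - (∑ p ∈ prs N, ds v j c ((blk n p.1).filter P) ((blk n p.2).filter P)) / (N : ℝ) ^ 2 := by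
  set E : ℕ → ℕ → ℝ := fun a b => en v j ((blk n a).filter P) ((blk n b).filter P) with hE
  have hsym : ∀ a b, E a b = E b a := fun a b => en_comm _ _ _ _
  have htot : en v j ((Finset.range (N * n)).filter P) ((Finset.range (N * n)).filter P)
      = ∑ a ∈ Finset.range N, ∑ b ∈ Finset.range N, E a b := by
    have e1 : en v j ((Finset.range (N * n)).filter P) ((Finset.range (N * n)).filter P)
        = ∑ a ∈ Finset.range N, ∑ k ∈ (blk n a).filter P,
          ∑ l ∈ (Finset.range (N * n)).filter P, tri j (v k - v l) :=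
      sum_blocks_filter (fun k => ∑ l ∈ (Finset.range (N * n)).filter P, tri j (v k - v l)) n N P
    rw [e1]
    refine Finset.sum_congr rfl fun a _ => ?_
    have e2 : ∀ k ∈ (blk n a).filter P, ∑ l ∈ (Finset.range (N * n)).filter P, tri j (v k - v l)
        = ∑ b ∈ Finset.range N, ∑ l ∈ (blk n b).filter P, tri j (v k - v l) :=
      fun k _ => sum_blocks_filter (fun l => tri j (v k - v l)) n N P
    rw [Finset.sum_congr rfl e2, Finset.sum_comm]
    rfl
  have hds : ∑ p ∈ prs N, ds v j c ((blk n p.1).filter P) ((blk n p.2).filter P)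
      = (∑ a ∈ Finset.range N, ∑ b ∈ Finset.range N, (E a a - 2 * E a b + E b b) / c ^ 2) / 2 := by
    refine sum_prs (fun a b => (E a a - 2 * E a b + E b b) / c ^ 2) ?_ ?_ N
    · intro a b
      show (E a a - 2 * E a b + E b b) / c ^ 2 = (E b b - 2 * E b a + E a a) / c ^ 2
      rw [hsym a b]; ring
    · intro a
      show (E a a - 2 * E a a + E a a) / c ^ 2 = 0
      ring
  have h4 : ∑ a ∈ Finset.range N, ∑ b ∈ Finset.range N, (E a a - 2 * E a b + E b b) / c ^ 2
      = (2 * N * (∑ a ∈ Finset.range N, E a a)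
        - 2 * ∑ a ∈ Finset.range N, ∑ b ∈ Finset.range N, E a b) / c ^ 2 := by
    simp only [← Finset.sum_div]
    congr 1
    have : ∀ a ∈ Finset.range N, ∑ b ∈ Finset.range N, (E a a - 2 * E a b + E b b)
        = N * E a a - 2 * (∑ b ∈ Finset.range N, E a b) + ∑ b ∈ Finset.range N, E b b := by
      intro a _
      rw [Finset.sum_add_distrib, Finset.sum_sub_distrib, Finset.mul_sum]
      simp
    rw [Finset.sum_congr rfl this, Finset.sum_add_distrib, Finset.sum_sub_distrib,
      ← Finset.mul_sum, ← Finset.mul_sum]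
    simp
    ring
  rw [htot, hds, h4, ← Finset.sum_div]
  have hN' : (N : ℝ) ≠ 0 := by positivity
  have hc' : c ≠ 0 := hc.ne'
  field_simp
  ring

namespace Sys

private theorem V_add (S : Sys Y ν) (y : Y) (m k : ℕ) :
    S.V y (m + k) = S.V y m + S.V (S.Th (m : ℤ) y) k := by
  unfold V
  rw [Finset.sum_range_add]
  congr 1
  refine Finset.sum_congr rfl fun l _ => ?_
  rw [← S.Th_add]
  congr 2
  push_cast
  ring

open Classical in
private theorem mem_adm_var (S : Sys Y ν) (y : Y) (B : Finset ℕ) (k : ℕ) :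
    k ∈ S.adm y B ↔ k ∈ B ∧ S.Th (k : ℤ) y ∈ S.A := by
  unfold adm
  rw [Finset.mem_filter]

private theorem adm_blk (S : Sys Y ν) (y : Y) (n a : ℕ) :
    S.adm y (blk n a) = (S.adm (S.Th ((a * n : ℕ) : ℤ) y) (Finset.range n)).map
      (addLeftEmbedding (a * n)) := by
  ext k
  rw [mem_adm_var, Finset.mem_map]
  unfold blk
  constructor
  · rintro ⟨hk, hA⟩
    rw [Finset.mem_Ico] at hk
    refine ⟨k - a * n, ?_, ?_⟩
    · rw [mem_adm_var]
      refine ⟨?_, ?_⟩
      · rw [Finset.mem_range]
        have : (a + 1) * n = a * n + n := by ring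
        omega
      · rw [← S.Th_add]
        have : (((k - a * n : ℕ) : ℤ) + ((a * n : ℕ) : ℤ)) = (k : ℤ) := by
          rw [Nat.cast_sub hk.1]; ring
        rw [this]
        exact hA
    · show a * n + (k - a * n) = k
      omega
  · rintro ⟨l, hl, rfl⟩
    rw [mem_adm_var, Finset.mem_range, ← S.Th_add] at hl
    show a * n + l ∈ Finset.Ico (a * n) ((a + 1) * n) ∧ S.Th ((a * n + l : ℕ) : ℤ) y ∈ S.A
    refine ⟨?_, ?_⟩
    · rw [Finset.mem_Ico]
      have : (a + 1) * n = a * n + n := by ring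
      omega
    · have : ((a * n + l : ℕ) : ℤ) = (l : ℤ) + ((a * n : ℕ) : ℤ) := by push_cast; ring
      rw [this]
      exact hl.2

private theorem en_blk (S : Sys Y ν) (y : Y) (n a j : ℕ) :
    en (S.V y) j (S.adm y (blk n a)) (S.adm y (blk n a))
      = en (S.V (S.Th ((a * n : ℕ) : ℤ) y)) j (S.adm (S.Th ((a * n : ℕ) : ℤ) y) (Finset.range n))
        (S.adm (S.Th ((a * n : ℕ) : ℤ) y) (Finset.range n)) := by
  rw [adm_blk]
  unfold en
  rw [Finset.sum_map]
  refine Finset.sum_congr rfl fun k _ => ?_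
  rw [Finset.sum_map]
  refine Finset.sum_congr rfl fun l _ => ?_
  show tri j (S.V y (a * n + k) - S.V y (a * n + l)) = _
  rw [V_add, V_add]
  congr 1
  ring

private theorem integral_comp_Th (S : Sys Y ν) {F : Y → ℝ} (hF : Measurable F) (k : ℤ) :
    ∫ y, F (S.Th k y) ∂ν = ∫ y, F y ∂ν := by
  have h := integral_map (μ := ν) (φ := S.Th k) (f := F) (S.mpTh k).measurable.aemeasurable
    hF.aestronglyMeasurable
  rw [(S.mpTh k).map_eq] at h
  exact h.symm

/-- stationarity (the kernel only sees differences of `V`) -/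
theorem integral_en_blk (S : Sys Y ν) [IsProbabilityMeasure ν] (n a j : ℕ) :
    ∫ y, en (S.V y) j (S.adm y (blk n a)) (S.adm y (blk n a)) ∂ν
      = ∫ y, en (S.V y) j (S.adm y (Finset.range n)) (S.adm y (Finset.range n)) ∂ν := by
  simp only [en_blk]
  exact integral_comp_Th S (F := fun y => en (S.V y) j (S.adm y (Finset.range n))
    (S.adm y (Finset.range n))) (measurable_en S j _ _) _

theorem integral_card_blk (S : Sys Y ν) [IsProbabilityMeasure ν] (n a : ℕ) (f : ℕ → ℝ) :
    ∫ y, f (S.adm y (blk n a)).card ∂ν = ∫ y, f (S.adm y (Finset.range n)).card ∂ν := by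
  have h : ∀ y, f (S.adm y (blk n a)).card
      = f (S.adm (S.Th ((a * n : ℕ) : ℤ) y) (Finset.range n)).card := by
    intro y
    rw [adm_blk, Finset.card_map]
  simp only [h]
  exact integral_comp_Th S (F := fun y => f (S.adm y (Finset.range n)).card)
    (meas_of S n (fun B _ => f B.card) (fun B => measurable_const)) _

open Classical in
private theorem card_adm_le_var (S : Sys Y ν) (y : Y) (B : Finset ℕ) : (S.adm y B).card ≤ B.card := by
  unfold adm
  exact Finset.card_filter_le _ _

private theorem card_blk (n a : ℕ) : (blk n a).card = n := by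
  unfold blk
  rw [Nat.card_Ico]
  have : (a + 1) * n = a * n + n := by ring
  omega

private theorem integrable_en (S : Sys Y ν) [IsProbabilityMeasure ν] (j : ℕ) (B C : Finset ℕ) :
    Integrable (fun y => en (S.V y) j (S.adm y B) (S.adm y C)) ν := by
  refine integrable_of_bdd (measurable_en S j B C) ((B.card : ℝ) * (C.card : ℝ)) fun y => ?_
  rw [abs_of_nonneg (en_nonneg _ _ _ _)]
  refine (en_le _ _ _ _).trans ?_
  have h1 : ((S.adm y B).card : ℝ) ≤ B.card := by exact_mod_cast card_adm_le_var S y B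
  have h2 : ((S.adm y C).card : ℝ) ≤ C.card := by exact_mod_cast card_adm_le_var S y C
  exact mul_le_mul h1 h2 (Nat.cast_nonneg _) (Nat.cast_nonneg _)

private theorem integrable_ds (S : Sys Y ν) [IsProbabilityMeasure ν] (j : ℕ) {c : ℝ} (hc : 0 < c)
    (B C : Finset ℕ) : Integrable (fun y => ds (S.V y) j c (S.adm y B) (S.adm y C)) ν := by
  refine integrable_of_bdd (measurable_ds S j c B C)
    (4 * (max (B.card : ℝ) (C.card : ℝ)) ^ 2 / c ^ 2) fun y => ?_
  refine abs_ds_le _ _ hc _ _ ?_ ?_
  · exact le_trans (by exact_mod_cast card_adm_le_var S y B) (le_max_left _ _)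
  · exact le_trans (by exact_mod_cast card_adm_le_var S y C) (le_max_right _ _)

theorem cn_sub (S : Sys Y ν) [IsProbabilityMeasure ν] {α : ℝ} (hα : 0 < α) {n N : ℕ}
    (hn : 0 < n) (hN : 0 < N) (j : ℕ) : S.cn α n j - S.cn α (N * n) j = S.gm α n N j := by
  have hc : 0 < α * n := by positivity
  have hN' : (N : ℝ) ≠ 0 := by positivity
  have hpt : ∀ y, en (S.V y) j (S.adm y (Finset.range (N * n))) (S.adm y (Finset.range (N * n)))
        / (α * ((N * n : ℕ) : ℝ)) ^ 2
      = (∑ a ∈ Finset.range N, en (S.V y) j (S.adm y (blk n a)) (S.adm y (blk n a))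
          / (α * n) ^ 2) / N
        - (∑ p ∈ prs N, ds (S.V y) j (α * n) (S.adm y (blk n p.1)) (S.adm y (blk n p.2)))
          / (N : ℝ) ^ 2 := by
    intro y
    have h := @var_identity (S.V y) j (α * n) hc n N hN (fun k => S.Th (k : ℤ) y ∈ S.A)
      (fun _ => Classical.propDecidable _)
    have h2 : (α * ((N * n : ℕ) : ℝ)) ^ 2 = ((N : ℝ) * (α * n)) ^ 2 := by push_cast; ring
    rw [h2]
    exact h
  have hI1 : Integrable (fun y => (∑ a ∈ Finset.range N,
      en (S.V y) j (S.adm y (blk n a)) (S.adm y (blk n a)) / (α * n) ^ 2) / N) ν := by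
    refine Integrable.div_const ?_ _
    exact integrable_finsetSum _ fun a _ => (integrable_en S j _ _).div_const _
  have hI2 : Integrable (fun y => (∑ p ∈ prs N,
      ds (S.V y) j (α * n) (S.adm y (blk n p.1)) (S.adm y (blk n p.2))) / (N : ℝ) ^ 2) ν := by
    refine Integrable.div_const ?_ _
    exact integrable_finsetSum _ fun p _ => integrable_ds S j hc _ _
  have h1 : S.cn α (N * n) j
      = (∫ y, (∑ a ∈ Finset.range N, en (S.V y) j (S.adm y (blk n a)) (S.adm y (blk n a))
          / (α * n) ^ 2) / N ∂ν) - S.gm α n N j := by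
    unfold cn gm
    simp only [hpt]
    exact integral_sub hI1 hI2
  have h2 : (∫ y, (∑ a ∈ Finset.range N, en (S.V y) j (S.adm y (blk n a)) (S.adm y (blk n a))
          / (α * n) ^ 2) / N ∂ν) = S.cn α n j := by
    rw [integral_div, integral_finsetSum _ fun a _ => (integrable_en S j _ _).div_const _]
    simp only [integral_div, integral_en_blk]
    rw [Finset.sum_const, Finset.card_range, nsmul_eq_mul, mul_div_assoc', mul_comm, mul_div_assoc]
    unfold cn
    rw [integral_div]
    field_simp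
  rw [h1, h2]
  ring

theorem cn_nonneg (S : Sys Y ν) (α : ℝ) (n j : ℕ) : 0 ≤ S.cn α n j := by
  unfold cn
  exact integral_nonneg fun y => div_nonneg (en_nonneg _ _ _ _) (sq_nonneg _)

theorem gm_nonneg (S : Sys Y ν) (α : ℝ) (n N j : ℕ) : 0 ≤ S.gm α n N j := by
  unfold gm
  exact integral_nonneg fun y => div_nonneg (Finset.sum_nonneg fun p _ => ds_nonneg _ _ _ _ _)
    (sq_nonneg _)

end Sys

end Pool.Agent.EAG
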