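import Pool.Agent.EAG.Toggle
import Pool.Agent.EAG.Var

/-! # EAG-BAD: the badness is small in mean -/

open MeasureTheory Filter Topology Finset

namespace Pool.Agent.EAG

variable {Y : Type*} [MeasurableSpace Y] {ν : Measure Y}

namespace Sys

private theorem ch_nn (S : Sys Y ν) (y z : Y) (k : ℕ) : 0 ≤ S.ch y z k := by
  unfold ch; split_ifs <;> norm_num

private theorem ch_le1 (S : Sys Y ν) (y z : Y) (k : ℕ) : S.ch y z k ≤ 1 := by
  unfold ch; split_ifs <;> norm_num

private theorem ch_tri (S : Sys Y ν) (y w z : Y) (k : ℕ) :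
    S.ch y z k ≤ S.ch y w k + S.ch w z k := by
  unfold ch
  by_cases h1 : (S.Th (k : ℤ) y ∈ S.A ↔ S.Th (k : ℤ) w ∈ S.A)
  · by_cases h2 : (S.Th (k : ℤ) w ∈ S.A ↔ S.Th (k : ℤ) z ∈ S.A)
    · rw [if_pos (h1.trans h2), if_pos h1, if_pos h2]; norm_num
    · rw [if_neg h2]; split_ifs <;> norm_num
  · rw [if_neg h1]; split_ifs <;> norm_num

private theorem ch_self (S : Sys Y ν) (y : Y) (k : ℕ) : S.ch y y k = 0 := by
  unfold ch; rw [if_pos Iff.rfl]

private theorem ch_int (S : Sys Y ν) [IsProbabilityMeasure ν] {f g : Y → Y}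
    (hf : Measurable f) (hg : Measurable g) (k : ℕ) :
    Integrable (fun y => S.ch (f y) (g y) k) ν := by
  refine integrable_of_bdd (S.measurable_ch hf hg k) 1 fun y => ?_
  rw [abs_of_nonneg (S.ch_nn _ _ _)]; exact S.ch_le1 _ _ _

/-- change of admissibility at relative time `j` -/
private noncomputable def rho (S : Sys Y ν) (j : ℤ) : ℝ :=
  ν.real {y | ¬ (S.Th j (S.R y) ∈ S.A ↔ S.Th j y ∈ S.A)}

private theorem rho_nn (S : Sys Y ν) (j : ℤ) : 0 ≤ S.rho j := measureReal_nonneg

private theorem rho_le1 (S : Sys Y ν) [IsProbabilityMeasure ν] (j : ℤ) : S.rho j ≤ 1 :=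
  measureReal_le_one

private theorem meas_rho (S : Sys Y ν) (j : ℤ) :
    MeasurableSet {y | ¬ (S.Th j (S.R y) ∈ S.A ↔ S.Th j y ∈ S.A)} := by
  have h1 : MeasurableSet ((fun y => S.Th j (S.R y)) ⁻¹' S.A) :=
    ((S.mpTh j).measurable.comp S.mpR.measurable) S.hA
  have h2 : MeasurableSet ((fun y => S.Th j y) ⁻¹' S.A) := (S.mpTh j).measurable S.hA
  have h3 : {y | ¬ (S.Th j (S.R y) ∈ S.A ↔ S.Th j y ∈ S.A)}
      = (((fun y => S.Th j (S.R y)) ⁻¹' S.A) \ ((fun y => S.Th j y) ⁻¹' S.A))
        ∪ (((fun y => S.Th j y) ⁻¹' S.A) \ ((fun y => S.Th j (S.R y)) ⁻¹' S.A)) := by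
    ext y
    simp only [Set.mem_ofPred_eq, Set.mem_union, Set.mem_sdiff, Set.mem_preimage]
    tauto
  rw [h3]
  exact (h1.diff h2).union (h2.diff h1)

private theorem int_comp_mp [IsProbabilityMeasure ν] {f : Y → Y} (hf : MeasurePreserving f ν ν)
    {g : Y → ℝ} (hg : Measurable g) : ∫ y, g (f y) ∂ν = ∫ y, g y ∂ν := by
  have h := integral_map (μ := ν) hf.measurable.aemeasurable
    (f := g) (hg.aestronglyMeasurable)
  rw [hf.map_eq] at h
  exact h.symm

private theorem int_ch_Rat (S : Sys Y ν) [IsProbabilityMeasure ν] (m k : ℕ) :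
    ∫ y, S.ch y (S.Rat m y) k ∂ν = S.rho ((k : ℤ) - m) := by
  set E : Set Y := {y | ¬ (S.Th ((k : ℤ) - m) (S.R y) ∈ S.A ↔ S.Th ((k : ℤ) - m) y ∈ S.A)} with hE
  have hEm : MeasurableSet E := S.meas_rho _
  have h1 : ∀ y, S.ch y (S.Rat m y) k = E.indicator (fun _ => (1 : ℝ)) (S.Th (m : ℤ) y) := by
    intro y
    have e1 : S.Th (k : ℤ) y = S.Th ((k : ℤ) - m) (S.Th (m : ℤ) y) := by
      rw [← S.Th_add]; congr 1; ring
    have e2 : S.Th (k : ℤ) (S.Rat m y) = S.Th ((k : ℤ) - m) (S.R (S.Th (m : ℤ) y)) := by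
      unfold Rat
      rw [← S.Th_add]; congr 1
    unfold ch
    rw [e1, e2]
    by_cases h : (S.Th ((k : ℤ) - m) (S.Th (m : ℤ) y) ∈ S.A ↔
        S.Th ((k : ℤ) - m) (S.R (S.Th (m : ℤ) y)) ∈ S.A)
    · rw [if_pos h, Set.indicator_of_notMem]
      rw [hE, Set.mem_ofPred_eq, not_not]
      exact h.symm
    · rw [if_neg h, Set.indicator_of_mem]
      rw [hE, Set.mem_ofPred_eq]
      exact fun h' => h h'.symm
  calc ∫ y, S.ch y (S.Rat m y) k ∂ν
      = ∫ y, E.indicator (fun _ => (1 : ℝ)) (S.Th (m : ℤ) y) ∂ν := by simp_rw [h1]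
    _ = ∫ y, E.indicator (fun _ => (1 : ℝ)) y ∂ν :=
        int_comp_mp (S.mpTh m) (measurable_const.indicator hEm)
    _ = ν.real E := by
        have := integral_indicator_one (μ := ν) hEm
        exact this
    _ = S.rho ((k : ℤ) - m) := rfl

private theorem int_ch_Rat_self (S : Sys Y ν) [IsProbabilityMeasure ν] (m : ℕ) :
    ∫ y, S.ch y (S.Rat m y) m ∂ν = 0 := by
  have h : (fun y => S.ch y (S.Rat m y) m) =ᵐ[ν] fun _ => (0 : ℝ) := by
    filter_upwards [S.Rat_mem m] with y hy
    unfold ch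
    rw [if_pos hy.symm]
  rw [integral_congr_ae h]; simp

/-- the change of the admissibility of time `k` by the first `e` reflections -/
theorem integral_ch_le (S : Sys Y ν) [IsProbabilityMeasure ν] (i : ℕ → ℕ) (s : ℕ → Bool)
    (e k : ℕ) : ∫ y, S.ch y (S.TT i s e y) k ∂ν
      ≤ ∑ e' ∈ Finset.range e, if i e' = k then 0 else
          ν.real {y | ¬ (S.Th ((k : ℤ) - i e') (S.R y) ∈ S.A ↔ S.Th ((k : ℤ) - i e') y ∈ S.A)} := by
  induction e with
  | zero =>
    have h : ∀ y, S.ch y (S.TT i s 0 y) k = 0 := fun y => S.ch_self y k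
    simp_rw [h]
    simp
  | succ e ih =>
    rw [Finset.sum_range_succ]
    have hTT : Measurable (S.TT i s e) := S.measurable_TT i s e
    have hTT' : Measurable (S.TT i s (e + 1)) := S.measurable_TT i s (e + 1)
    have hI1 := S.ch_int (ν := ν) (f := fun y => y) (g := S.TT i s e) measurable_id hTT k
    have hI2 := S.ch_int (ν := ν) (f := S.TT i s e) (g := S.TT i s (e + 1)) hTT hTT' k
    have hI3 := S.ch_int (ν := ν) (f := fun y => y) (g := S.TT i s (e + 1)) measurable_id hTT' k
    have hle : ∫ y, S.ch y (S.TT i s (e + 1) y) k ∂ν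
        ≤ ∫ y, S.ch y (S.TT i s e y) k ∂ν
          + ∫ y, S.ch (S.TT i s e y) (S.TT i s (e + 1) y) k ∂ν := by
      rw [← integral_add hI1 hI2]
      exact integral_mono hI3 (hI1.add hI2) fun y => S.ch_tri _ _ _ _
    have hstep : ∫ y, S.ch (S.TT i s e y) (S.TT i s (e + 1) y) k ∂ν
        ≤ if i e = k then 0 else
          ν.real {y | ¬ (S.Th ((k : ℤ) - i e) (S.R y) ∈ S.A ↔ S.Th ((k : ℤ) - i e) y ∈ S.A)} := by
      by_cases hs : s e = prev s e
      · have h : ∀ y, S.ch (S.TT i s e y) (S.TT i s (e + 1) y) k = 0 := by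
          intro y
          have : S.TT i s (e + 1) y = S.TT i s e y := by
            simp only [TT]; rw [if_pos hs]
          rw [this]; exact S.ch_self _ _
        simp_rw [h]
        rw [integral_zero]
        split_ifs
        · exact le_rfl
        · exact measureReal_nonneg
      · have h : ∀ y, S.ch (S.TT i s e y) (S.TT i s (e + 1) y) k
            = (fun z => S.ch z (S.Rat (i e) z) k) (S.TT i s e y) := by
          intro y
          have : S.TT i s (e + 1) y = S.Rat (i e) (S.TT i s e y) := by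
            simp only [TT]; rw [if_neg hs]
          rw [this]
        have hm : Measurable (fun z => S.ch z (S.Rat (i e) z) k) :=
          S.measurable_ch measurable_id (S.mp_Rat (i e)).measurable k
        have h2 : ∫ y, S.ch (S.TT i s e y) (S.TT i s (e + 1) y) k ∂ν
            = ∫ z, S.ch z (S.Rat (i e) z) k ∂ν := by
          simp_rw [h]
          exact int_comp_mp (S.mp_TT i s e) hm
        rw [h2]
        split_ifs with hk
        · rw [← hk, int_ch_Rat_self]
        · rw [int_ch_Rat]; exact le_rfl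
    linarith

/-! ### counting -/

private theorem card_blk (n a : ℕ) : (blk n a).card = n := by
  unfold blk
  rw [Nat.card_Ico]
  have : (a + 1) * n = a * n + n := by ring
  omega

/-- averaging over one coordinate -/
private theorem avg_coord {N : ℕ} (B : Fin N → Finset ℕ) (a : Fin N) (F : (Fin N → ℕ) → ℝ) :
    ∑ i ∈ Fintype.piFinset B, ∑ k ∈ B a, F (Function.update i a k)
      = ((B a).card : ℝ) * ∑ i ∈ Fintype.piFinset B, F i := by
  rw [← Finset.sum_product']
  have h : ∑ x ∈ Fintype.piFinset B ×ˢ B a, F (Function.update x.1 a x.2)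
      = ∑ x ∈ Fintype.piFinset B ×ˢ B a, F x.1 := by
    refine Finset.sum_nbij' (fun x => (Function.update x.1 a x.2, x.1 a))
      (fun x => (Function.update x.1 a x.2, x.1 a)) ?_ ?_ ?_ ?_ ?_
    · intro x hx
      rw [Finset.mem_product, Fintype.mem_piFinset] at hx ⊢
      refine ⟨fun b => ?_, hx.1 a⟩
      show Function.update x.1 a x.2 b ∈ B b
      by_cases hb : b = a
      · subst hb; rw [Function.update_self]; exact hx.2
      · rw [Function.update_of_ne hb]; exact hx.1 b
    · intro x hx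
      rw [Finset.mem_product, Fintype.mem_piFinset] at hx ⊢
      refine ⟨fun b => ?_, hx.1 a⟩
      show Function.update x.1 a x.2 b ∈ B b
      by_cases hb : b = a
      · subst hb; rw [Function.update_self]; exact hx.2
      · rw [Function.update_of_ne hb]; exact hx.1 b
    · intro x _
      simp
    · intro x _
      simp
    · intro x _
      rfl
  rw [h, Finset.sum_product]
  simp [Finset.mul_sum]

private theorem sum_coord_le {N n : ℕ} (hn : 0 < n) (a : Fin N) (F : (Fin N → ℕ) → ℝ) {C : ℝ}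
    (hF : ∀ i ∈ Fintype.piFinset (fun a : Fin N => blk n a),
      ∑ k ∈ blk n a, F (Function.update i a k) ≤ C * n) :
    ∑ i ∈ Fintype.piFinset (fun a : Fin N => blk n a), F i ≤ C * (n : ℝ) ^ N := by
  have h := avg_coord (fun a : Fin N => blk n a) a F
  have hc : (((fun a : Fin N => blk n a) a).card : ℝ) = n := by
    show ((blk n a).card : ℝ) = n
    rw [card_blk]
  rw [hc] at h
  have hn' : (0 : ℝ) < n := by exact_mod_cast hn
  have h2 : ∑ i ∈ Fintype.piFinset (fun a : Fin N => blk n a),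
      ∑ k ∈ blk n a, F (Function.update i a k) ≤ (n : ℝ) ^ N * (C * n) := by
    refine (Finset.sum_le_sum hF).trans ?_
    rw [Finset.sum_const, Fintype.card_piFinset]
    simp only [card_blk, Finset.prod_const, Finset.card_univ, Fintype.card_fin, nsmul_eq_mul]
    push_cast
    exact le_rfl
  have h3 : (n : ℝ) * ∑ i ∈ Fintype.piFinset (fun a : Fin N => blk n a), F i
      ≤ n * (C * (n : ℝ) ^ N) := by
    calc (n : ℝ) * ∑ i ∈ Fintype.piFinset (fun a : Fin N => blk n a), F i
        = ∑ i ∈ Fintype.piFinset (fun a : Fin N => blk n a),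
            ∑ k ∈ blk n a, F (Function.update i a k) := h.symm
      _ ≤ (n : ℝ) ^ N * (C * n) := h2
      _ = n * (C * (n : ℝ) ^ N) := by ring
  exact le_of_mul_le_mul_left h3 hn'

/-- the sum of `rho` over a block is small -/
private theorem rho_small (S : Sys Y ν) [IsProbabilityMeasure ν] (hL : S.Loc) {ε : ℝ}
    (hε : 0 < ε) : ∃ n₀ : ℕ, ∀ n ≥ n₀, ∀ a k' : ℕ,
      ∑ k ∈ blk n a, S.rho ((k : ℤ) - k') ≤ ε * n := by
  obtain ⟨h1, h2⟩ := hL
  have h1' : ∀ᶠ k : ℕ in atTop, S.rho (k : ℤ) < ε / 2 :=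
    h1.eventually (gt_mem_nhds (half_pos hε))
  have h2' : ∀ᶠ k : ℕ in atTop, S.rho (-(k : ℤ)) < ε / 2 :=
    h2.eventually (gt_mem_nhds (half_pos hε))
  obtain ⟨J, hJ⟩ := (h1'.and h2').exists_forall_of_atTop
  refine ⟨⌈(2 * (2 * J + 1)) / ε⌉₊, fun n hn a k' => ?_⟩
  have hn' : (2 * (2 * (J : ℝ) + 1)) / ε ≤ n := (Nat.le_ceil _).trans (by exact_mod_cast hn)
  have hn2 : (2 * (J : ℝ) + 1) ≤ ε / 2 * n := by
    rw [div_le_iff₀ hε] at hn'
    linarith
  have hpt : ∀ k ∈ blk n a, S.rho ((k : ℤ) - k')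
      ≤ ε / 2 + (if k ∈ Finset.Icc (k' - J) (k' + J) then 1 else 0) := by
    intro k _
    by_cases hk : k ∈ Finset.Icc (k' - J) (k' + J)
    · rw [if_pos hk]
      have := S.rho_le1 ((k : ℤ) - k')
      linarith
    · rw [if_neg hk, add_zero]
      rw [Finset.mem_Icc] at hk
      by_cases hkk : k' ≤ k
      · have hJk : J ≤ k - k' := by omega
        have := (hJ (k - k') hJk).1
        have e : ((k : ℤ) - k') = ((k - k' : ℕ) : ℤ) := by omega
        rw [e]; exact this.le
      · have hJk : J ≤ k' - k := by omega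
        have := (hJ (k' - k) hJk).2
        have e : ((k : ℤ) - k') = -((k' - k : ℕ) : ℤ) := by omega
        rw [e]; exact this.le
  refine (Finset.sum_le_sum hpt).trans ?_
  rw [Finset.sum_add_distrib, Finset.sum_const, card_blk, nsmul_eq_mul]
  have h3 : ∑ k ∈ blk n a, (if k ∈ Finset.Icc (k' - J) (k' + J) then (1 : ℝ) else 0)
      ≤ 2 * J + 1 := by
    rw [← Finset.sum_filter, Finset.sum_const, nsmul_eq_mul, mul_one]
    have h4 : ((blk n a).filter (fun k => k ∈ Finset.Icc (k' - J) (k' + J))).card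
        ≤ (Finset.Icc (k' - J) (k' + J)).card := by
      refine Finset.card_le_card fun k hk => ?_
      rw [Finset.mem_filter] at hk
      exact hk.2
    have h5 : (Finset.Icc (k' - J) (k' + J)).card ≤ 2 * J + 1 := by
      rw [Nat.card_Icc]; omega
    have h6 := h4.trans h5
    exact_mod_cast h6
  linarith

private theorem int_bd (S : Sys Y ν) [IsProbabilityMeasure ν] (n N : ℕ) (d c : ℝ)
    (i : Fin N → ℕ) :
    ∫ y, S.bd n N d c i y ∂ν
      = (∑ s : Fin N → Bool, ∑ e ∈ Finset.range (N + 1), ∑ a ∈ Finset.range N,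
        (∫ y, S.ch y (S.TT (ex i) (exb s) e y) (ex i a) ∂ν
          + (∑ k ∈ blk n a, ∫ y, S.ch y (S.TT (ex i) (exb s) e y) k ∂ν) * (2 / (d * c))))
      + ∑ a ∈ Finset.range N,
          (∫ y, |((S.adm y (blk n a)).card : ℝ) - c| ∂ν) * (2 / (d * c)) := by
  have hch : ∀ (s : Fin N → Bool) (e k : ℕ),
      Integrable (fun y => S.ch y (S.TT (ex i) (exb s) e y) k) ν := fun s e k =>
    S.ch_int (f := fun y => y) measurable_id (S.measurable_TT (ex i) (exb s) e) k
  have hcd : ∀ a : ℕ, Integrable (fun y => |((S.adm y (blk n a)).card : ℝ) - c|) ν := by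
    intro a
    refine integrable_of_bdd ((S.measurable_card (blk n a)).sub_const c).abs
      (((blk n a).card : ℝ) + |c|) fun y => ?_
    rw [abs_abs]
    have h1 : ((S.adm y (blk n a)).card : ℝ) ≤ ((blk n a).card : ℝ) := by
      have h0 : S.adm y (blk n a) ⊆ blk n a := by
        classical
        intro k hk
        simp only [adm, Finset.mem_filter] at hk
        exact hk.1
      exact_mod_cast Finset.card_le_card h0
    calc |((S.adm y (blk n a)).card : ℝ) - c| ≤ |((S.adm y (blk n a)).card : ℝ)| + |c| :=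
          abs_sub _ _
      _ ≤ ((blk n a).card : ℝ) + |c| := by
          rw [abs_of_nonneg (Nat.cast_nonneg _)]; linarith
  have hin : ∀ (s : Fin N → Bool) (e a : ℕ),
      Integrable (fun y => S.ch y (S.TT (ex i) (exb s) e y) (ex i a)
        + (∑ k ∈ blk n a, S.ch y (S.TT (ex i) (exb s) e y) k) * (2 / (d * c))) ν := fun s e a =>
    (hch s e _).add ((integrable_finsetSum _ fun k _ => hch s e k).mul_const _)
  have h1 : Integrable (fun y => ∑ s : Fin N → Bool, ∑ e ∈ Finset.range (N + 1),
      ∑ a ∈ Finset.range N, (S.ch y (S.TT (ex i) (exb s) e y) (ex i a)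
        + (∑ k ∈ blk n a, S.ch y (S.TT (ex i) (exb s) e y) k) * (2 / (d * c)))) ν :=
    integrable_finsetSum _ fun s _ => integrable_finsetSum _ fun e _ =>
      integrable_finsetSum _ fun a _ => hin s e a
  have h2 : Integrable (fun y => ∑ a ∈ Finset.range N,
      |((S.adm y (blk n a)).card : ℝ) - c| * (2 / (d * c))) ν :=
    integrable_finsetSum _ fun a _ => (hcd a).mul_const _
  unfold bd
  rw [integral_add h1 h2]
  congr 1
  · rw [integral_finsetSum _ fun s _ => integrable_finsetSum _ fun e _ =>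
      integrable_finsetSum _ fun a _ => hin s e a]
    refine Finset.sum_congr rfl fun s _ => ?_
    rw [integral_finsetSum _ fun e _ => integrable_finsetSum _ fun a _ => hin s e a]
    refine Finset.sum_congr rfl fun e _ => ?_
    rw [integral_finsetSum _ fun a _ => hin s e a]
    refine Finset.sum_congr rfl fun a _ => ?_
    rw [integral_add (hch s e _) ((integrable_finsetSum _ fun k _ => hch s e k).mul_const _),
      integral_mul_const, integral_finsetSum _ fun k _ => hch s e k]
  · rw [integral_finsetSum _ fun a _ => (hcd a).mul_const _]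
    refine Finset.sum_congr rfl fun a _ => ?_
    rw [integral_mul_const]

/-- the own-time terms -/
private noncomputable def own (S : Sys Y ν) {N : ℕ} (i : Fin N → ℕ) (a e' : ℕ) : ℝ :=
  if ex i e' = ex i a then 0 else S.rho ((ex i a : ℤ) - ex i e')

private theorem own_nn (S : Sys Y ν) {N : ℕ} (i : Fin N → ℕ) (a e' : ℕ) : 0 ≤ S.own i a e' := by
  unfold own; split_ifs
  · exact le_rfl
  · exact S.rho_nn _

private theorem sum_own_le (S : Sys Y ν) [IsProbabilityMeasure ν] {N n : ℕ} (hn : 0 < n) {ε : ℝ}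
    (hε : 0 < ε) (h : ∀ a k' : ℕ, ∑ k ∈ blk n a, S.rho ((k : ℤ) - k') ≤ ε * n)
    {a e' : ℕ} (ha : a < N) :
    ∑ i ∈ Fintype.piFinset (fun a : Fin N => blk n a), S.own i a e' ≤ ε * (n : ℝ) ^ N := by
  by_cases hae : a = e'
  · subst hae
    have : ∀ i ∈ Fintype.piFinset (fun a : Fin N => blk n a), S.own i a a = 0 := by
      intro i _; unfold own; rw [if_pos rfl]
    rw [Finset.sum_congr rfl this, Finset.sum_const_zero]
    positivity
  · refine sum_coord_le hn ⟨a, ha⟩ (fun i => S.own i a e') ?_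
    intro i _
    refine le_trans (Finset.sum_le_sum (fun k _ => ?_)) (h a (ex i e'))
    have h1 : ex (Function.update i (⟨a, ha⟩ : Fin N) k) a = k := by
      unfold ex; rw [dif_pos ha, Function.update_self]
    have h2 : ex (Function.update i (⟨a, ha⟩ : Fin N) k) e' = ex i e' := by
      unfold ex
      by_cases he : e' < N
      · rw [dif_pos he, dif_pos he, Function.update_of_ne]
        intro h; exact hae (by simpa using (congrArg Fin.val h).symm)
      · rw [dif_neg he, dif_neg he]
    show S.own (Function.update i (⟨a, ha⟩ : Fin N) k) a e' ≤ S.rho ((k : ℤ) - ex i e')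
    unfold own
    rw [h1, h2]
    split_ifs
    · exact S.rho_nn _
    · exact le_rfl

theorem bd_small (S : Sys Y ν) [IsProbabilityMeasure ν] {α : ℝ} (hα : 0 < α) (hL : S.Loc)
    (hD : S.Dens α) (N : ℕ) {d δ : ℝ} (hd : 0 < d) (hδ : 0 < δ) :
    ∃ n₀ : ℕ, ∀ n ≥ n₀, ∑ i ∈ Fintype.piFinset (fun a : Fin N => blk n a),
      ∫ y, S.bd n N d (α * n) i y ∂ν ≤ δ * (n : ℝ) ^ N := by
  set K : ℝ := 2 ^ N * ((N + 1) * (N * (N + N * (2 / (d * α))))) + N * (2 / (d * α)) with hK
  have hK0 : 0 ≤ K := by positivity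
  set ε : ℝ := δ / (K + 1) with hεd
  have hε : 0 < ε := by positivity
  have hεK : ε * K ≤ δ := by
    rw [hεd, div_mul_eq_mul_div, div_le_iff₀ (by positivity)]
    nlinarith
  obtain ⟨n₁, hn₁⟩ := S.rho_small hL hε
  have hD' : ∀ᶠ n : ℕ in atTop,
      ∫ y, |((S.adm y (Finset.range n)).card : ℝ) / n - α| ∂ν < ε :=
    hD.eventually (gt_mem_nhds hε)
  obtain ⟨n₂, hn₂⟩ := hD'.exists_forall_of_atTop
  refine ⟨max (max n₁ n₂) 1, fun n hn => ?_⟩
  have hnn1 : n₁ ≤ n := (le_max_left _ _).trans ((le_max_left _ _).trans hn)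
  have hnn2 : n₂ ≤ n := (le_max_right _ _).trans ((le_max_left _ _).trans hn)
  have hn0 : 0 < n := lt_of_lt_of_le Nat.one_pos ((le_max_right _ _).trans hn)
  have hn' : (0 : ℝ) < n := by exact_mod_cast hn0
  have hrho := hn₁ n hnn1
  have hcard : ∀ a : ℕ, ∫ y, |((S.adm y (blk n a)).card : ℝ) - α * n| ∂ν ≤ ε * n := by
    intro a
    have h1 := S.integral_card_blk n a (fun k => |(k : ℝ) - α * n|)
    rw [h1]
    have h2 : ∀ y, |((S.adm y (Finset.range n)).card : ℝ) - α * n|
        = |((S.adm y (Finset.range n)).card : ℝ) / n - α| * n := by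
      intro y
      rw [← abs_of_pos hn', ← abs_mul, abs_of_pos hn']
      congr 1
      field_simp
    simp_rw [h2]
    rw [integral_mul_const]
    exact mul_le_mul_of_nonneg_right (hn₂ n hnn2).le hn'.le
  have hfac : (2 : ℝ) / (d * (α * n)) = 2 / (d * α) / n := by
    field_simp
  have hq : (0 : ℝ) ≤ 2 / (d * (α * n)) := by positivity
  -- one tuple
  have hone : ∀ i ∈ Fintype.piFinset (fun a : Fin N => blk n a),
      ∫ y, S.bd n N d (α * n) i y ∂ν
        ≤ 2 ^ N * ((N + 1) * ∑ a ∈ Finset.range N,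
            ((∑ e' ∈ Finset.range N, S.own i a e') + N * ε * (2 / (d * α))))
          + N * (ε * (2 / (d * α))) := by
    intro i _
    rw [int_bd]
    have hA : ∀ (s : Fin N → Bool), ∀ e ∈ Finset.range (N + 1), ∀ a ∈ Finset.range N,
        (∫ y, S.ch y (S.TT (ex i) (exb s) e y) (ex i a) ∂ν
          + (∑ k ∈ blk n a, ∫ y, S.ch y (S.TT (ex i) (exb s) e y) k ∂ν) * (2 / (d * (α * n))))
        ≤ (∑ e' ∈ Finset.range N, S.own i a e') + N * ε * (2 / (d * α)) := by
      intro s e he a _
      have heN : e ≤ N := by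
        have := Finset.mem_range.mp he; omega
      have hsub : Finset.range e ⊆ Finset.range N := by
        intro x hx
        rw [Finset.mem_range] at hx ⊢; omega
      refine add_le_add ?_ ?_
      · refine (S.integral_ch_le (ex i) (exb s) e (ex i a)).trans ?_
        exact Finset.sum_le_sum_of_subset_of_nonneg hsub fun e' _ _ => S.own_nn i a e'
      · have h1 : ∑ k ∈ blk n a, ∫ y, S.ch y (S.TT (ex i) (exb s) e y) k ∂ν
            ≤ N * (ε * n) := by
          calc ∑ k ∈ blk n a, ∫ y, S.ch y (S.TT (ex i) (exb s) e y) k ∂ν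
              ≤ ∑ k ∈ blk n a, ∑ e' ∈ Finset.range N, S.rho ((k : ℤ) - ex i e') := by
                refine Finset.sum_le_sum fun k _ => ?_
                refine (S.integral_ch_le (ex i) (exb s) e k).trans ?_
                refine le_trans (Finset.sum_le_sum (g := fun e' => S.rho ((k : ℤ) - ex i e'))
                  fun e' _ => ?_) ?_
                · split_ifs
                  · exact S.rho_nn _
                  · exact le_rfl
                · exact Finset.sum_le_sum_of_subset_of_nonneg hsub fun e' _ _ => S.rho_nn _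
            _ = ∑ e' ∈ Finset.range N, ∑ k ∈ blk n a, S.rho ((k : ℤ) - ex i e') :=
                Finset.sum_comm
            _ ≤ ∑ e' ∈ Finset.range N, ε * n := Finset.sum_le_sum fun e' _ => hrho a _
            _ = N * (ε * n) := by
                rw [Finset.sum_const, Finset.card_range, nsmul_eq_mul]
        refine (mul_le_mul_of_nonneg_right h1 hq).trans (le_of_eq ?_)
        rw [hfac]
        field_simp
    refine add_le_add ?_ ?_
    · calc _ ≤ ∑ s : Fin N → Bool, ∑ e ∈ Finset.range (N + 1), ∑ a ∈ Finset.range N,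
            ((∑ e' ∈ Finset.range N, S.own i a e') + N * ε * (2 / (d * α))) :=
            Finset.sum_le_sum fun s _ => Finset.sum_le_sum fun e he =>
              Finset.sum_le_sum fun a ha => hA s e he a ha
        _ = _ := by
            rw [Finset.sum_const, Finset.sum_const]
            simp only [Finset.card_univ, Fintype.card_fun, Fintype.card_bool, Fintype.card_fin,
              Finset.card_range, nsmul_eq_mul]
            push_cast
            ring
    · calc _ ≤ ∑ a ∈ Finset.range N, (ε * n) * (2 / (d * (α * n))) :=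
            Finset.sum_le_sum fun a _ => mul_le_mul_of_nonneg_right (hcard a) hq
        _ = _ := by
            rw [Finset.sum_const, Finset.card_range, nsmul_eq_mul, hfac]
            field_simp
  refine (Finset.sum_le_sum hone).trans ?_
  have hcardpi : ((Fintype.piFinset (fun a : Fin N => blk n a)).card : ℝ) = (n : ℝ) ^ N := by
    rw [Fintype.card_piFinset]
    simp only [card_blk, Finset.prod_const, Finset.card_univ, Fintype.card_fin]
    push_cast; rfl
  rw [Finset.sum_add_distrib, Finset.sum_const, nsmul_eq_mul, hcardpi, ← Finset.mul_sum,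
    ← Finset.mul_sum, Finset.sum_comm]
  have hX : ∑ a ∈ Finset.range N, ∑ i ∈ Fintype.piFinset (fun a : Fin N => blk n a),
      ((∑ e' ∈ Finset.range N, S.own i a e') + N * ε * (2 / (d * α)))
      ≤ N * (N * (ε * (n : ℝ) ^ N) + (n : ℝ) ^ N * (N * ε * (2 / (d * α)))) := by
    calc _ ≤ ∑ a ∈ Finset.range N,
          (N * (ε * (n : ℝ) ^ N) + (n : ℝ) ^ N * (N * ε * (2 / (d * α)))) := by
          refine Finset.sum_le_sum fun a ha => ?_
          rw [Finset.sum_add_distrib, Finset.sum_const, nsmul_eq_mul, hcardpi, Finset.sum_comm]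
          refine add_le_add ?_ le_rfl
          calc _ ≤ ∑ e' ∈ Finset.range N, ε * (n : ℝ) ^ N :=
                Finset.sum_le_sum fun e' _ =>
                  S.sum_own_le hn0 hε hrho (Finset.mem_range.mp ha)
            _ = _ := by rw [Finset.sum_const, Finset.card_range, nsmul_eq_mul]
      _ = _ := by rw [Finset.sum_const, Finset.card_range, nsmul_eq_mul]
  have hnN : (0 : ℝ) ≤ (n : ℝ) ^ N := by positivity
  calc _ ≤ 2 ^ N * ((N + 1) * (N * (N * (ε * (n : ℝ) ^ N)
          + (n : ℝ) ^ N * (N * ε * (2 / (d * α))))))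
        + (n : ℝ) ^ N * (N * (ε * (2 / (d * α)))) := by
          refine add_le_add (mul_le_mul_of_nonneg_left
            (mul_le_mul_of_nonneg_left hX (by positivity)) (by positivity)) le_rfl
    _ = (ε * K) * (n : ℝ) ^ N := by rw [hK]; ring
    _ ≤ δ * (n : ℝ) ^ N := mul_le_mul_of_nonneg_right hεK hnN

end Sys

end Pool.Agent.EAG
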