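import Mathlib

/-!
# EAG: sub-diffusive walks have no reflection symmetry (definitions)

Abstract replacement of section 7 of `tj60_proof.md` (MP_37ff18_mp).
-/

open MeasureTheory Filter Topology Finset

namespace Pool.Agent.EAG

/-! ## deterministic part -/

/-- triangular kernel at the dyadic scale `2 ^ j` -/
noncomputable def tri (j : ℕ) (x : ℝ) : ℝ := max 0 (1 - |x| / 2 ^ j)

/-- energy between two finite sets of times of the sequence `v` -/
noncomputable def en (v : ℕ → ℝ) (j : ℕ) (B C : Finset ℕ) : ℝ :=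
  ∑ k ∈ B, ∑ l ∈ C, tri j (v k - v l)

/-- squared Hilbert distance of the empirical vectors of `B` and `C`, both divided by `c` -/
noncomputable def ds (v : ℕ → ℝ) (j : ℕ) (c : ℝ) (B C : Finset ℕ) : ℝ :=
  (en v j B B - 2 * en v j B C + en v j C C) / c ^ 2

/-- spread of `v` on `B` at scale `2 ^ j`: the mean of `1 - tri` over `B × B` -/
noncomputable def spr (v : ℕ → ℝ) (j : ℕ) (B : Finset ℕ) : ℝ :=
  1 - en v j B B / (B.card : ℝ) ^ 2

/-- mean of `1 - tri` between the points of `B` and the point `k` -/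
noncomputable def qq (v : ℕ → ℝ) (j : ℕ) (B : Finset ℕ) (k : ℕ) : ℝ :=
  1 - (∑ l ∈ B, tri j (v l - v k)) / (B.card : ℝ)

/-- extension of a tuple to all of `ℕ` -/
def ex {N : ℕ} (i : Fin N → ℕ) (c : ℕ) : ℕ := if h : c < N then i ⟨c, h⟩ else 0

/-- extension of a sign vector to all of `ℕ` -/
def exb {N : ℕ} (s : Fin N → Bool) (c : ℕ) : Bool := if h : c < N then s ⟨c, h⟩ else false

/-- `true` is the minus sign -/
def sg (b : Bool) : ℝ := if b then -1 else 1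

/-- signed sum of the increments of `v` between the times `i a, ..., i b` -/
noncomputable def Sab (v : ℕ → ℝ) (i : ℕ → ℕ) (s : ℕ → Bool) (a b : ℕ) : ℝ :=
  ∑ c ∈ Finset.Ico a b, sg (s c) * (v (i (c + 1)) - v (i c))

/-- block number `a` of length `n` -/
def blk (n a : ℕ) : Finset ℕ := Finset.Ico (a * n) ((a + 1) * n)

/-- pairs `a < b` of blocks -/
def prs (N : ℕ) : Finset (ℕ × ℕ) :=
  ((Finset.range N) ×ˢ (Finset.range N)).filter (fun p => p.1 < p.2)

/-- total growth over the scales `0, ..., U` -/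
noncomputable def gam (v : ℕ → ℝ) (U N : ℕ) (c : ℝ) (B : ℕ → Finset ℕ) : ℝ :=
  ∑ j ∈ Finset.range (U + 1), (∑ p ∈ prs N, ds v j c (B p.1) (B p.2)) / (N : ℝ) ^ 2

open Classical in
/-- proportion of the sign vectors for which the signed sum is at least `2 ^ j` -/
noncomputable def pS (N : ℕ) (v : ℕ → ℝ) (i : ℕ → ℕ) (j a b : ℕ) : ℝ :=
  ((Finset.univ.filter (fun s : Fin N → Bool => (2 : ℝ) ^ j ≤ |Sab v i (exb s) a b|)).card : ℝ)
    / 2 ^ N

open Classical in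
noncomputable def psi (N : ℕ) (v : ℕ → ℝ) (B : ℕ → Finset ℕ) (i : ℕ → ℕ) (j a b : ℕ) : ℝ :=
  if qq v j (B a) (i a) ≤ 1 / 2000 ∧ qq v j (B b) (i b) ≤ 1 / 2000 then pS N v i j a b else 0

noncomputable def zt (N U l : ℕ) (v : ℕ → ℝ) (B : ℕ → Finset ℕ) (i : ℕ → ℕ) : ℝ :=
  (∑ p ∈ prs N, min (l : ℝ) (∑ j ∈ Finset.range (U + 1), psi N v B i j p.1 p.2)) / (N : ℝ) ^ 2

/-! ## the system -/

/-- a stationary walk with partial reflections -/
structure Sys (Y : Type*) [MeasurableSpace Y] (ν : Measure Y) where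
  Th : ℤ → Y → Y
  mpTh : ∀ k, MeasurePreserving (Th k) ν ν
  Th_zero : ∀ y, Th 0 y = y
  Th_add : ∀ k l y, Th (k + l) y = Th k (Th l y)
  x : Y → ℝ
  hx : Measurable x
  A : Set Y
  hA : MeasurableSet A
  R : Y → Y
  mpR : MeasurePreserving R ν ν
  R_mem : ∀ᵐ y ∂ν, y ∈ A → R y ∈ A
  R_off : ∀ y, y ∉ A → R y = y
  xR_pos : ∀ᵐ y ∂ν, y ∈ A → ∀ k : ℕ, x (Th k (R y)) = - x (Th k y)
  xR_neg : ∀ᵐ y ∂ν, y ∈ A → ∀ k : ℕ, x (Th (-((k : ℤ) + 1)) (R y)) = x (Th (-((k : ℤ) + 1)) y)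

variable {Y : Type*} [MeasurableSpace Y] {ν : Measure Y}

namespace Sys

/-- the walk -/
noncomputable def V (S : Sys Y ν) (y : Y) (k : ℕ) : ℝ := ∑ l ∈ Finset.range k, S.x (S.Th (l : ℤ) y)

open Classical in
/-- admissible times in a finite set -/
noncomputable def adm (S : Sys Y ν) (y : Y) (B : Finset ℕ) : Finset ℕ :=
  B.filter (fun k => S.Th (k : ℤ) y ∈ S.A)

/-- the reflection at time `k` -/
def Rat (S : Sys Y ν) (k : ℕ) (y : Y) : Y := S.Th (-(k : ℤ)) (S.R (S.Th (k : ℤ) y))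

/-- previous sign -/
def prev (s : ℕ → Bool) : ℕ → Bool
  | 0 => false
  | c + 1 => s c

/-- apply the first `c` reflections: after all of them the increments between the times `i c` and
`i (c + 1)` carry the sign `s c` -/
def TT (S : Sys Y ν) (i : ℕ → ℕ) (s : ℕ → Bool) : ℕ → Y → Y
  | 0, y => y
  | c + 1, y => if s c = prev s c then S.TT i s c y else S.Rat (i c) (S.TT i s c y)

open Classical in
/-- `1` if the admissibility of time `k` differs in `y` and `z` -/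
noncomputable def ch (S : Sys Y ν) (y z : Y) (k : ℕ) : ℝ :=
  if (S.Th (k : ℤ) y ∈ S.A ↔ S.Th (k : ℤ) z ∈ S.A) then 0 else 1

/-- size of the badness of `(y, i)`; if it is `< 1` then all the reflections are legal and
change the admissible sets very little -/
noncomputable def bd (S : Sys Y ν) (n N : ℕ) (d c : ℝ) (i : Fin N → ℕ) (y : Y) : ℝ :=
  (∑ s : Fin N → Bool, ∑ e ∈ Finset.range (N + 1), ∑ a ∈ Finset.range N,
    (S.ch y (S.TT (ex i) (exb s) e y) (ex i a)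
      + (∑ k ∈ blk n a, S.ch y (S.TT (ex i) (exb s) e y) k) * (2 / (d * c))))
  + ∑ a ∈ Finset.range N, |((S.adm y (blk n a)).card : ℝ) - c| * (2 / (d * c))

/-- energy of the first `n` times at scale `j` -/
noncomputable def cn (S : Sys Y ν) (α : ℝ) (n j : ℕ) : ℝ :=
  ∫ y, en (S.V y) j (S.adm y (Finset.range n)) (S.adm y (Finset.range n)) / (α * n) ^ 2 ∂ν

/-- growth of the energy from `n` to `N n` at scale `j` -/
noncomputable def gm (S : Sys Y ν) (α : ℝ) (n N j : ℕ) : ℝ :=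
  ∫ y, (∑ p ∈ prs N, ds (S.V y) j (α * n) (S.adm y (blk n p.1)) (S.adm y (blk n p.2)))
    / (N : ℝ) ^ 2 ∂ν

/-- asymptotic locality of the reflection -/
def Loc (S : Sys Y ν) : Prop :=
  Tendsto (fun k : ℕ => ν.real {y | ¬ (S.Th (k : ℤ) (S.R y) ∈ S.A ↔ S.Th (k : ℤ) y ∈ S.A)})
    atTop (𝓝 0) ∧
  Tendsto (fun k : ℕ => ν.real {y | ¬ (S.Th (-(k : ℤ)) (S.R y) ∈ S.A ↔ S.Th (-(k : ℤ)) y ∈ S.A)})
    atTop (𝓝 0)

/-- the density of the admissible times is `α` -/
def Dens (S : Sys Y ν) (α : ℝ) : Prop :=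
  Tendsto (fun n : ℕ => ∫ y, |((S.adm y (Finset.range n)).card : ℝ) / n - α| ∂ν) atTop (𝓝 0)

/-- no tightness -/
def NoTight (S : Sys Y ν) : Prop :=
  Tendsto (fun n : ℕ => (∑ k ∈ Finset.range n, ν.real {y | |S.V y k| < 1}) / n) atTop (𝓝 0)

/-- subdiffusivity: the walk makes less than `n ^ (1/3)` in `n` steps -/
def Sub (S : Sys Y ν) : Prop :=
  ∀ δ : ℝ, 0 < δ → ∃ n₁ : ℕ, ∀ n ≥ n₁, ∀ m ≤ n, ν.real {y | (n : ℝ) < |S.V y m| ^ 3} ≤ δ

end Sys

end Pool.Agent.EAG
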