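import Pool.Agent.EAG.Defs

/-! # EAG-ELO: Littlewood-Offord-Erdos anticoncentration -/

open MeasureTheory Filter Topology Finset

namespace Pool.Agent.EAG

namespace EloAux

theorem cb_le (k : ℕ) : (Nat.centralBinom k) ^ 2 * (2 * k + 1) ≤ 16 ^ k := by
  induction k with
  | zero => simp
  | succ k ih =>
    have h1 := Nat.succ_mul_centralBinom_succ k
    have h2 : (k + 1) ^ 2 * (Nat.centralBinom (k + 1) ^ 2 * (2 * (k + 1) + 1)) ≤
        (k + 1) ^ 2 * 16 ^ (k + 1) := by
      calc (k + 1) ^ 2 * (Nat.centralBinom (k + 1) ^ 2 * (2 * (k + 1) + 1))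
          = ((k + 1) * Nat.centralBinom (k + 1)) ^ 2 * (2 * k + 3) := by ring
        _ = (4 * (2 * k + 1) * (2 * k + 3)) * (Nat.centralBinom k ^ 2 * (2 * k + 1)) := by
            rw [h1]
            ring
        _ ≤ (16 * (k + 1) ^ 2) * 16 ^ k := by
            refine Nat.mul_le_mul ?_ ih
            nlinarith
        _ = (k + 1) ^ 2 * 16 ^ (k + 1) := by ring
    exact Nat.le_of_mul_le_mul_left h2 (by positivity)

theorem sq_choose_le (n : ℕ) : (n.choose (n / 2)) ^ 2 * (n + 1) ≤ 4 ^ n := by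
  rcases Nat.even_or_odd' n with ⟨k, rfl | rfl⟩
  · have h1 : 2 * k / 2 = k := by omega
    have h2 := cb_le k
    rw [Nat.centralBinom_eq_two_mul_choose] at h2
    rw [h1, pow_mul]
    exact h2
  · have h1 : (2 * k + 1) / 2 = k := by omega
    have h2 := cb_le (k + 1)
    have h3 : Nat.centralBinom (k + 1) = 2 * (2 * k + 1).choose k := by
      rw [Nat.centralBinom_eq_two_mul_choose, show 2 * (k + 1) = (2 * k + 1) + 1 by ring,
        Nat.choose_succ_succ, Nat.choose_symm_half]
      ring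
    rw [h3] at h2
    rw [h1]
    have h4 : 4 * ((2 * k + 1).choose k ^ 2 * (2 * k + 1 + 1)) ≤ 4 * 4 ^ (2 * k + 1) := by
      calc 4 * ((2 * k + 1).choose k ^ 2 * (2 * k + 1 + 1))
          ≤ (2 * (2 * k + 1).choose k) ^ 2 * (2 * (k + 1) + 1) := by nlinarith
        _ ≤ 16 ^ (k + 1) := h2
        _ = 4 * 4 ^ (2 * k + 1) := by
            rw [← pow_succ', show 2 * k + 1 + 1 = 2 * (k + 1) by ring, pow_mul]
            norm_num
    exact Nat.le_of_mul_le_mul_left h4 (by norm_num)

theorem sg_abs (b : Bool) (x : ℝ) : |sg b * x| = |x| := by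
  unfold sg
  split_ifs <;> simp

/-- the values of the signed sum of a set of positive terms -/
noncomputable def Ph {κ : Type*} [Fintype κ] [DecidableEq κ] (w : κ → ℝ) (S : Finset κ) : ℝ :=
  ∑ c, if c ∈ S then |w c| else -|w c|

theorem Ph_lt {κ : Type*} [Fintype κ] [DecidableEq κ] (w : κ → ℝ) {h : ℝ}
    (hw : ∀ c, h ≤ |w c|) {S S' : Finset κ} (hS : S ⊆ S') (hne : S ≠ S') :
    Ph w S + 2 * h ≤ Ph w S' := by
  obtain ⟨c0, h1, h2⟩ : ∃ c0, c0 ∈ S' ∧ c0 ∉ S := by
    by_contra hcon
    push Not at hcon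
    exact hne (Finset.Subset.antisymm hS hcon)
  have h3 : Ph w S' - Ph w S = ∑ c, ((if c ∈ S' then |w c| else -|w c|) -
      (if c ∈ S then |w c| else -|w c|)) := by
    unfold Ph
    rw [Finset.sum_sub_distrib]
  have h4 : ∀ c ∈ (Finset.univ : Finset κ), 0 ≤ (if c ∈ S' then |w c| else -|w c|) -
      (if c ∈ S then |w c| else -|w c|) := by
    intro c _
    have := abs_nonneg (w c)
    by_cases hc : c ∈ S
    · rw [if_pos hc, if_pos (hS hc), sub_self]
    · rw [if_neg hc]
      split_ifs <;> linarith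
  have h5 := Finset.single_le_sum h4 (Finset.mem_univ c0)
  rw [← h3, if_pos h1, if_neg h2] at h5
  have := hw c0
  linarith

/-- the set of positive terms -/
noncomputable def Ps {κ : Type*} [Fintype κ] [DecidableEq κ] (w : κ → ℝ) (s : κ → Bool) :
    Finset κ := by
  classical
  exact Finset.univ.filter (fun c => 0 < sg (s c) * w c)

theorem sum_eq {κ : Type*} [Fintype κ] [DecidableEq κ] (w : κ → ℝ) (s : κ → Bool) :
    ∑ c, sg (s c) * w c = Ph w (Ps w s) := by
  unfold Ph
  refine Finset.sum_congr rfl fun c _ => ?_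
  have h1 := sg_abs (s c) (w c)
  by_cases hc : 0 < sg (s c) * w c
  · rw [if_pos (by simpa [Ps] using hc), ← h1, abs_of_pos hc]
  · rw [if_neg (by simpa [Ps] using hc), ← h1, abs_of_nonpos (not_lt.mp hc), neg_neg]

theorem Ps_inj {κ : Type*} [Fintype κ] [DecidableEq κ] (w : κ → ℝ) (hw : ∀ c, w c ≠ 0) :
    Function.Injective (Ps w) := by
  intro s s' h
  funext c
  have h1 : (0 < sg (s c) * w c) ↔ (0 < sg (s' c) * w c) := by
    have e1 : c ∈ Ps w s ↔ 0 < sg (s c) * w c := by simp [Ps]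
    have e2 : c ∈ Ps w s' ↔ 0 < sg (s' c) * w c := by simp [Ps]
    rw [← e1, ← e2, h]
  have hc := hw c
  unfold sg at h1
  rcases lt_or_gt_of_ne hc with h2 | h2
  · cases hs : s c <;> cases hs' : s' c <;> simp [hs, hs'] at h1 ⊢
    · linarith [h1.mpr h2]
    · linarith [h1.mp h2]
  · cases hs : s c <;> cases hs' : s' c <;> simp [hs, hs'] at h1 ⊢
    · linarith [h1.mp h2]
    · linarith [h1.mpr h2]

open Classical in
theorem window {κ : Type*} [Fintype κ] [DecidableEq κ] (w : κ → ℝ) {h : ℝ} (hh : 0 < h)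
    (hw : ∀ c, h ≤ |w c|) (y z : ℝ) :
    (Finset.univ.filter (fun s : κ → Bool => z ≤ y + ∑ c, sg (s c) * w c ∧
      y + ∑ c, sg (s c) * w c < z + 2 * h)).card ≤
      (Fintype.card κ).choose (Fintype.card κ / 2) := by
  set F := Finset.univ.filter (fun s : κ → Bool => z ≤ y + ∑ c, sg (s c) * w c ∧
      y + ∑ c, sg (s c) * w c < z + 2 * h) with hF
  have hw0 : ∀ c, w c ≠ 0 := fun c hc => by
    have := hw c
    rw [hc, abs_zero] at this
    linarith
  have h1 : F.card = (F.image (Ps w)).card :=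
    (Finset.card_image_of_injective _ (Ps_inj w hw0)).symm
  rw [h1]
  apply IsAntichain.sperner
  intro S hS S' hS' hne hsub
  rw [SetLike.mem_coe, Finset.mem_image] at hS hS'
  obtain ⟨s, hs, rfl⟩ := hS
  obtain ⟨s', hs', rfl⟩ := hS'
  rw [hF, Finset.mem_filter] at hs hs'
  have h2 := Ph_lt w hw hsub hne
  rw [← sum_eq, ← sum_eq] at h2
  linarith [hs.2.1, hs'.2.2]

open Classical in
theorem strip {κ : Type*} [Fintype κ] [DecidableEq κ] (w : κ → ℝ) {h : ℝ} (hh : 0 < h)
    (hw : ∀ c, h ≤ |w c|) (y : ℝ) {t : ℝ} :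
    (Finset.univ.filter (fun s : κ → Bool => |y + ∑ c, sg (s c) * w c| < t)).card ≤
      ⌈t / h⌉₊ * (Fintype.card κ).choose (Fintype.card κ / 2) := by
  have hsub : (Finset.univ.filter (fun s : κ → Bool => |y + ∑ c, sg (s c) * w c| < t)) ⊆
      (Finset.range ⌈t / h⌉₊).biUnion (fun m => Finset.univ.filter (fun s : κ → Bool =>
        (-t + 2 * h * m) ≤ y + ∑ c, sg (s c) * w c ∧
        y + ∑ c, sg (s c) * w c < (-t + 2 * h * m) + 2 * h)) := by
    intro s hs
    rw [Finset.mem_filter] at hs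
    obtain ⟨h1, h2⟩ := abs_lt.mp hs.2
    set x := y + ∑ c, sg (s c) * w c with hx
    have hx0 : 0 ≤ (x + t) / (2 * h) := div_nonneg (by linarith) (by linarith)
    rw [Finset.mem_biUnion]
    refine ⟨⌊(x + t) / (2 * h)⌋₊, ?_, ?_⟩
    · rw [Finset.mem_range, Nat.floor_lt hx0]
      have h3 : (x + t) / (2 * h) < t / h := by
        rw [div_lt_div_iff₀ (by linarith) hh]
        nlinarith
      exact h3.trans_le (Nat.le_ceil _)
    · rw [Finset.mem_filter]
      refine ⟨Finset.mem_univ _, ?_, ?_⟩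
      · have h3 := Nat.floor_le hx0
        rw [le_div_iff₀ (by linarith)] at h3
        rw [← hx]
        linarith
      · have h3 := Nat.lt_floor_add_one ((x + t) / (2 * h))
        rw [div_lt_iff₀ (by linarith)] at h3
        rw [← hx]
        linarith
  calc _ ≤ _ := Finset.card_le_card hsub
    _ ≤ (Finset.range ⌈t / h⌉₊).card * (Fintype.card κ).choose (Fintype.card κ / 2) :=
        Finset.card_biUnion_le_card_mul _ _ _ fun m _ => window w hh hw y _
    _ = _ := by rw [Finset.card_range]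

end EloAux

open EloAux

/-- central binomial bound -/
theorem choose_half_le (n : ℕ) :
    (n.choose (n / 2) : ℝ) ≤ 2 ^ n / Real.sqrt (n + 1) := by
  have h1 := sq_choose_le n
  have h2 : ((n.choose (n / 2) : ℝ)) ^ 2 * (n + 1) ≤ 4 ^ n := by exact_mod_cast h1
  have h3 : 0 < Real.sqrt ((n : ℝ) + 1) := Real.sqrt_pos.mpr (by positivity)
  rw [le_div_iff₀ h3]
  have h4 : ((n.choose (n / 2) : ℝ) * Real.sqrt (n + 1)) ^ 2 ≤ (2 ^ n) ^ 2 := by
    rw [mul_pow, Real.sq_sqrt (by positivity), ← pow_mul, mul_comm n 2, pow_mul]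
    norm_num
    exact h2
  exact (abs_le_of_sq_le_sq' h4 (by positivity)).2

/-- Littlewood-Offord-Erdos: Sperner's theorem (`IsAntichain.sperner`) after conditioning on the
signs outside `T`; the interval `(-t, t)` is covered by at most `t / h + 1` half open intervals of
length `2 h`. -/
theorem elo {ι : Type*} [Fintype ι] [DecidableEq ι] (w : ι → ℝ) (T : Finset ι) {h : ℝ}
    (hh : 0 < h) (hT : ∀ c ∈ T, h ≤ |w c|) {t : ℝ} (ht : 0 < t) :
    ((Finset.univ.filter (fun s : ι → Bool => |∑ c, sg (s c) * w c| < t)).card : ℝ)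
      ≤ 2 ^ (Fintype.card ι) * ((t / h + 1) / Real.sqrt (T.card + 1)) := by
  classical
  set F := Finset.univ.filter (fun s : ι → Bool => |∑ c, sg (s c) * w c| < t) with hF
  -- restriction to the complement of `T`
  let ρ : (ι → Bool) → ({c // c ∉ T} → Bool) := fun s c => s c
  have h1 : F.card = ∑ r : {c // c ∉ T} → Bool, (F.filter (fun s => ρ s = r)).card :=
    Finset.card_eq_sum_card_fiberwise (fun s _ => Finset.mem_univ _)
  have hfib : ∀ r : {c // c ∉ T} → Bool, (F.filter (fun s => ρ s = r)).card ≤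
      ⌈t / h⌉₊ * (T.card).choose (T.card / 2) := by
    intro r
    have h2 := strip (κ := T) (fun c => w c) hh (fun c => hT c c.2)
      (∑ c : {c // c ∉ T}, sg (r c) * w c) (t := t)
    rw [Fintype.card_coe] at h2
    refine le_trans ?_ h2
    refine Finset.card_le_card_of_injOn (fun s (c : T) => s c) ?_ ?_
    · intro s hs
      rw [Finset.mem_coe, Finset.mem_filter, hF, Finset.mem_filter] at hs
      obtain ⟨⟨_, h3⟩, h4⟩ := hs
      rw [Finset.mem_coe, Finset.mem_filter]
      refine ⟨Finset.mem_univ _, ?_⟩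
      have h5 : ∑ c, sg (s c) * w c = (∑ c : {c // c ∉ T}, sg (r c) * w c) +
          ∑ c : T, sg (s c) * w c := by
        have e := Fintype.sum_subtype_add_sum_subtype (fun c => c ∈ T)
          (fun c => sg (s c) * w c)
        rw [← e, add_comm]
        congr 1
        · refine Finset.sum_congr rfl fun c _ => ?_
          rw [← h4]
        · refine Finset.sum_congr ?_ fun _ _ => rfl
          ext c
          simp
      rw [← h5]
      exact h3
    · intro s hs s' hs' hss
      rw [Finset.mem_coe, Finset.mem_filter] at hs hs'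
      funext c
      by_cases hc : c ∈ T
      · exact congrFun hss ⟨c, hc⟩
      · have := congrFun (hs.2.trans hs'.2.symm) ⟨c, hc⟩
        exact this
  have h2 : F.card ≤ 2 ^ (Fintype.card ι - T.card) * (⌈t / h⌉₊ * (T.card).choose (T.card / 2)) := by
    rw [h1]
    refine (Finset.sum_le_card_nsmul _ _ _ fun r _ => hfib r).trans ?_
    rw [Finset.card_univ, Fintype.card_fun, Fintype.card_bool, smul_eq_mul,
      Fintype.card_subtype_compl, Fintype.card_coe]
  have hle : T.card ≤ Fintype.card ι := Finset.card_le_univ T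
  have h3 : (F.card : ℝ) ≤ 2 ^ (Fintype.card ι - T.card) *
      ((⌈t / h⌉₊ : ℝ) * ((T.card).choose (T.card / 2) : ℝ)) := by exact_mod_cast h2
  have h4 : (⌈t / h⌉₊ : ℝ) ≤ t / h + 1 := (Nat.ceil_lt_add_one (by positivity)).le
  have h5 := choose_half_le T.card
  have hth : 0 ≤ t / h + 1 := by positivity
  calc (F.card : ℝ) ≤ 2 ^ (Fintype.card ι - T.card) *
      ((⌈t / h⌉₊ : ℝ) * ((T.card).choose (T.card / 2) : ℝ)) := h3
    _ ≤ 2 ^ (Fintype.card ι - T.card) *
      ((t / h + 1) * (2 ^ T.card / Real.sqrt (T.card + 1))) := by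
        refine mul_le_mul_of_nonneg_left ?_ (by positivity)
        exact mul_le_mul h4 h5 (by positivity) hth
    _ = (2 ^ (Fintype.card ι - T.card) * 2 ^ T.card) *
      ((t / h + 1) / Real.sqrt (T.card + 1)) := by ring
    _ = 2 ^ (Fintype.card ι) * ((t / h + 1) / Real.sqrt (T.card + 1)) := by
        rw [← pow_add, Nat.sub_add_cancel hle]

end Pool.Agent.EAG
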