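import Pool.Agent.EAG.Defs

/-! # EAG-KER: the triangular kernel, feature vectors, energies -/

open MeasureTheory Filter Topology Finset

namespace Pool.Agent.EAG

theorem tri_nonneg (j : ℕ) (x : ℝ) : 0 ≤ tri j x := le_max_left _ _

theorem tri_le_one (j : ℕ) (x : ℝ) : tri j x ≤ 1 := by
  unfold tri
  refine max_le zero_le_one ?_
  have : 0 ≤ |x| / 2 ^ j := by positivity
  linarith

theorem tri_zero (j : ℕ) : tri j 0 = 1 := by
  unfold tri
  simp

theorem tri_neg (j : ℕ) (x : ℝ) : tri j (-x) = tri j x := by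
  unfold tri
  rw [abs_neg]

theorem ker_half (j : ℕ) (x : ℝ) : |x| / 2 ^ (j + 1) = |x| / 2 ^ j / 2 := by
  rw [pow_succ, div_div]

theorem tri_mono (j : ℕ) (x : ℝ) : tri j x ≤ tri (j + 1) x := by
  unfold tri
  rw [ker_half]
  have h : 0 ≤ |x| / 2 ^ j := by positivity
  refine max_le_max (le_refl _) ?_
  linarith

theorem tri_double (j : ℕ) (x : ℝ) : 1 - tri j x ≤ 2 * (1 - tri (j + 1) x) := by
  unfold tri
  rw [ker_half]
  have h : 0 ≤ |x| / 2 ^ j := by positivity
  rcases le_total (1 - |x| / 2 ^ j) 0 with h1 | h1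
  · rcases le_total (1 - |x| / 2 ^ j / 2) 0 with h2 | h2
    · rw [max_eq_left h1, max_eq_left h2]
      norm_num
    · rw [max_eq_left h1, max_eq_right h2]
      linarith
  · rcases le_total (1 - |x| / 2 ^ j / 2) 0 with h2 | h2
    · rw [max_eq_right h1, max_eq_left h2]
      linarith
    · rw [max_eq_right h1, max_eq_right h2]
      linarith

theorem tri_eq_zero {j : ℕ} {x : ℝ} (h : (2 : ℝ) ^ j ≤ |x|) : tri j x = 0 := by
  unfold tri
  have h1 : 1 ≤ |x| / 2 ^ j := by
    rw [le_div_iff₀ (by positivity)]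
    linarith
  exact max_eq_left (by linarith)

theorem one_sub_tri_le (j : ℕ) (x : ℝ) : 1 - tri j x ≤ |x| / 2 ^ j := by
  have h : 1 - |x| / 2 ^ j ≤ tri j x := le_max_right _ _
  linarith

theorem continuous_tri (j : ℕ) : Continuous (tri j) := by
  unfold tri
  exact continuous_const.max (continuous_const.sub (continuous_abs.div_const _))

/-- `tri j (x - y)` is the inner product of the unit vectors
`2 ^ (-j/2) * indicator of [x, x + 2 ^ j)` of `L2` of the line. -/
theorem exists_features : ∃ (H : Type) (_ : NormedAddCommGroup H) (_ : InnerProductSpace ℝ H)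
    (φ : ℕ → ℝ → H), ∀ j x y, inner ℝ (φ j x) (φ j y) = tri j (x - y) := by
  refine ⟨Lp ℝ 2 (volume : Measure ℝ), inferInstance, inferInstance, fun j x =>
    Real.sqrt (1 / 2 ^ j) • indicatorConstLp 2 (measurableSet_Ico (a := x) (b := x + 2 ^ j))
      (measure_Ico_lt_top.ne) (1 : ℝ), fun j x y => ?_⟩
  rw [inner_smul_left, inner_smul_right, L2.real_inner_indicatorConstLp_one_indicatorConstLp_one
    measurableSet_Ico measurableSet_Ico measure_Ico_lt_top.ne measure_Ico_lt_top.ne,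
    Set.Ico_inter_Ico, Real.volume_real_Ico]
  have h2 : (0 : ℝ) < 2 ^ j := by positivity
  have h1 : Real.sqrt (1 / 2 ^ j) * Real.sqrt (1 / 2 ^ j) = 1 / 2 ^ j :=
    Real.mul_self_sqrt (by positivity)
  have h3 : (starRingEnd ℝ) (Real.sqrt (1 / 2 ^ j)) = Real.sqrt (1 / 2 ^ j) := rfl
  rw [h3, ← mul_assoc, h1]
  have h4 : ((x + 2 ^ j) ⊓ (y + 2 ^ j)) - (x ⊔ y) = 2 ^ j - |x - y| := by
    rcases le_total x y with h | h
    · rw [inf_eq_left.2 (by linarith), sup_eq_right.2 h, abs_of_nonpos (by linarith)]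
      ring
    · rw [inf_eq_right.2 (by linarith), sup_eq_left.2 h, abs_of_nonneg (by linarith)]
      ring
  rw [h4]
  unfold tri
  rw [one_div, inv_mul_eq_div, ← max_div_div_right h2.le, zero_div, max_comm]
  congr 1
  field_simp

theorem en_comm (v : ℕ → ℝ) (j : ℕ) (B C : Finset ℕ) : en v j B C = en v j C B := by
  unfold en
  rw [Finset.sum_comm]
  refine Finset.sum_congr rfl fun l _ => Finset.sum_congr rfl fun k _ => ?_
  rw [← tri_neg, neg_sub]

theorem en_nonneg (v : ℕ → ℝ) (j : ℕ) (B C : Finset ℕ) : 0 ≤ en v j B C :=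
  Finset.sum_nonneg fun _ _ => Finset.sum_nonneg fun _ _ => tri_nonneg _ _

theorem en_le (v : ℕ → ℝ) (j : ℕ) (B C : Finset ℕ) :
    en v j B C ≤ (B.card : ℝ) * (C.card : ℝ) := by
  unfold en
  calc ∑ k ∈ B, ∑ l ∈ C, tri j (v k - v l) ≤ ∑ _k ∈ B, ∑ _l ∈ C, (1 : ℝ) :=
        Finset.sum_le_sum fun _ _ => Finset.sum_le_sum fun _ _ => tri_le_one _ _
    _ = (B.card : ℝ) * (C.card : ℝ) := by simp

theorem spr_nonneg (v : ℕ → ℝ) (j : ℕ) (B : Finset ℕ) : 0 ≤ spr v j B := by
  unfold spr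
  have h1 : en v j B B / (B.card : ℝ) ^ 2 ≤ 1 := by
    refine div_le_one_of_le₀ ?_ (by positivity)
    rw [sq]
    exact en_le v j B B
  linarith

theorem spr_le_one (v : ℕ → ℝ) (j : ℕ) (B : Finset ℕ) : spr v j B ≤ 1 := by
  unfold spr
  have h1 : 0 ≤ en v j B B / (B.card : ℝ) ^ 2 := div_nonneg (en_nonneg v j B B) (by positivity)
  linarith

theorem ker_tri_le {j k : ℕ} (h : j ≤ k) (x : ℝ) : tri j x ≤ tri k x := by
  induction k, h using Nat.le_induction with
  | base => exact le_refl _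
  | succ k _ ih => exact ih.trans (tri_mono k x)

theorem spr_anti (v : ℕ → ℝ) (B : Finset ℕ) {j k : ℕ} (h : j ≤ k) : spr v k B ≤ spr v j B := by
  unfold spr
  have h1 : en v j B B ≤ en v k B B :=
    Finset.sum_le_sum fun _ _ => Finset.sum_le_sum fun _ _ => ker_tri_le h _
  have h2 : en v j B B / (B.card : ℝ) ^ 2 ≤ en v k B B / (B.card : ℝ) ^ 2 :=
    div_le_div_of_nonneg_right h1 (by positivity)
  linarith

end Pool.Agent.EAG
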