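import Pool.Agent.EAG.Var

/-! # EAG-LIMITS: the asymptotic inputs -/

open MeasureTheory Filter Topology Finset

namespace Pool.Agent.EAG

variable {Y : Type*} [MeasurableSpace Y] {ν : Measure Y}

private theorem lim_dist_le (p : ℕ → ℝ) (hp : ∀ d, 0 ≤ p d) (s n k : ℕ)
    (hk : k ∈ Finset.Ico s (s + n)) :
    ∑ l ∈ Finset.Ico s (s + n), p ((k - l) + (l - k)) ≤ 2 * ∑ d ∈ Finset.range n, p d := by
  rw [Finset.mem_Ico] at hk
  rw [← Finset.sum_Ico_consecutive _ hk.1 hk.2.le]
  have h1 : ∑ l ∈ Finset.Ico s k, p ((k - l) + (l - k)) ≤ ∑ d ∈ Finset.range n, p d := by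
    calc ∑ l ∈ Finset.Ico s k, p ((k - l) + (l - k))
        = ∑ d ∈ (Finset.Ico s k).image (fun l => (k - l) + (l - k)), p d := by
          rw [Finset.sum_image]
          intro a ha b hb hab
          simp only [Finset.coe_Ico, Set.mem_Ico] at ha hb
          simp only at hab
          omega
      _ ≤ ∑ d ∈ Finset.range n, p d := by
          refine Finset.sum_le_sum_of_subset_of_nonneg ?_ fun d _ _ => hp d
          intro d hd
          rw [Finset.mem_image] at hd
          obtain ⟨l, hl, rfl⟩ := hd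
          rw [Finset.mem_Ico] at hl
          rw [Finset.mem_range]
          omega
  have h2 : ∑ l ∈ Finset.Ico k (s + n), p ((k - l) + (l - k)) ≤ ∑ d ∈ Finset.range n, p d := by
    calc ∑ l ∈ Finset.Ico k (s + n), p ((k - l) + (l - k))
        = ∑ d ∈ (Finset.Ico k (s + n)).image (fun l => (k - l) + (l - k)), p d := by
          rw [Finset.sum_image]
          intro a ha b hb hab
          simp only [Finset.coe_Ico, Set.mem_Ico] at ha hb
          simp only at hab
          omega
      _ ≤ ∑ d ∈ Finset.range n, p d := by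
          refine Finset.sum_le_sum_of_subset_of_nonneg ?_ fun d _ _ => hp d
          intro d hd
          rw [Finset.mem_image] at hd
          obtain ⟨l, hl, rfl⟩ := hd
          rw [Finset.mem_Ico] at hl
          rw [Finset.mem_range]
          omega
  linarith

private theorem lim_blk (n a : ℕ) : blk n a = Finset.Ico (a * n) (a * n + n) := by
  unfold blk
  rw [add_mul, one_mul]

private theorem lim_blk_card (n a : ℕ) : (blk n a).card = n := by
  rw [lim_blk, Nat.card_Ico]
  omega

namespace Sys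

private theorem lim_V_sub (S : Sys Y ν) (y : Y) {l k : ℕ} (h : l ≤ k) :
    S.V y k - S.V y l = S.V (S.Th (l : ℤ) y) (k - l) := by
  obtain ⟨m, rfl⟩ := Nat.exists_eq_add_of_le h
  rw [Nat.add_sub_cancel_left]
  unfold V
  rw [Finset.sum_range_add, add_sub_cancel_left]
  refine Finset.sum_congr rfl fun i _ => ?_
  rw [← S.Th_add]
  congr 2
  push_cast
  ring

private theorem lim_adm_subset (S : Sys Y ν) (y : Y) (B : Finset ℕ) : S.adm y B ⊆ B := by
  classical
  unfold adm
  exact Finset.filter_subset _ _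

/-- stationarity for functions of one difference -/
private theorem lim_stat (S : Sys Y ν) {f : ℝ → ℝ} (hf : Measurable f) (hev : ∀ x, f (-x) = f x)
    (k l : ℕ) : ∫ y, f (S.V y k - S.V y l) ∂ν = ∫ y, f (S.V y ((k - l) + (l - k))) ∂ν := by
  have key : ∀ {l k : ℕ}, l ≤ k → ∫ y, f (S.V y k - S.V y l) ∂ν = ∫ y, f (S.V y (k - l)) ∂ν := by
    intro l k h
    have hm : Measurable (fun y => f (S.V y (k - l))) := hf.comp (S.measurable_V (k - l))
    have h1 := integral_map (μ := ν) (φ := S.Th (l : ℤ)) (S.mpTh (l : ℤ)).measurable.aemeasurable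
      (f := fun y => f (S.V y (k - l))) hm.aestronglyMeasurable
    rw [(S.mpTh (l : ℤ)).map_eq] at h1
    rw [h1]
    refine integral_congr_ae (Filter.Eventually.of_forall fun y => ?_)
    simp only
    rw [lim_V_sub S y h]
  rcases le_total l k with h | h
  · rw [key h, Nat.sub_eq_zero_of_le h, add_zero]
  · rw [Nat.sub_eq_zero_of_le h, zero_add, ← key h]
    refine integral_congr_ae (Filter.Eventually.of_forall fun y => ?_)
    simp only
    rw [← hev, neg_sub]

/-- double sums over the admissible times of a block -/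
private theorem lim_double (S : Sys Y ν) [IsProbabilityMeasure ν] {f : ℝ → ℝ}
    (hf : Measurable f) (hev : ∀ x, f (-x) = f x) (h0 : ∀ x, 0 ≤ f x) (h1 : ∀ x, f x ≤ 1)
    (B : Finset ℕ) (g : Y → ℝ)
    (hg : ∀ y, g y = ∑ k ∈ S.adm y B, ∑ l ∈ S.adm y B, f (S.V y k - S.V y l)) :
    ∫ y, g y ∂ν ≤ ∑ k ∈ B, ∑ l ∈ B, ∫ y, f (S.V y ((k - l) + (l - k))) ∂ν := by
  have hint : ∀ k l, Integrable (fun y => f (S.V y k - S.V y l)) ν := by
    intro k l
    refine integrable_of_bdd (hf.comp ((S.measurable_V k).sub (S.measurable_V l))) 1 fun y => ?_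
    rw [abs_of_nonneg (h0 _)]
    exact h1 _
  calc ∫ y, g y ∂ν ≤ ∫ y, ∑ k ∈ B, ∑ l ∈ B, f (S.V y k - S.V y l) ∂ν := by
        refine integral_mono_of_nonneg (Filter.Eventually.of_forall fun y => ?_)
          (integrable_finsetSum _ fun k _ => integrable_finsetSum _ fun l _ => hint k l)
          (Filter.Eventually.of_forall fun y => ?_)
        · simp only [Pi.zero_apply]
          rw [hg]
          exact Finset.sum_nonneg fun k _ => Finset.sum_nonneg fun l _ => h0 _
        · simp only
          rw [hg]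
          refine (Finset.sum_le_sum_of_subset_of_nonneg (lim_adm_subset S y B)
            fun k _ _ => Finset.sum_nonneg fun l _ => h0 _).trans ?_
          exact Finset.sum_le_sum fun k _ => Finset.sum_le_sum_of_subset_of_nonneg
            (lim_adm_subset S y B) fun l _ _ => h0 _
    _ = ∑ k ∈ B, ∑ l ∈ B, ∫ y, f (S.V y k - S.V y l) ∂ν := by
        rw [integral_finsetSum _ fun k _ => integrable_finsetSum _ fun l _ => hint k l]
        refine Finset.sum_congr rfl fun k _ => ?_
        rw [integral_finsetSum _ fun l _ => hint k l]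
    _ = _ := Finset.sum_congr rfl fun k _ => Finset.sum_congr rfl fun l _ =>
        lim_stat S hf hev k l

private theorem lim_card_le (S : Sys Y ν) (y : Y) (n : ℕ) :
    ((S.adm y (Finset.range n)).card : ℝ) ≤ n := by
  have h := Finset.card_le_card (lim_adm_subset S y (Finset.range n))
  rw [Finset.card_range] at h
  exact_mod_cast h

private theorem lim_int_card (S : Sys Y ν) [IsProbabilityMeasure ν] (n : ℕ) (c e : ℝ) :
    Integrable (fun y => |((S.adm y (Finset.range n)).card : ℝ) / c - e|) ν := by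
  refine integrable_of_bdd ?_ ((n : ℝ) / |c| + |e|) fun y => ?_
  · exact (((S.measurable_card (Finset.range n)).div_const c).sub_const e).abs
  · rw [abs_abs]
    refine (abs_sub _ _).trans (add_le_add ?_ le_rfl)
    rw [abs_div, Nat.abs_cast]
    exact div_le_div_of_nonneg_right (lim_card_le S y n) (abs_nonneg c)

theorem lim_cn (S : Sys Y ν) [IsProbabilityMeasure ν] {α : ℝ} (hα : 0 < α) (hD : S.Dens α)
    {δ : ℝ} (hδ : 0 < δ) : ∃ n₀ : ℕ, ∀ n ≥ n₀, ∀ j, S.cn α n j ≤ 1 + δ := by
  have hη : 0 < δ * α ^ 2 / (1 + α) := by positivity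
  have h1 := (hD.eventually (gt_mem_nhds hη)).and (eventually_ge_atTop 1)
  obtain ⟨n₀, hn₀⟩ := eventually_atTop.1 h1
  refine ⟨n₀, fun n hn j => ?_⟩
  obtain ⟨h2, h3⟩ := hn₀ n hn
  have hn0 : (0 : ℝ) < n := by exact_mod_cast h3
  have hint := lim_int_card S n n α
  calc S.cn α n j ≤ ∫ y, (1 + (1 + α) / α ^ 2 *
        |((S.adm y (Finset.range n)).card : ℝ) / n - α|) ∂ν := by
        unfold cn
        refine integral_mono_of_nonneg (Filter.Eventually.of_forall fun y => ?_)
          ((integrable_const _).add (hint.const_mul _)) (Filter.Eventually.of_forall fun y => ?_)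
        · exact div_nonneg (en_nonneg _ _ _ _) (sq_nonneg _)
        · simp only
          obtain ⟨X, hX⟩ : ∃ X : ℝ, X = ((S.adm y (Finset.range n)).card : ℝ) / n := ⟨_, rfl⟩
          have hX0 : 0 ≤ X := by rw [hX]; positivity
          have hX1 : X ≤ 1 := by rw [hX, div_le_one hn0]; exact lim_card_le S y n
          have e1 := en_le (S.V y) j (S.adm y (Finset.range n)) (S.adm y (Finset.range n))
          have e2 : ((S.adm y (Finset.range n)).card : ℝ) = X * n := by
            rw [hX]
            field_simp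
          rw [← hX]
          rw [e2] at e1
          rw [div_le_iff₀ (by positivity)]
          have e3 : (1 + (1 + α) / α ^ 2 * |X - α|) * (α * n) ^ 2 =
              (α ^ 2 + (1 + α) * |X - α|) * n ^ 2 := by
            field_simp
          rw [e3]
          have e4 : X ^ 2 ≤ α ^ 2 + (1 + α) * |X - α| := by
            have e5 : (X - α) * (X + α) ≤ |X - α| * (1 + α) := by
              calc (X - α) * (X + α) ≤ |X - α| * (X + α) :=
                    mul_le_mul_of_nonneg_right (le_abs_self _) (by linarith)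
                _ ≤ |X - α| * (1 + α) :=
                    mul_le_mul_of_nonneg_left (by linarith) (abs_nonneg _)
            nlinarith
          calc en (S.V y) j (S.adm y (Finset.range n)) (S.adm y (Finset.range n))
              ≤ X * n * (X * n) := e1
            _ = X ^ 2 * n ^ 2 := by ring
            _ ≤ (α ^ 2 + (1 + α) * |X - α|) * n ^ 2 :=
                mul_le_mul_of_nonneg_right e4 (by positivity)
    _ = 1 + (1 + α) / α ^ 2 * ∫ y, |((S.adm y (Finset.range n)).card : ℝ) / n - α| ∂ν := by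
        rw [integral_add (integrable_const _) (hint.const_mul _), integral_const_mul]
        simp
    _ ≤ 1 + (1 + α) / α ^ 2 * (δ * α ^ 2 / (1 + α)) := by
        have : 0 ≤ (1 + α) / α ^ 2 := by positivity
        have h4 := mul_le_mul_of_nonneg_left h2.le this
        linarith
    _ = 1 + δ := by
        field_simp

theorem lim_cnt (S : Sys Y ν) [IsProbabilityMeasure ν] {α : ℝ} (hD : S.Dens α)
    {δ : ℝ} (hδ : 0 < δ) : ∃ n₀ : ℕ, ∀ n ≥ n₀, ∀ a,
      ∫ y, |((S.adm y (blk n a)).card : ℝ) - α * n| ∂ν ≤ δ * n := by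
  have h1 := (hD.eventually (gt_mem_nhds hδ)).and (eventually_ge_atTop 1)
  obtain ⟨n₀, hn₀⟩ := eventually_atTop.1 h1
  refine ⟨n₀, fun n hn a => ?_⟩
  obtain ⟨h2, h3⟩ := hn₀ n hn
  have hn0 : (0 : ℝ) < n := by exact_mod_cast h3
  rw [S.integral_card_blk n a (fun m => |(m : ℝ) - α * n|)]
  have h4 : ∫ y, |((S.adm y (Finset.range n)).card : ℝ) - α * n| ∂ν =
      n * ∫ y, |((S.adm y (Finset.range n)).card : ℝ) / n - α| ∂ν := by
    rw [← integral_const_mul]
    refine integral_congr_ae (Filter.Eventually.of_forall fun y => ?_)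
    simp only
    rw [show ((S.adm y (Finset.range n)).card : ℝ) - α * n =
      n * (((S.adm y (Finset.range n)).card : ℝ) / n - α) by field_simp, abs_mul,
      abs_of_pos hn0]
  rw [h4, mul_comm]
  exact mul_le_mul_of_nonneg_right h2.le hn0.le

theorem lim_zero (S : Sys Y ν) [IsProbabilityMeasure ν] (hT : S.NoTight)
    {δ : ℝ} (hδ : 0 < δ) : ∃ n₀ : ℕ, ∀ n ≥ n₀, ∀ a,
      ∫ y, en (S.V y) 0 (S.adm y (blk n a)) (S.adm y (blk n a)) ∂ν ≤ δ * (n : ℝ) ^ 2 := by
  have hδ2 : 0 < δ / 2 := by positivity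
  have h1 := (Filter.Tendsto.eventually hT (gt_mem_nhds hδ2)).and (eventually_ge_atTop 1)
  obtain ⟨n₀, hn₀⟩ := eventually_atTop.1 h1
  refine ⟨n₀, fun n hn a => ?_⟩
  obtain ⟨h2, h3⟩ := hn₀ n hn
  have hn0 : (0 : ℝ) < n := by exact_mod_cast h3
  obtain ⟨p, hp⟩ : ∃ p : ℕ → ℝ, p = fun d => ν.real {y | |S.V y d| < 1} := ⟨_, rfl⟩
  have hp0 : ∀ d, 0 ≤ p d := fun d => by rw [hp]; exact measureReal_nonneg
  have h4 : (∑ d ∈ Finset.range n, p d) ≤ δ / 2 * n := by
    rw [div_lt_iff₀ hn0] at h2
    rw [hp]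
    exact h2.le
  have hle : ∀ d, ∫ y, tri 0 (S.V y d) ∂ν ≤ p d := by
    intro d
    have hms : MeasurableSet {y | |S.V y d| < 1} :=
      measurableSet_lt (S.measurable_V d).abs measurable_const
    rw [hp]
    simp only
    rw [← integral_indicator_one hms]
    refine integral_mono_of_nonneg (Filter.Eventually.of_forall fun y => tri_nonneg _ _)
      ((integrable_const (1 : ℝ)).indicator hms) (Filter.Eventually.of_forall fun y => ?_)
    simp only
    by_cases hy : |S.V y d| < 1
    · rw [Set.indicator_of_mem (show y ∈ {y | |S.V y d| < 1} from hy)]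
      exact tri_le_one _ _
    · rw [Set.indicator_of_notMem (show y ∉ {y | |S.V y d| < 1} from hy),
        tri_eq_zero (by rw [pow_zero]; exact not_lt.1 hy)]
  calc ∫ y, en (S.V y) 0 (S.adm y (blk n a)) (S.adm y (blk n a)) ∂ν
      ≤ ∑ k ∈ blk n a, ∑ l ∈ blk n a, ∫ y, tri 0 (S.V y ((k - l) + (l - k))) ∂ν :=
        lim_double S (continuous_tri 0).measurable (tri_neg 0) (tri_nonneg 0) (tri_le_one 0)
          (blk n a) _ fun y => rfl
    _ ≤ ∑ k ∈ blk n a, ∑ l ∈ blk n a, p ((k - l) + (l - k)) :=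
        Finset.sum_le_sum fun k _ => Finset.sum_le_sum fun l _ => hle _
    _ ≤ ∑ k ∈ blk n a, (2 * ∑ d ∈ Finset.range n, p d) := by
        refine Finset.sum_le_sum fun k hk => ?_
        rw [lim_blk] at hk ⊢
        exact lim_dist_le p hp0 (a * n) n k hk
    _ = n * (2 * ∑ d ∈ Finset.range n, p d) := by
        rw [Finset.sum_const, lim_blk_card, nsmul_eq_mul]
    _ ≤ n * (2 * (δ / 2 * n)) := by
        refine mul_le_mul_of_nonneg_left ?_ hn0.le
        linarith
    _ = δ * (n : ℝ) ^ 2 := by ring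

theorem lim_top (S : Sys Y ν) [IsProbabilityMeasure ν] (hS : S.Sub)
    {δ : ℝ} (hδ : 0 < δ) : ∃ n₀ K : ℕ, 1 ≤ K ∧ ∀ n' ≥ n₀, ∀ U0 : ℕ, K * n' ≤ 2 ^ (3 * U0) →
      ∀ n ≤ n', ∀ a,
        ∫ y, (((S.adm y (blk n a)).card : ℝ) ^ 2
          - en (S.V y) U0 (S.adm y (blk n a)) (S.adm y (blk n a))) ∂ν ≤ δ * (n : ℝ) ^ 2 := by
  have hδ2 : 0 < δ / 2 := by positivity
  obtain ⟨n₁, hn₁⟩ := hS (δ / 2) hδ2
  obtain ⟨K, hK⟩ := exists_nat_gt ((2 / δ) ^ 3)
  refine ⟨n₁, K + 1, by omega, fun n' hn' U0 hU n hn a => ?_⟩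
  have hK1 : (2 / δ) ^ 3 < ((K + 1 : ℕ) : ℝ) := by
    push_cast
    linarith
  have hU' : ((K + 1 : ℕ) : ℝ) * n' ≤ (2 ^ U0) ^ 3 := by
    rw [← pow_mul, mul_comm U0 3]
    exact_mod_cast hU
  have hle : ∀ d, d ≤ n' → ∫ y, (1 - tri U0 (S.V y d)) ∂ν ≤ δ := by
    intro d hd
    have hms : MeasurableSet {y | (n' : ℝ) < |S.V y d| ^ 3} :=
      measurableSet_lt measurable_const ((S.measurable_V d).abs.pow_const 3)
    have h1 := hn₁ n' hn' d hd
    calc ∫ y, (1 - tri U0 (S.V y d)) ∂ν
        ≤ ∫ y, ({y | (n' : ℝ) < |S.V y d| ^ 3}.indicator (1 : Y → ℝ) y + δ / 2) ∂ν := by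
          refine integral_mono_of_nonneg (Filter.Eventually.of_forall fun y =>
            sub_nonneg.2 (tri_le_one _ _))
            (((integrable_const (1 : ℝ)).indicator hms).add (integrable_const _))
            (Filter.Eventually.of_forall fun y => ?_)
          simp only
          by_cases hy : (n' : ℝ) < |S.V y d| ^ 3
          · rw [Set.indicator_of_mem (show y ∈ {y | (n' : ℝ) < |S.V y d| ^ 3} from hy)]
            have := tri_nonneg U0 (S.V y d)
            simp only [Pi.one_apply]
            linarith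
          · rw [Set.indicator_of_notMem (show y ∉ {y | (n' : ℝ) < |S.V y d| ^ 3} from hy),
              zero_add]
            refine (one_sub_tri_le U0 _).trans ?_
            rw [not_lt] at hy
            rw [div_le_iff₀ (by positivity)]
            have e1 : (2 / δ * |S.V y d|) ^ 3 ≤ (2 ^ U0) ^ 3 := by
              calc (2 / δ * |S.V y d|) ^ 3 = (2 / δ) ^ 3 * |S.V y d| ^ 3 := by ring
                _ ≤ ((K + 1 : ℕ) : ℝ) * n' :=
                    mul_le_mul hK1.le hy (by positivity) (by positivity)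
                _ ≤ (2 ^ U0) ^ 3 := hU'
            have e2 : 2 / δ * |S.V y d| ≤ 2 ^ U0 :=
              (pow_le_pow_iff_left₀ (by positivity) (by positivity) (by norm_num)).1 e1
            calc |S.V y d| = δ / 2 * (2 / δ * |S.V y d|) := by field_simp
              _ ≤ δ / 2 * 2 ^ U0 := mul_le_mul_of_nonneg_left e2 hδ2.le
      _ = ν.real {y | (n' : ℝ) < |S.V y d| ^ 3} + δ / 2 := by
          have hi : Integrable
              (fun y => {y | (n' : ℝ) < |S.V y d| ^ 3}.indicator (1 : Y → ℝ) y) ν :=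
            (integrable_const (1 : ℝ)).indicator hms
          rw [integral_add hi (integrable_const _), integral_indicator_one hms]
          simp
      _ ≤ δ := by linarith
  calc ∫ y, (((S.adm y (blk n a)).card : ℝ) ^ 2
          - en (S.V y) U0 (S.adm y (blk n a)) (S.adm y (blk n a))) ∂ν
      ≤ ∑ k ∈ blk n a, ∑ l ∈ blk n a, ∫ y, (1 - tri U0 (S.V y ((k - l) + (l - k)))) ∂ν := by
        refine lim_double S (f := fun x => 1 - tri U0 x)
          (measurable_const.sub (continuous_tri U0).measurable)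
          (fun x => by rw [tri_neg]) (fun x => sub_nonneg.2 (tri_le_one U0 x))
          (fun x => by have := tri_nonneg U0 x; linarith)
          (blk n a) _ fun y => ?_
        simp only [Finset.sum_sub_distrib, Finset.sum_const, nsmul_eq_mul, mul_one]
        unfold en
        ring
    _ ≤ ∑ k ∈ blk n a, ∑ l ∈ blk n a, δ := by
        refine Finset.sum_le_sum fun k hk => Finset.sum_le_sum fun l hl => hle _ ?_
        rw [lim_blk, Finset.mem_Ico] at hk hl
        omega
    _ = δ * (n : ℝ) ^ 2 := by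
        rw [Finset.sum_const, Finset.sum_const, lim_blk_card, nsmul_eq_mul, nsmul_eq_mul]
        ring

end Sys

end Pool.Agent.EAG
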