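import Pool.Agent.EAG.OrbP

/-! # EAG-ORBIT: the integrated orbit inequality -/

open MeasureTheory Filter Topology Finset

namespace Pool.Agent.EAG

variable {Y : Type*} [MeasurableSpace Y] {ν : Measure Y}

namespace Sys

private theorem orbit_meas_mem (S : Sys Y ν) (B : Finset ℕ) (k : ℕ) :
    MeasurableSet {y | k ∈ S.adm y B} := by
  by_cases hk : k ∈ B
  · have h : {y | k ∈ S.adm y B} = (S.Th (k : ℤ)) ⁻¹' S.A := by
      ext y; simp [adm, hk]
    rw [h]; exact (S.mpTh k).measurable S.hA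
  · have h : {y | k ∈ S.adm y B} = ∅ := by
      ext y; simp [adm, hk]
    rw [h]; exact MeasurableSet.empty

private theorem orbit_meas_cond (S : Sys Y ν) (n N : ℕ) (C : ℝ) (i : Fin N → ℕ) :
    MeasurableSet {z | ∀ a : Fin N, i a ∈ S.adm z (blk n a) ∧
      ((S.adm z (blk n a)).card : ℝ) ≤ C} := by
  have h : {z | ∀ a : Fin N, i a ∈ S.adm z (blk n a) ∧
      ((S.adm z (blk n a)).card : ℝ) ≤ C} = ⋂ a : Fin N, ({z | i a ∈ S.adm z (blk n a)} ∩
      {z | ((S.adm z (blk n a)).card : ℝ) ≤ C}) := by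
    ext z; simp
  rw [h]
  refine MeasurableSet.iInter (fun a => (orbit_meas_mem S _ _).inter ?_)
  exact measurableSet_le (S.measurable_card _) measurable_const

private theorem orbit_adm_sub (S : Sys Y ν) (y : Y) (B : Finset ℕ) : S.adm y B ⊆ B := by
  intro k hk
  simp only [adm, Finset.mem_filter] at hk
  exact hk.1

private theorem orbit_card_le (S : Sys Y ν) (n a : ℕ) (y : Y) :
    ((S.adm y (blk n a)).card : ℝ) ≤ n := by
  have h1 : (S.adm y (blk n a)).card ≤ (blk n a).card :=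
    Finset.card_le_card (orbit_adm_sub S y _)
  have h2 : (blk n a).card = n := by
    unfold blk
    rw [Nat.card_Ico]
    rw [add_mul, one_mul]
    omega
  rw [h2] at h1
  exact_mod_cast h1

/-- measure preservation of every single reflected path map and counting of the tuples -/
theorem orbit_le (S : Sys Y ν) [IsProbabilityMeasure ν] (n N : ℕ) {C : ℝ} (hC : 0 ≤ C)
    (s : Fin N → Bool) (f : Y → ℝ) (hf : Measurable f) (hf0 : ∀ y, 0 ≤ f y) {M : ℝ}
    (hfM : ∀ y, f y ≤ M) :
    ∑ i ∈ Fintype.piFinset (fun a : Fin N => blk n a),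
      ∫ y, (if (∀ a : Fin N, i a ∈ S.adm (S.TT (ex i) (exb s) N y) (blk n a) ∧
          ((S.adm (S.TT (ex i) (exb s) N y) (blk n a)).card : ℝ) ≤ C)
        then f (S.TT (ex i) (exb s) N y) else 0) ∂ν
      ≤ C ^ N * ∫ y, f y ∂ν := by
  have hgm : ∀ i : Fin N → ℕ, Measurable (fun z => if (∀ a : Fin N, i a ∈ S.adm z (blk n a) ∧
      ((S.adm z (blk n a)).card : ℝ) ≤ C) then f z else 0) := by
    intro i
    exact Measurable.ite (orbit_meas_cond S n N C i) hf measurable_const
  have hgb : ∀ (i : Fin N → ℕ) (z : Y), |(if (∀ a : Fin N, i a ∈ S.adm z (blk n a) ∧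
      ((S.adm z (blk n a)).card : ℝ) ≤ C) then f z else 0)| ≤ M := by
    intro i z
    have h1 := hf0 z
    have h2 := hfM z
    split_ifs
    · rw [abs_of_nonneg h1]; exact h2
    · rw [abs_zero]; linarith
  have hgi : ∀ i : Fin N → ℕ, Integrable (fun z => if (∀ a : Fin N, i a ∈ S.adm z (blk n a) ∧
      ((S.adm z (blk n a)).card : ℝ) ≤ C) then f z else 0) ν :=
    fun i => integrable_of_bdd (hgm i) M (hgb i)
  have hfi : Integrable f ν := integrable_of_bdd hf M
    (fun y => by rw [abs_of_nonneg (hf0 y)]; exact hfM y)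
  have h1 : ∀ i : Fin N → ℕ, ∫ y, (if (∀ a : Fin N,
        i a ∈ S.adm (S.TT (ex i) (exb s) N y) (blk n a) ∧
          ((S.adm (S.TT (ex i) (exb s) N y) (blk n a)).card : ℝ) ≤ C)
        then f (S.TT (ex i) (exb s) N y) else 0) ∂ν
      = ∫ z, (if (∀ a : Fin N, i a ∈ S.adm z (blk n a) ∧
      ((S.adm z (blk n a)).card : ℝ) ≤ C) then f z else 0) ∂ν := by
    intro i
    have h := S.mp_TT (ex i) (exb s) N
    have h2 := integral_map (μ := ν) h.measurable.aemeasurable (hgm i).aestronglyMeasurable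
    rw [h.map_eq] at h2
    exact h2.symm
  have h2 : ∀ z, ∑ i ∈ Fintype.piFinset (fun a : Fin N => blk n a),
      (if (∀ a : Fin N, i a ∈ S.adm z (blk n a) ∧
      ((S.adm z (blk n a)).card : ℝ) ≤ C) then f z else 0) ≤ C ^ N * f z := by
    intro z
    by_cases hc : ∀ a : Fin N, ((S.adm z (blk n a)).card : ℝ) ≤ C
    · have hsub : Fintype.piFinset (fun a : Fin N => S.adm z (blk n a)) ⊆
          Fintype.piFinset (fun a : Fin N => blk n a) := by
        intro i hi
        rw [Fintype.mem_piFinset] at hi ⊢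
        intro a
        exact orbit_adm_sub S z _ (hi a)
      rw [← Finset.sum_subset hsub]
      · have h3 : ∑ i ∈ Fintype.piFinset (fun a : Fin N => S.adm z (blk n a)),
            (if (∀ a : Fin N, i a ∈ S.adm z (blk n a) ∧
              ((S.adm z (blk n a)).card : ℝ) ≤ C) then f z else 0)
            ≤ ∑ i ∈ Fintype.piFinset (fun a : Fin N => S.adm z (blk n a)), f z := by
          refine Finset.sum_le_sum (fun i _ => ?_)
          split_ifs
          · exact le_refl _
          · exact hf0 z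
        refine h3.trans ?_
        rw [Finset.sum_const, nsmul_eq_mul, Fintype.card_piFinset]
        refine mul_le_mul_of_nonneg_right ?_ (hf0 z)
        push_cast
        calc ∏ a : Fin N, ((S.adm z (blk n a)).card : ℝ) ≤ ∏ _a : Fin N, C :=
              Finset.prod_le_prod (fun a _ => Nat.cast_nonneg _) (fun a _ => hc a)
          _ = C ^ N := by simp
      · intro i _ hi
        rw [if_neg]
        intro hh
        exact hi (Fintype.mem_piFinset.2 (fun a => (hh a).1))
    · have h3 : ∑ i ∈ Fintype.piFinset (fun a : Fin N => blk n a),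
          (if (∀ a : Fin N, i a ∈ S.adm z (blk n a) ∧
          ((S.adm z (blk n a)).card : ℝ) ≤ C) then f z else 0) = 0 := by
        refine Finset.sum_eq_zero (fun i _ => ?_)
        rw [if_neg]
        intro hh
        exact hc (fun a => (hh a).2)
      rw [h3]
      exact mul_nonneg (pow_nonneg hC N) (hf0 z)
  rw [Finset.sum_congr rfl (fun i _ => h1 i), ← integral_finsetSum _ (fun i _ => hgi i),
    ← integral_const_mul]
  exact integral_mono (integrable_finsetSum _ (fun i _ => hgi i)) (hfi.const_mul _) h2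

private theorem orbit_count {T : Type*} [Fintype T] (P : T → Prop) [DecidablePred P]
    (D : T → ℝ) (hD0 : ∀ s, 0 ≤ D s) (hD : ∀ s, P s → 9 / 5 ≤ D s) :
    (9 / 5 : ℝ) * ((Finset.univ.filter P).card : ℝ) ≤ ∑ s, D s := by
  calc (9 / 5 : ℝ) * ((Finset.univ.filter P).card : ℝ)
      = ∑ s ∈ Finset.univ.filter P, (9 / 5 : ℝ) := by
        rw [Finset.sum_const, nsmul_eq_mul, mul_comm]
    _ ≤ ∑ s ∈ Finset.univ.filter P, D s := by
        refine Finset.sum_le_sum (fun s hs => ?_)
        rw [Finset.mem_filter] at hs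
        exact hD s hs.2
    _ ≤ _ := Finset.sum_le_sum_of_subset_of_nonneg (Finset.filter_subset _ _)
        (fun s _ _ => hD0 s)

private theorem orbit_psi (N : ℕ) (v : ℕ → ℝ) (B : ℕ → Finset ℕ) (i : ℕ → ℕ) (j a b : ℕ)
    (D : (Fin N → Bool) → ℝ) (hD0 : ∀ s, 0 ≤ D s)
    (hD : ∀ s, qq v j (B a) (i a) ≤ 1 / 2000 → qq v j (B b) (i b) ≤ 1 / 2000 →
      (2 : ℝ) ^ j ≤ |Sab v i (exb s) a b| → 9 / 5 ≤ D s) :
    9 / 5 * (1 / (N : ℝ) ^ 2) * psi N v B i j a b
      ≤ ∑ s : Fin N → Bool, (1 / (2 ^ N * (N : ℝ) ^ 2)) * D s := by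
  have hw : (0 : ℝ) ≤ 1 / (2 ^ N * (N : ℝ) ^ 2) := by positivity
  rw [← Finset.mul_sum]
  unfold psi
  split_ifs with hq
  · unfold pS
    have hcount := orbit_count (fun s : Fin N → Bool =>
        (2 : ℝ) ^ j ≤ |Sab v i (exb s) a b|) D hD0 (fun s hs => hD s hq.1 hq.2 hs)
    refine le_trans (le_of_eq ?_) (mul_le_mul_of_nonneg_left hcount hw)
    field_simp
  · rw [mul_zero]
    exact mul_nonneg hw (Finset.sum_nonneg (fun s _ => hD0 s))

private theorem orbit_point (S : Sys Y ν) (n N U l : ℕ)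
    {c d : ℝ} (hc : 0 < c) (hd : 0 < d) (hd' : d ≤ 1 / 10 ^ 8) (i : Fin N → ℕ)
    (hi : ∀ a : Fin N, i a ∈ blk n a) :
    ∀ᵐ y ∂ν, (∀ a : Fin N, i a ∈ S.adm y (blk n a)) →
      9 / 5 * (zt N U l (S.V y) (fun a => S.adm y (blk n a)) (ex i)
          - (l : ℝ) / 2 * S.bd n N d c i y)
        ≤ ∑ j ∈ Finset.range (U + 1), ∑ p ∈ prs N, ∑ s : Fin N → Bool,
          (1 / (2 ^ N * (N : ℝ) ^ 2)) *
          (if (∀ a : Fin N, i a ∈ S.adm (S.TT (ex i) (exb s) N y) (blk n a) ∧
            ((S.adm (S.TT (ex i) (exb s) N y) (blk n a)).card : ℝ) ≤ (1 + d) * c)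
          then ds (S.V (S.TT (ex i) (exb s) N y)) j c
            (S.adm (S.TT (ex i) (exb s) N y) (blk n p.1))
            (S.adm (S.TT (ex i) (exb s) N y) (blk n p.2)) else 0) := by
  filter_upwards [S.orb_path n N hc hd hd' i hi] with y hy hadm
  have hw : (0 : ℝ) ≤ 1 / (2 ^ N * (N : ℝ) ^ 2) := by positivity
  have hbd0 := bd_nonneg S n N hd hc i y
  have hztl := zt_le N U l (S.V y) (fun a => S.adm y (blk n a)) (ex i)
  have hl0 : (0 : ℝ) ≤ (l : ℝ) / 2 := by positivity
  have hD0 : ∀ (j : ℕ) (p : ℕ × ℕ) (s : Fin N → Bool), (0 : ℝ) ≤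
      (if (∀ a : Fin N, i a ∈ S.adm (S.TT (ex i) (exb s) N y) (blk n a) ∧
            ((S.adm (S.TT (ex i) (exb s) N y) (blk n a)).card : ℝ) ≤ (1 + d) * c)
          then ds (S.V (S.TT (ex i) (exb s) N y)) j c
            (S.adm (S.TT (ex i) (exb s) N y) (blk n p.1))
            (S.adm (S.TT (ex i) (exb s) N y) (blk n p.2)) else 0) := by
    intro j p s
    split_ifs
    · exact ds_nonneg _ _ _ _ _
    · exact le_refl _
  rcases le_or_gt 1 (S.bd n N d c i y) with hb | hb
  · refine le_trans ?_ (Finset.sum_nonneg (fun j _ => Finset.sum_nonneg (fun p _ =>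
      Finset.sum_nonneg (fun s _ => mul_nonneg hw (hD0 j p s)))))
    nlinarith [mul_le_mul_of_nonneg_left hb hl0]
  · have hpath := hy hadm hb
    have hcond : ∀ s : Fin N → Bool, (∀ a : Fin N,
        i a ∈ S.adm (S.TT (ex i) (exb s) N y) (blk n a) ∧
          ((S.adm (S.TT (ex i) (exb s) N y) (blk n a)).card : ℝ) ≤ (1 + d) * c) := by
      intro s a
      exact ⟨(hpath s).1 a, (hpath s).2.1 a a.2⟩
    have hzt : 9 / 5 * zt N U l (S.V y) (fun a => S.adm y (blk n a)) (ex i)
        ≤ ∑ j ∈ Finset.range (U + 1), ∑ p ∈ prs N, 9 / 5 * (1 / (N : ℝ) ^ 2) *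
        psi N (S.V y) (fun a => S.adm y (blk n a)) (ex i) j p.1 p.2 := by
      rw [Finset.sum_comm]
      unfold zt
      rw [Finset.sum_div, Finset.mul_sum]
      refine Finset.sum_le_sum (fun p _ => ?_)
      rw [← Finset.mul_sum]
      have h3 : min (l : ℝ) (∑ j ∈ Finset.range (U + 1),
          psi N (S.V y) (fun a => S.adm y (blk n a)) (ex i) j p.1 p.2)
          ≤ ∑ j ∈ Finset.range (U + 1),
          psi N (S.V y) (fun a => S.adm y (blk n a)) (ex i) j p.1 p.2 := min_le_right _ _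
      have h4 : (0 : ℝ) ≤ 9 / 5 * (1 / (N : ℝ) ^ 2) := by positivity
      refine le_trans (le_of_eq ?_) (mul_le_mul_of_nonneg_left h3 h4)
      ring
    have h1 : 9 / 5 * (zt N U l (S.V y) (fun a => S.adm y (blk n a)) (ex i)
          - (l : ℝ) / 2 * S.bd n N d c i y)
        ≤ 9 / 5 * zt N U l (S.V y) (fun a => S.adm y (blk n a)) (ex i) := by
      nlinarith [mul_nonneg hl0 hbd0]
    refine h1.trans (hzt.trans (Finset.sum_le_sum (fun j _ => Finset.sum_le_sum
      (fun p hp => ?_))))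
    simp only [prs, Finset.mem_filter, Finset.mem_product, Finset.mem_range] at hp
    refine orbit_psi N (S.V y) (fun a => S.adm y (blk n a)) (ex i) j p.1 p.2 _ (hD0 j p) ?_
    intro s hq1 hq2 hS
    rw [if_pos (hcond s)]
    exact (hpath s).2.2 j p.1 p.2 hp.2 hp.1.2 hq1 hq2 hS

theorem orbit_lower (S : Sys Y ν) [IsProbabilityMeasure ν] (n N U l : ℕ) (hn : 0 < n)
    (hN : 0 < N) {α d : ℝ} (hα : 0 < α) (hd : 0 < d) (hd' : d ≤ 1 / 10 ^ 8) :
    9 / 5 * ∫ y, (∑ i ∈ Fintype.piFinset (fun a : Fin N => S.adm y (blk n a)),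
        (zt N U l (S.V y) (fun a => S.adm y (blk n a)) (ex i)
          - (l : ℝ) / 2 * S.bd n N d (α * n) i y)) ∂ν
      ≤ ((1 + d) * (α * n)) ^ N * ∑ j ∈ Finset.range (U + 1), S.gm α n N j := by
  have hn' : (0 : ℝ) < n := by exact_mod_cast hn
  have hN' : (0 : ℝ) < N := by exact_mod_cast hN
  have hc : (0 : ℝ) < α * n := by positivity
  have hC : (0 : ℝ) ≤ (1 + d) * (α * n) := by positivity
  obtain ⟨Mb, hMb⟩ := bd_le S n N hd hc
  -- the distances
  obtain ⟨f, hf⟩ : ∃ f : ℕ → ℕ × ℕ → Y → ℝ, f = fun j p z => ds (S.V z) j (α * n)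
    (S.adm z (blk n p.1)) (S.adm z (blk n p.2)) := ⟨_, rfl⟩
  have hfm : ∀ j p, Measurable (f j p) := by
    intro j p; rw [hf]; exact S.measurable_ds j _ _ _
  have hf0 : ∀ j p z, 0 ≤ f j p z := by
    intro j p z; rw [hf]; exact ds_nonneg _ _ _ _ _
  have hfM : ∀ j p z, f j p z ≤ 4 * (n : ℝ) ^ 2 / (α * n) ^ 2 := by
    intro j p z; rw [hf]
    exact (le_abs_self _).trans
      (abs_ds_le _ _ hc _ _ (orbit_card_le S n _ z) (orbit_card_le S n _ z))
  have hfi : ∀ j p, Integrable (f j p) ν := fun j p => integrable_of_bdd (hfm j p) _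
    (fun y => by rw [abs_of_nonneg (hf0 j p y)]; exact hfM j p y)
  -- the reflected distances
  obtain ⟨G, hG⟩ : ∃ G : (Fin N → ℕ) → ℕ → ℕ × ℕ → (Fin N → Bool) → Y → ℝ,
    G = fun i j p s y => (if (∀ a : Fin N, i a ∈ S.adm (S.TT (ex i) (exb s) N y) (blk n a) ∧
            ((S.adm (S.TT (ex i) (exb s) N y) (blk n a)).card : ℝ) ≤ (1 + d) * (α * n))
          then f j p (S.TT (ex i) (exb s) N y) else 0) := ⟨_, rfl⟩
  have hGm : ∀ i j p s, Measurable (G i j p s) := by
    intro i j p s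
    have h1 : Measurable (fun z => if (∀ a : Fin N, i a ∈ S.adm z (blk n a) ∧
      ((S.adm z (blk n a)).card : ℝ) ≤ (1 + d) * (α * n)) then f j p z else 0) :=
      Measurable.ite (orbit_meas_cond S n N _ i) (hfm j p) measurable_const
    rw [hG]
    exact h1.comp (S.measurable_TT (ex i) (exb s) N)
  have hGi : ∀ i j p s, Integrable (G i j p s) ν := by
    intro i j p s
    refine integrable_of_bdd (hGm i j p s) (4 * (n : ℝ) ^ 2 / (α * n) ^ 2) (fun y => ?_)
    rw [hG]
    simp only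
    have h1 := hf0 j p (S.TT (ex i) (exb s) N y)
    have h2 := hfM j p (S.TT (ex i) (exb s) N y)
    split_ifs
    · rw [abs_of_nonneg h1]; exact h2
    · rw [abs_zero]; linarith
  -- the left-hand integrands
  obtain ⟨h, hh⟩ : ∃ h : (Fin N → ℕ) → Y → ℝ, h = fun i y =>
    (if (∀ a : Fin N, i a ∈ S.adm y (blk n a)) then
      (zt N U l (S.V y) (fun a => S.adm y (blk n a)) (ex i)
          - (l : ℝ) / 2 * S.bd n N d (α * n) i y) else 0) := ⟨_, rfl⟩
  have hhm : ∀ i, Measurable (h i) := by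
    intro i
    rw [hh]
    refine Measurable.ite ?_ ?_ measurable_const
    · have h1 : {y | ∀ a : Fin N, i a ∈ S.adm y (blk n a)}
          = ⋂ a : Fin N, {y | i a ∈ S.adm y (blk n a)} := by
        ext z; simp
      rw [h1]
      exact MeasurableSet.iInter (fun a => orbit_meas_mem S _ _)
    · exact (S.measurable_zt n N U l (ex i)).sub
        ((S.measurable_bd n N d (α * n) i).const_mul _)
  have hhi : ∀ i, Integrable (h i) ν := by
    intro i
    refine integrable_of_bdd (hhm i) ((l : ℝ) / 2 + (l : ℝ) / 2 * Mb) (fun y => ?_)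
    rw [hh]
    simp only
    have h1 := zt_nonneg N U l (S.V y) (fun a => S.adm y (blk n a)) (ex i)
    have h2 := zt_le N U l (S.V y) (fun a => S.adm y (blk n a)) (ex i)
    have h3 := bd_nonneg S n N hd hc i y
    have h4 := hMb i y
    have h5 : (0 : ℝ) ≤ (l : ℝ) / 2 := by positivity
    have h6 := mul_le_mul_of_nonneg_left h4 h5
    have h7 := mul_nonneg h5 h3
    split_ifs
    · rw [abs_le]; constructor <;> linarith
    · rw [abs_zero]; linarith
  have e1 : ∀ y, ∑ i ∈ Fintype.piFinset (fun a : Fin N => S.adm y (blk n a)),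
        (zt N U l (S.V y) (fun a => S.adm y (blk n a)) (ex i)
          - (l : ℝ) / 2 * S.bd n N d (α * n) i y)
      = ∑ i ∈ Fintype.piFinset (fun a : Fin N => blk n a), h i y := by
    intro y
    have hsub : Fintype.piFinset (fun a : Fin N => S.adm y (blk n a)) ⊆
        Fintype.piFinset (fun a : Fin N => blk n a) := by
      intro i hi
      rw [Fintype.mem_piFinset] at hi ⊢
      intro a
      exact orbit_adm_sub S y _ (hi a)
    rw [← Finset.sum_subset hsub]
    · refine Finset.sum_congr rfl (fun i hi => ?_)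
      rw [hh]
      simp only
      rw [if_pos (fun a => Fintype.mem_piFinset.1 hi a)]
    · intro i _ hi
      rw [hh]
      simp only
      rw [if_neg]
      intro h1
      exact hi (Fintype.mem_piFinset.2 h1)
  have e2 : ∀ i ∈ Fintype.piFinset (fun a : Fin N => blk n a),
      9 / 5 * ∫ y, h i y ∂ν ≤ ∑ j ∈ Finset.range (U + 1), ∑ p ∈ prs N, ∑ s : Fin N → Bool,
        (1 / (2 ^ N * (N : ℝ) ^ 2)) * ∫ y, G i j p s y ∂ν := by
    intro i hi
    rw [Fintype.mem_piFinset] at hi
    have e3 : ∑ j ∈ Finset.range (U + 1), ∑ p ∈ prs N, ∑ s : Fin N → Bool,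
        (1 / (2 ^ N * (N : ℝ) ^ 2)) * ∫ y, G i j p s y ∂ν
        = ∫ y, (∑ j ∈ Finset.range (U + 1), ∑ p ∈ prs N, ∑ s : Fin N → Bool,
        (1 / (2 ^ N * (N : ℝ) ^ 2)) * G i j p s y) ∂ν := by
      rw [integral_finsetSum _ (fun j _ => integrable_finsetSum _ (fun p _ =>
        integrable_finsetSum _ (fun s _ => (hGi i j p s).const_mul _)))]
      refine Finset.sum_congr rfl (fun j _ => ?_)
      rw [integral_finsetSum _ (fun p _ =>
        integrable_finsetSum _ (fun s _ => (hGi i j p s).const_mul _))]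
      refine Finset.sum_congr rfl (fun p _ => ?_)
      rw [integral_finsetSum _ (fun s _ => (hGi i j p s).const_mul _)]
      refine Finset.sum_congr rfl (fun s _ => ?_)
      rw [integral_const_mul]
    rw [e3, ← integral_const_mul]
    refine integral_mono_ae ((hhi i).const_mul _) (integrable_finsetSum _ (fun j _ =>
      integrable_finsetSum _ (fun p _ =>
        integrable_finsetSum _ (fun s _ => (hGi i j p s).const_mul _)))) ?_
    filter_upwards [orbit_point S n N U l hc hd hd' i hi] with y hy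
    by_cases hadm : ∀ a : Fin N, i a ∈ S.adm y (blk n a)
    · have h1 := hy hadm
      rw [hh, hG]
      simp only
      rw [if_pos hadm]
      rw [hf]
      exact h1
    · have h1 : h i y = 0 := by
        rw [hh]
        simp only
        rw [if_neg hadm]
      rw [h1, mul_zero]
      refine Finset.sum_nonneg (fun j _ => Finset.sum_nonneg (fun p _ =>
        Finset.sum_nonneg (fun s _ => mul_nonneg (by positivity) ?_)))
      rw [hG]
      simp only
      split_ifs
      · exact hf0 _ _ _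
      · exact le_refl _
  have e4 : ∀ j, S.gm α n N j = ∑ p ∈ prs N, (1 / (N : ℝ) ^ 2) * ∫ y, f j p y ∂ν := by
    intro j
    unfold gm
    have h1 : ∀ y, (∑ p ∈ prs N, ds (S.V y) j (α * n) (S.adm y (blk n p.1))
        (S.adm y (blk n p.2))) / (N : ℝ) ^ 2 = ∑ p ∈ prs N, (1 / (N : ℝ) ^ 2) * f j p y := by
      intro y
      rw [← Finset.mul_sum, hf]
      ring
    simp_rw [h1]
    rw [integral_finsetSum _ (fun p _ => (hfi j p).const_mul _)]
    refine Finset.sum_congr rfl (fun p _ => ?_)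
    rw [integral_const_mul]
  simp_rw [e1]
  rw [integral_finsetSum _ (fun i _ => hhi i), Finset.mul_sum]
  refine (Finset.sum_le_sum e2).trans ?_
  rw [Finset.sum_comm, Finset.mul_sum]
  refine Finset.sum_le_sum (fun j _ => ?_)
  rw [Finset.sum_comm, e4 j, Finset.mul_sum]
  refine Finset.sum_le_sum (fun p _ => ?_)
  rw [Finset.sum_comm]
  have e5 : ∀ s : Fin N → Bool, ∑ i ∈ Fintype.piFinset (fun a : Fin N => blk n a),
      (1 / (2 ^ N * (N : ℝ) ^ 2)) * ∫ y, G i j p s y ∂ν
      ≤ (1 / (2 ^ N * (N : ℝ) ^ 2)) * (((1 + d) * (α * n)) ^ N * ∫ y, f j p y ∂ν) := by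
    intro s
    rw [← Finset.mul_sum]
    refine mul_le_mul_of_nonneg_left ?_ (by positivity)
    have h1 := orbit_le S n N hC s (f j p) (hfm j p) (hf0 j p) (hfM j p)
    rw [hG]
    exact h1
  refine (Finset.sum_le_sum (fun s _ => e5 s)).trans (le_of_eq ?_)
  rw [Finset.sum_const, nsmul_eq_mul, Finset.card_univ, Fintype.card_fun, Fintype.card_bool,
    Fintype.card_fin]
  push_cast
  field_simp

end Sys

end Pool.Agent.EAG
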