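import Pool.Agent.EAG.Path
import Pool.Agent.EAG.Bad
import Pool.Agent.EAG.Orbit
import Pool.Agent.EAG.Limits

/-! # EAG-LOWER: the growth is large at every large scale -/

open MeasureTheory Filter Topology Finset

namespace Pool.Agent.EAG

variable {Y : Type*} [MeasurableSpace Y] {ν : Measure Y}

private theorem gam_nonneg (v : ℕ → ℝ) (U N : ℕ) (c : ℝ) (B : ℕ → Finset ℕ) :
    0 ≤ gam v U N c B := by
  unfold gam
  refine Finset.sum_nonneg fun j _ => div_nonneg (Finset.sum_nonneg fun p _ => ds_nonneg _ _ _ _ _)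
    (by positivity)

/-- the pointwise lower bound -/
private theorem pw (g U U0 N : ℕ) (hN : N = 2 ^ (20 * g)) (hg : 1 ≤ g)
    (hG : 10 ^ 50 * g ≤ 4 ^ g) (hU : U0 + 9 * g ≤ U)
    (v : ℕ → ℝ) {c d : ℝ} (hc : 0 < c) (hd : 0 < d) (hd' : d ≤ 1 / 10 ^ 8) (B : ℕ → Finset ℕ) :
    475 / 1000 * (9 * (g : ℝ)) * ((1 - d) * c) ^ N *
      (1 - gam v U N c B / (700 * g)
        - 512 / (N : ℝ) * ∑ a ∈ Finset.range N, 2 * en v 0 (B a) (B a) / c ^ 2
        - 512 / (N : ℝ) * ∑ a ∈ Finset.range N,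
            400000 * (((B a).card : ℝ) ^ 2 - en v U0 (B a) (B a)) / c ^ 2
        - ∑ a ∈ Finset.range N, |((B a).card : ℝ) - c| / (d * c))
      ≤ ∑ i ∈ Fintype.piFinset (fun a : Fin N => B a), zt N U (9 * g) v B (ex i) := by
  have hN0 : 0 < N := by rw [hN]; positivity
  have hNr : (0 : ℝ) < N := by exact_mod_cast hN0
  have hgr : (0 : ℝ) < g := by exact_mod_cast hg
  have hd1 : d < 1 := lt_of_le_of_lt hd' (by norm_num)
  have hfac : 0 ≤ 475 / 1000 * (9 * (g : ℝ)) * ((1 - d) * c) ^ N := by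
    have : 0 < 1 - d := by linarith
    positivity
  set E1 : ℝ := gam v U N c B / (700 * g) with hE1
  set E2 : ℝ := 512 / (N : ℝ) * ∑ a ∈ Finset.range N, 2 * en v 0 (B a) (B a) / c ^ 2 with hE2
  set E3 : ℝ := 512 / (N : ℝ) * ∑ a ∈ Finset.range N,
            400000 * (((B a).card : ℝ) ^ 2 - en v U0 (B a) (B a)) / c ^ 2 with hE3
  set E4 : ℝ := ∑ a ∈ Finset.range N, |((B a).card : ℝ) - c| / (d * c) with hE4
  have h1 : 0 ≤ E1 := div_nonneg (gam_nonneg _ _ _ _ _) (by positivity)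
  have t2 : ∀ a ∈ Finset.range N, 0 ≤ 2 * en v 0 (B a) (B a) / c ^ 2 := fun a _ =>
    div_nonneg (mul_nonneg (by norm_num) (en_nonneg _ _ _ _)) (by positivity)
  have h2 : 0 ≤ E2 := mul_nonneg (by positivity) (Finset.sum_nonneg t2)
  have t3 : ∀ a ∈ Finset.range N,
      0 ≤ 400000 * (((B a).card : ℝ) ^ 2 - en v U0 (B a) (B a)) / c ^ 2 := fun a _ => by
    have := en_le v U0 (B a) (B a)
    refine div_nonneg (mul_nonneg (by norm_num) ?_) (by positivity)
    nlinarith
  have h3 : 0 ≤ E3 := mul_nonneg (by positivity) (Finset.sum_nonneg t3)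
  have t4 : ∀ a ∈ Finset.range N, 0 ≤ |((B a).card : ℝ) - c| / (d * c) := fun a _ => by
    positivity
  have h4 : 0 ≤ E4 := Finset.sum_nonneg t4
  have hR : 0 ≤ ∑ i ∈ Fintype.piFinset (fun a : Fin N => B a), zt N U (9 * g) v B (ex i) :=
    Finset.sum_nonneg fun i _ => zt_nonneg _ _ _ _ _ _
  by_cases hbig : 1 ≤ E1 + E2 + E3 + E4
  · refine le_trans (mul_nonpos_of_nonneg_of_nonpos hfac ?_) hR
    linarith
  push Not at hbig
  have k1 : E1 < 1 := by linarith
  have k2 : E2 < 1 := by linarith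
  have k3 : E3 < 1 := by linarith
  have k4 : E4 < 1 := by linarith
  have hcard : ∀ a < N, |((B a).card : ℝ) - c| ≤ d * c := by
    intro a ha
    have := Finset.single_le_sum t4 (Finset.mem_range.2 ha)
    have h5 : |((B a).card : ℝ) - c| / (d * c) < 1 := lt_of_le_of_lt this k4
    rw [div_lt_one (by positivity)] at h5
    exact h5.le
  have hcard' : ∀ a < N, |((B a).card : ℝ) - c| ≤ c / 10 ^ 8 := by
    intro a ha
    refine (hcard a ha).trans ?_
    have := mul_le_mul_of_nonneg_right hd' hc.le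
    linarith
  have hlow : ∀ a < N, (1 - d) * c ≤ ((B a).card : ℝ) := by
    intro a ha
    have := (abs_le.1 (hcard a ha)).1
    linarith
  have hlow' : ∀ a < N, (1 - 1 / 10 ^ 8) * c ≤ ((B a).card : ℝ) := by
    intro a ha
    have := (abs_le.1 (hcard' a ha)).1
    linarith
  have hg1 : gam v U N c B ≤ 700 * g := by
    rw [hE1, div_lt_one (by positivity)] at k1
    exact k1.le
  -- counting
  have hcount : ∀ (P : ℕ → Prop) [DecidablePred P] (f : ℕ → ℝ), (∀ a ∈ Finset.range N, 0 ≤ f a) →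
      (∀ a ∈ Finset.range N, P a → 1 ≤ f a) → 512 / (N : ℝ) * ∑ a ∈ Finset.range N, f a < 1 →
      512 * ((Finset.range N).filter P).card ≤ N := by
    intro P _ f hf hP hlt
    have e1 : (((Finset.range N).filter P).card : ℝ) ≤ ∑ a ∈ Finset.range N, f a := by
      calc (((Finset.range N).filter P).card : ℝ) = ∑ a ∈ (Finset.range N).filter P, (1 : ℝ) := by
            simp
        _ ≤ ∑ a ∈ (Finset.range N).filter P, f a := Finset.sum_le_sum fun a ha =>
            hP a (Finset.mem_filter.1 ha).1 (Finset.mem_filter.1 ha).2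
        _ ≤ ∑ a ∈ Finset.range N, f a :=
            Finset.sum_le_sum_of_subset_of_nonneg (Finset.filter_subset _ _)
              fun a ha _ => hf a ha
    have e2 : 512 * (∑ a ∈ Finset.range N, f a) < N := by
      rw [div_mul_eq_mul_div, div_lt_one hNr] at hlt
      exact hlt
    have e3 : (512 : ℝ) * (((Finset.range N).filter P).card : ℝ) ≤ N := by linarith
    exact_mod_cast e3
  have hc2 : 0 < c ^ 2 := by positivity
  have hsq : ∀ a < N, 99 / 100 * c ^ 2 ≤ ((B a).card : ℝ) ^ 2 := by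
    intro a ha
    have e1 := hlow' a ha
    have e2 : 0 ≤ (1 - 1 / 10 ^ 8) * c := by
      have : (0 : ℝ) ≤ 1 - 1 / 10 ^ 8 := by norm_num
      positivity
    have e3 : ((1 - 1 / 10 ^ 8) * c) ^ 2 ≤ ((B a).card : ℝ) ^ 2 := pow_le_pow_left₀ e2 e1 2
    rw [mul_pow] at e3
    nlinarith
  have hf1 : 512 * ((Finset.range N).filter (fun a => spr v 0 (B a) < 1 / 400000)).card ≤ N := by
    refine hcount _ _ t2 ?_ k2
    intro a ha hP
    have e1 := hsq a (Finset.mem_range.1 ha)
    have e0 : 0 < ((B a).card : ℝ) ^ 2 := by nlinarith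
    unfold spr at hP
    have e2 : (1 - 1 / 400000) * ((B a).card : ℝ) ^ 2 < en v 0 (B a) (B a) := by
      have : 1 - 1 / 400000 < en v 0 (B a) (B a) / ((B a).card : ℝ) ^ 2 := by linarith
      rwa [lt_div_iff₀ e0] at this
    rw [one_le_div hc2]
    nlinarith
  have hf2 : 512 * ((Finset.range N).filter (fun a => 1 / 200000 ≤ spr v U0 (B a))).card ≤ N := by
    refine hcount _ _ t3 ?_ k3
    intro a ha hP
    have e1 := hsq a (Finset.mem_range.1 ha)
    have e0 : 0 < ((B a).card : ℝ) ^ 2 := by nlinarith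
    unfold spr at hP
    have e2 : en v U0 (B a) (B a) ≤ (1 - 1 / 200000) * ((B a).card : ℝ) ^ 2 := by
      have : en v U0 (B a) (B a) / ((B a).card : ℝ) ^ 2 ≤ 1 - 1 / 200000 := by linarith
      rwa [div_le_iff₀ e0] at this
    rw [one_le_div hc2]
    nlinarith
  subst hN
  have hmain := path_main g U U0 hg hG hU v hc B hcard' hg1 hf1 hf2
  refine le_trans ?_ hmain
  have hprod : ((1 - d) * c) ^ (2 ^ (20 * g)) ≤ ∏ a : Fin (2 ^ (20 * g)), ((B a).card : ℝ) := by
    calc ((1 - d) * c) ^ (2 ^ (20 * g)) = ∏ _a : Fin (2 ^ (20 * g)), ((1 - d) * c) := by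
          rw [Finset.prod_const, Finset.card_univ, Fintype.card_fin]
      _ ≤ _ := Finset.prod_le_prod (fun a _ => by
          have : 0 < 1 - d := by linarith
          positivity) fun a _ => hlow a a.2
  calc 475 / 1000 * (9 * (g : ℝ)) * ((1 - d) * c) ^ (2 ^ (20 * g)) * (1 - E1 - E2 - E3 - E4)
      ≤ 475 / 1000 * (9 * (g : ℝ)) * ((1 - d) * c) ^ (2 ^ (20 * g)) * 1 :=
        mul_le_mul_of_nonneg_left (by linarith) hfac
    _ = 475 / 1000 * (9 * (g : ℝ)) * ((1 - d) * c) ^ (2 ^ (20 * g)) := mul_one _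
    _ ≤ _ := mul_le_mul_of_nonneg_left hprod (by positivity)

private theorem card_blk_low (n a : ℕ) : (blk n a).card = n := by
  unfold blk
  rw [Nat.card_Ico]
  have : (a + 1) * n = a * n + n := by ring
  omega

namespace Sys

private theorem card_adm_le_low (S : Sys Y ν) (y : Y) (n a : ℕ) :
    ((S.adm y (blk n a)).card : ℝ) ≤ n := by
  have h : (S.adm y (blk n a)).card ≤ (blk n a).card := by
    classical
    unfold adm
    exact Finset.card_filter_le _ _
  rw [card_blk_low] at h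
  exact_mod_cast h

/-- numerical conclusion -/
private theorem numeric {N : ℕ} {d c G Sg I D : ℝ} (hN : 0 < N) (hc : 0 < c) (hG : 1 ≤ G)
    (hd : 0 < d) (hdN : d * N ≤ 1 / 10 ^ 8) (h0 : 0 ≤ Sg) (hS : Sg ≤ 34 / 5 * G)
    (h1 : 475 / 1000 * (9 * G) * ((1 - d) * c) ^ N * (1 - Sg / (700 * G) - 3 / 1000) ≤ I)
    (h2 : D ≤ 9 * G / 2 * (c ^ N / 1000))
    (h3 : 9 / 5 * (I - D) ≤ ((1 + d) * c) ^ N * Sg) : False := by
  have hN1 : (1 : ℝ) ≤ N := by exact_mod_cast hN
  have hd1 : d ≤ 1 / 10 ^ 8 := by nlinarith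
  have e1 : 1 - 1 / 10 ^ 8 ≤ (1 - d) ^ N := by
    have := one_add_mul_le_pow (a := -d) (by linarith) N
    have h5 : (1 + -d) ^ N = (1 - d) ^ N := by ring
    rw [h5] at this
    nlinarith
  have e2 : (1 + d) ^ N ≤ 1001 / 1000 := by
    have h5 : (1 + d) ^ N ≤ Real.exp (d * N) := by
      calc (1 + d) ^ N ≤ (Real.exp d) ^ N :=
            pow_le_pow_left₀ (by linarith) (by linarith [Real.add_one_le_exp d]) N
        _ = Real.exp (d * N) := by rw [← Real.exp_nat_mul]; ring_nf
    have h6 : Real.exp (d * N) ≤ Real.exp (1 / 10 ^ 8) := Real.exp_le_exp.2 hdN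
    have h7 : Real.exp (1 / 10 ^ 8) ≤ 1001 / 1000 := by
      have h8 := Real.abs_exp_sub_one_le (x := 1 / 10 ^ 8) (by
        rw [abs_of_pos (by norm_num)]; norm_num)
      have h9 := (abs_le.1 h8).2
      rw [abs_of_pos (by norm_num : (0 : ℝ) < 1 / 10 ^ 8)] at h9
      linarith [show (2 : ℝ) * (1 / 10 ^ 8) ≤ 1 / 1000 by norm_num]
    linarith
  have hcN : 0 < c ^ N := by positivity
  have hG0 : 0 < G := by linarith
  have hq : Sg / (700 * G) ≤ 34 / 3500 := by
    rw [div_le_iff₀ (by positivity)]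
    nlinarith
  rw [mul_pow] at h1 h3
  have a1 : 475 / 1000 * (9 * G) * ((1 - 1 / 10 ^ 8) * c ^ N) * (1 - 34 / 3500 - 3 / 1000) ≤ I := by
    refine le_trans ?_ h1
    have b1 : (0 : ℝ) ≤ 1 - 34 / 3500 - 3 / 1000 := by norm_num
    have b2 : (1 : ℝ) - 34 / 3500 - 3 / 1000 ≤ 1 - Sg / (700 * G) - 3 / 1000 := by linarith
    refine mul_le_mul ?_ b2 b1 ?_
    · refine mul_le_mul_of_nonneg_left ?_ (by positivity)
      exact mul_le_mul_of_nonneg_right e1 hcN.le
    · have : (0 : ℝ) ≤ (1 - d) ^ N := le_trans (by norm_num) e1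
      positivity
  have a2 : (1 + d) ^ N * c ^ N * Sg ≤ 1001 / 1000 * c ^ N * (34 / 5 * G) := by
    refine mul_le_mul ?_ hS h0 (by positivity)
    exact mul_le_mul_of_nonneg_right e2 hcN.le
  have hGc : 0 < G * c ^ N := by positivity
  nlinarith

theorem lower (S : Sys Y ν) [IsProbabilityMeasure ν] {α : ℝ} (hα : 0 < α) (hL : S.Loc)
    (hD : S.Dens α) (hT : S.NoTight) (hS : S.Sub) (g : ℕ) (hg : 1 ≤ g)
    (hG : 10 ^ 50 * g ≤ 4 ^ g) : ∃ n₀ K : ℕ, 1 ≤ K ∧ ∀ n ≥ n₀, ∀ n' ≥ n, ∀ U0 : ℕ,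
      K * n' ≤ 2 ^ (3 * U0) →
      34 / 5 * (g : ℝ) < ∑ j ∈ Finset.range (U0 + 9 * g + 1), S.gm α n (2 ^ (20 * g)) j := by
  obtain ⟨N, hN⟩ : ∃ N : ℕ, N = 2 ^ (20 * g) := ⟨_, rfl⟩
  have hN0 : 0 < N := by rw [hN]; positivity
  have hNr : (0 : ℝ) < N := by exact_mod_cast hN0
  have hN1 : (1 : ℝ) ≤ N := by exact_mod_cast hN0
  have hgr : (1 : ℝ) ≤ g := by exact_mod_cast hg
  rw [← hN]
  set d : ℝ := 1 / (10 ^ 8 * N) with hd
  have hd0 : 0 < d := by positivity
  have hdN : d * N ≤ 1 / 10 ^ 8 := by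
    rw [hd]; apply le_of_eq; field_simp
  have hd1 : d ≤ 1 / 10 ^ 8 := by nlinarith
  obtain ⟨n1, hn1⟩ := S.bd_small hα hL hD N hd0 (δ := α ^ N / 1000) (by positivity)
  obtain ⟨n2, hn2⟩ := S.lim_cnt hD (δ := d * α / (1000 * N)) (by positivity)
  obtain ⟨n3, hn3⟩ := S.lim_zero hT (δ := α ^ 2 / (1024 * 1000)) (by positivity)
  obtain ⟨n4, K, hK, hn4⟩ := S.lim_top hS (δ := α ^ 2 / (512 * 400000 * 1000)) (by positivity)
  refine ⟨max 1 (max n1 (max n2 (max n3 n4))), K, hK, fun n hn n' hn' U0 hU0 => ?_⟩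
  have m0 : 1 ≤ n := le_trans (le_max_left _ _) hn
  have m1 : n1 ≤ n := le_trans (le_trans (le_max_left _ _) (le_max_right _ _)) hn
  have m2 : n2 ≤ n := le_trans (le_trans (le_trans (le_max_left _ _) (le_max_right _ _))
    (le_max_right _ _)) hn
  have m3 : n3 ≤ n := le_trans (le_trans (le_trans (le_trans (le_max_left _ _)
    (le_max_right _ _)) (le_max_right _ _)) (le_max_right _ _)) hn
  have m4 : n4 ≤ n := le_trans (le_trans (le_trans (le_trans (le_max_right _ _)
    (le_max_right _ _)) (le_max_right _ _)) (le_max_right _ _)) hn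
  have hnr : (0 : ℝ) < n := by exact_mod_cast m0
  by_contra hcon
  push Not at hcon
  set U : ℕ := U0 + 9 * g with hU
  set c : ℝ := α * n with hc
  have hc0 : 0 < c := by positivity
  set Sg : ℝ := ∑ j ∈ Finset.range (U + 1), S.gm α n N j with hSg
  have hSg0 : 0 ≤ Sg := Finset.sum_nonneg fun j _ => S.gm_nonneg α n N j
  -- the two main functions
  set L : Y → ℝ := fun y => ∑ i ∈ Fintype.piFinset (fun a : Fin N => S.adm y (blk n a)),
    zt N U (9 * g) (S.V y) (fun a => S.adm y (blk n a)) (ex i) with hLdef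
  set Dd : Y → ℝ := fun y => ∑ i ∈ Fintype.piFinset (fun a : Fin N => S.adm y (blk n a)),
    ((9 * g : ℕ) : ℝ) / 2 * S.bd n N d c i y with hDdef
  have hsub : ∀ y, Fintype.piFinset (fun a : Fin N => S.adm y (blk n a)) ⊆
      Fintype.piFinset (fun a : Fin N => blk n a) := fun y =>
    Fintype.piFinset_subset _ _ fun a => by
      classical
      unfold adm; exact Finset.filter_subset _ _
  set CC : ℝ := ((Fintype.piFinset (fun a : Fin N => blk n a)).card : ℝ) with hCC
  have hLm : Measurable L := S.measurable_sum_adm n N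
    (fun i y => zt N U (9 * g) (S.V y) (fun a => S.adm y (blk n a)) (ex i))
    fun i => S.measurable_zt n N U (9 * g) (ex i)
  have hLi : Integrable L ν := by
    refine integrable_of_bdd hLm (CC * (((9 * g : ℕ) : ℝ) / 2)) fun y => ?_
    rw [abs_of_nonneg (Finset.sum_nonneg fun i _ => zt_nonneg _ _ _ _ _ _)]
    calc L y ≤ ∑ i ∈ Fintype.piFinset (fun a : Fin N => S.adm y (blk n a)),
          (((9 * g : ℕ) : ℝ) / 2) := Finset.sum_le_sum fun i _ => zt_le _ _ _ _ _ _
      _ = ((Fintype.piFinset (fun a : Fin N => S.adm y (blk n a))).card : ℝ)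
          * (((9 * g : ℕ) : ℝ) / 2) := by rw [Finset.sum_const, nsmul_eq_mul]
      _ ≤ _ := mul_le_mul_of_nonneg_right (by
          rw [hCC]; exact_mod_cast Finset.card_le_card (hsub y)) (by positivity)
  have hbn : ∀ (i : Fin N → ℕ) (y : Y), 0 ≤ S.bd n N d c i y := fun i y =>
    bd_nonneg S n N hd0 hc0 i y
  obtain ⟨Mb, hMb⟩ := bd_le S n N hd0 hc0
  have hDm : Measurable Dd := S.measurable_sum_adm n N
    (fun i y => ((9 * g : ℕ) : ℝ) / 2 * S.bd n N d c i y)
    fun i => (S.measurable_bd n N d c i).const_mul _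
  have hbi : ∀ i : Fin N → ℕ, Integrable (fun y => S.bd n N d c i y) ν := fun i =>
    integrable_of_bdd (S.measurable_bd n N d c i) Mb fun y => by
      rw [abs_of_nonneg (hbn i y)]; exact hMb i y
  have hDle : ∀ y, Dd y ≤ ∑ i ∈ Fintype.piFinset (fun a : Fin N => blk n a),
      ((9 * g : ℕ) : ℝ) / 2 * S.bd n N d c i y := fun y =>
    Finset.sum_le_sum_of_subset_of_nonneg (hsub y) fun i _ _ =>
      mul_nonneg (by positivity) (hbn i y)
  have hD0 : ∀ y, 0 ≤ Dd y := fun y => Finset.sum_nonneg fun i _ =>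
    mul_nonneg (by positivity) (hbn i y)
  have hbsum : Integrable (fun y => ∑ i ∈ Fintype.piFinset (fun a : Fin N => blk n a),
      ((9 * g : ℕ) : ℝ) / 2 * S.bd n N d c i y) ν :=
    integrable_finsetSum _ fun i _ => (hbi i).const_mul _
  have hDi : Integrable Dd ν := hbsum.mono' hDm.aestronglyMeasurable
    (Eventually.of_forall fun y => by
      rw [Real.norm_of_nonneg (hD0 y)]; exact hDle y)
  have hDint : ∫ y, Dd y ∂ν ≤ 9 * (g : ℝ) / 2 * (c ^ N / 1000) := by
    refine (integral_mono hDi hbsum hDle).trans ?_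
    rw [integral_finsetSum _ fun i _ => (hbi i).const_mul _]
    simp_rw [integral_const_mul]
    rw [← Finset.mul_sum]
    have e1 := hn1 n m1
    have e2 : α ^ N / 1000 * (n : ℝ) ^ N = c ^ N / 1000 := by rw [hc, mul_pow]; ring
    rw [e2] at e1
    refine (mul_le_mul_of_nonneg_left e1 (by positivity)).trans (le_of_eq ?_)
    push_cast
    ring
  -- orbit inequality
  have horb := S.orbit_lower n N U (9 * g) (by omega) hN0 hα hd0 hd1
  have horb' : 9 / 5 * (∫ y, L y ∂ν - ∫ y, Dd y ∂ν) ≤ ((1 + d) * c) ^ N * Sg := by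
    rw [← integral_sub hLi hDi]
    refine le_trans (le_of_eq ?_) horb
    congr 1
    refine integral_congr_ae (Eventually.of_forall fun y => ?_)
    simp only [hLdef, hDdef]
    rw [← Finset.sum_sub_distrib]
  -- the pointwise bound
  set f1 : Y → ℝ := fun y => gam (S.V y) U N c (fun a => S.adm y (blk n a)) / (700 * g) with hf1
  set f2 : Y → ℝ := fun y => 512 / (N : ℝ) * ∑ a ∈ Finset.range N,
    2 * en (S.V y) 0 (S.adm y (blk n a)) (S.adm y (blk n a)) / c ^ 2 with hf2
  set f3 : Y → ℝ := fun y => 512 / (N : ℝ) * ∑ a ∈ Finset.range N,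
    400000 * (((S.adm y (blk n a)).card : ℝ) ^ 2
      - en (S.V y) U0 (S.adm y (blk n a)) (S.adm y (blk n a))) / c ^ 2 with hf3
  set f4 : Y → ℝ := fun y => ∑ a ∈ Finset.range N,
    |((S.adm y (blk n a)).card : ℝ) - c| / (d * c) with hf4
  have hpw : ∀ y, 475 / 1000 * (9 * (g : ℝ)) * ((1 - d) * c) ^ N *
      (1 - f1 y - f2 y - f3 y - f4 y) ≤ L y := fun y =>
    pw g U U0 N hN hg hG (by omega) (S.V y) hc0 hd0 hd1 (fun a => S.adm y (blk n a))
  have hdsi : ∀ (j : ℕ) (p : ℕ × ℕ), Integrable (fun y =>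
      ds (S.V y) j c (S.adm y (blk n p.1)) (S.adm y (blk n p.2))) ν := fun j p =>
    integrable_of_bdd (S.measurable_ds j c _ _) (4 * (n : ℝ) ^ 2 / c ^ 2) fun y =>
      abs_ds_le _ _ hc0 _ _ (S.card_adm_le_low y n _) (S.card_adm_le_low y n _)
  have hsumi : ∀ j : ℕ, Integrable (fun y => (∑ p ∈ prs N,
      ds (S.V y) j c (S.adm y (blk n p.1)) (S.adm y (blk n p.2))) / (N : ℝ) ^ 2) ν := fun j =>
    (integrable_finsetSum _ fun p _ => hdsi j p).div_const _
  have hgi : Integrable (fun y => gam (S.V y) U N c (fun a => S.adm y (blk n a))) ν := by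
    unfold gam
    exact integrable_finsetSum _ fun j _ => hsumi j
  have hi1 : Integrable f1 ν := hgi.div_const _
  have hI1 : ∫ y, f1 y ∂ν = Sg / (700 * g) := by
    simp only [hf1]
    rw [integral_div]
    congr 1
    unfold gam
    rw [integral_finsetSum _ fun j _ => hsumi j]
    rfl
  have heni : ∀ j a : ℕ, Integrable (fun y =>
      en (S.V y) j (S.adm y (blk n a)) (S.adm y (blk n a))) ν := fun j a =>
    integrable_of_bdd (S.measurable_en j _ _) ((n : ℝ) * n) fun y => by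
      rw [abs_of_nonneg (en_nonneg _ _ _ _)]
      refine (en_le _ _ _ _).trans ?_
      have := S.card_adm_le_low y n a
      exact mul_le_mul this this (by positivity) (by positivity)
  have hcdi : ∀ a : ℕ, Integrable (fun y => ((S.adm y (blk n a)).card : ℝ) ^ 2) ν := fun a =>
    integrable_of_bdd ((S.measurable_card _).pow_const 2) ((n : ℝ) ^ 2) fun y => by
      rw [abs_of_nonneg (by positivity)]
      exact pow_le_pow_left₀ (by positivity) (S.card_adm_le_low y n a) 2
  have hcai : ∀ a : ℕ, Integrable (fun y => |((S.adm y (blk n a)).card : ℝ) - c|) ν := fun a =>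
    integrable_of_bdd (((S.measurable_card _).sub_const c).abs) (n + c) fun y => by
      rw [abs_abs]
      have e1 := S.card_adm_le_low y n a
      have e2 : (0 : ℝ) ≤ ((S.adm y (blk n a)).card : ℝ) := by positivity
      rw [abs_le]
      constructor <;> linarith
  have hi2 : Integrable f2 ν :=
    (integrable_finsetSum _ fun a _ => ((heni 0 a).const_mul 2).div_const _).const_mul _
  have hdf : ∀ a : ℕ, Integrable (fun y => 400000 * (((S.adm y (blk n a)).card : ℝ) ^ 2
      - en (S.V y) U0 (S.adm y (blk n a)) (S.adm y (blk n a))) / c ^ 2) ν := fun a =>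
    (((hcdi a).sub (heni U0 a)).const_mul 400000).div_const _
  have hi3 : Integrable f3 ν := (integrable_finsetSum _ fun a _ => hdf a).const_mul _
  have hi4 : Integrable f4 ν := integrable_finsetSum _ fun a _ => (hcai a).div_const _
  have hI2 : ∫ y, f2 y ∂ν ≤ 1 / 1000 := by
    simp only [hf2]
    rw [integral_const_mul, integral_finsetSum _ fun a _ => ((heni 0 a).const_mul 2).div_const _]
    have e1 : ∑ a ∈ Finset.range N, ∫ y,
        2 * en (S.V y) 0 (S.adm y (blk n a)) (S.adm y (blk n a)) / c ^ 2 ∂ν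
        ≤ ∑ a ∈ Finset.range N, (1 / (512 * 1000) : ℝ) := by
      refine Finset.sum_le_sum fun a _ => ?_
      rw [integral_div, integral_const_mul, div_le_iff₀ (by positivity)]
      refine (mul_le_mul_of_nonneg_left (hn3 n m3 a) (by norm_num)).trans (le_of_eq ?_)
      rw [hc]; ring
    rw [Finset.sum_const, Finset.card_range, nsmul_eq_mul] at e1
    refine (mul_le_mul_of_nonneg_left e1 (by positivity)).trans (le_of_eq ?_)
    field_simp
  have hI3 : ∫ y, f3 y ∂ν ≤ 1 / 1000 := by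
    simp only [hf3]
    rw [integral_const_mul, integral_finsetSum _ fun a _ => hdf a]
    have e1 : ∑ a ∈ Finset.range N, ∫ y, 400000 * (((S.adm y (blk n a)).card : ℝ) ^ 2
        - en (S.V y) U0 (S.adm y (blk n a)) (S.adm y (blk n a))) / c ^ 2 ∂ν
        ≤ ∑ a ∈ Finset.range N, (1 / (512 * 1000) : ℝ) := by
      refine Finset.sum_le_sum fun a _ => ?_
      rw [integral_div, integral_const_mul, div_le_iff₀ (by positivity)]
      refine (mul_le_mul_of_nonneg_left
        (hn4 n' (le_trans m4 hn') U0 hU0 n hn' a) (by norm_num)).trans (le_of_eq ?_)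
      rw [hc]; ring
    rw [Finset.sum_const, Finset.card_range, nsmul_eq_mul] at e1
    refine (mul_le_mul_of_nonneg_left e1 (by positivity)).trans (le_of_eq ?_)
    field_simp
  have hI4 : ∫ y, f4 y ∂ν ≤ 1 / 1000 := by
    simp only [hf4]
    rw [integral_finsetSum _ fun a _ => (hcai a).div_const _]
    have e1 : ∑ a ∈ Finset.range N, ∫ y, |((S.adm y (blk n a)).card : ℝ) - c| / (d * c) ∂ν
        ≤ ∑ a ∈ Finset.range N, (1 / (1000 * N) : ℝ) := by
      refine Finset.sum_le_sum fun a _ => ?_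
      rw [integral_div, div_le_iff₀ (by positivity)]
      refine (hn2 n m2 a).trans (le_of_eq ?_)
      rw [hc]; ring
    rw [Finset.sum_const, Finset.card_range, nsmul_eq_mul] at e1
    refine e1.trans (le_of_eq ?_)
    field_simp
  have hint : 475 / 1000 * (9 * (g : ℝ)) * ((1 - d) * c) ^ N *
      (1 - Sg / (700 * g) - 3 / 1000) ≤ ∫ y, L y ∂ν := by
    have e1 : ∫ y, 475 / 1000 * (9 * (g : ℝ)) * ((1 - d) * c) ^ N *
        (1 - f1 y - f2 y - f3 y - f4 y) ∂ν = 475 / 1000 * (9 * (g : ℝ)) * ((1 - d) * c) ^ N *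
        (1 - Sg / (700 * g) - ∫ y, f2 y ∂ν - ∫ y, f3 y ∂ν - ∫ y, f4 y ∂ν) := by
      rw [integral_const_mul, integral_sub
        (f := fun y => 1 - f1 y - f2 y - f3 y) ((((integrable_const 1).sub hi1).sub hi2).sub hi3)
        hi4, integral_sub (f := fun y => 1 - f1 y - f2 y) (((integrable_const 1).sub hi1).sub hi2)
        hi3, integral_sub (f := fun y => 1 - f1 y) ((integrable_const 1).sub hi1) hi2,
        integral_sub (integrable_const 1) hi1, hI1]
      simp
    have e2 : 0 ≤ 475 / 1000 * (9 * (g : ℝ)) * ((1 - d) * c) ^ N := by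
      have : 0 < 1 - d := by
        have : (1 : ℝ) / 10 ^ 8 < 1 := by norm_num
        linarith
      positivity
    calc _ ≤ 475 / 1000 * (9 * (g : ℝ)) * ((1 - d) * c) ^ N *
        (1 - Sg / (700 * g) - ∫ y, f2 y ∂ν - ∫ y, f3 y ∂ν - ∫ y, f4 y ∂ν) :=
          mul_le_mul_of_nonneg_left (by linarith) e2
      _ = _ := e1.symm
      _ ≤ _ := integral_mono (((((((integrable_const 1).sub hi1).sub hi2).sub hi3).sub
          hi4)).const_mul _) hLi hpw
  exact numeric hN0 hc0 hgr hd0 hdN hSg0 hcon hint hDint horb'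

end Sys

end Pool.Agent.EAG
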