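import Pool.Agent.EAG.Var

/-! # EAG-SELECT: a scale with small growth -/

open MeasureTheory Filter Topology Finset

namespace Pool.Agent.EAG

variable {Y : Type*} [MeasurableSpace Y] {ν : Measure Y}

namespace Sys

theorem sel_telescope (S : Sys Y ν) [IsProbabilityMeasure ν] {α : ℝ} (hα : 0 < α) (n0 N : ℕ)
    (hn0 : 1 ≤ n0) (hN : 1 ≤ N) (j T : ℕ) :
    ∑ t ∈ Finset.range T, S.gm α (n0 * N ^ t) N j ≤ S.cn α n0 j := by
  have h1 : ∀ T : ℕ, ∑ t ∈ Finset.range T, S.gm α (n0 * N ^ t) N j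
      = S.cn α n0 j - S.cn α (n0 * N ^ T) j := by
    intro T
    induction T with
    | zero => simp
    | succ T ih =>
      rw [Finset.sum_range_succ, ih]
      have h2 : 0 < n0 * N ^ T := Nat.mul_pos hn0 (Nat.pow_pos hN)
      have h3 := S.cn_sub hα h2 hN j
      have h4 : n0 * N ^ (T + 1) = N * (n0 * N ^ T) := by ring
      rw [h4, ← h3]
      ring
  rw [h1 T]
  have := S.cn_nonneg α (n0 * N ^ T) j
  linarith

theorem select (S : Sys Y ν) [IsProbabilityMeasure ν] {α : ℝ} (hα : 0 < α) (g : ℕ)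
    (hg : 1 ≤ g) (n0 : ℕ) (hn0 : 1 ≤ n0) (hcn : ∀ j, S.cn α n0 j ≤ 1001 / 1000) (K : ℕ)
    (hK : 1 ≤ K) : ∃ n n' U0 : ℕ, n0 ≤ n ∧ n ≤ n' ∧ K * n' ≤ 2 ^ (3 * U0) ∧
      ∑ j ∈ Finset.range (U0 + 9 * g + 1), S.gm α n (2 ^ (20 * g)) j ≤ 34 / 5 * g := by
  set L : ℕ := K * n0 with hL
  set T : ℕ := 100 * (L + 1) with hT
  set N : ℕ := 2 ^ (20 * g) with hN
  set U0 : ℕ := (L + 20 * g * T) / 3 + 1 with hU0
  have hN1 : 1 ≤ N := Nat.one_le_two_pow
  have hU1 : L + 20 * g * T ≤ 3 * U0 := by omega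
  have hU2 : 3 * U0 ≤ L + 20 * g * T + 3 := by omega
  have hpow : K * (n0 * N ^ T) ≤ 2 ^ (3 * U0) := by
    have e1 : K * (n0 * N ^ T) = L * 2 ^ (20 * g * T) := by
      rw [hN, ← pow_mul, hL]
      ring
    rw [e1]
    calc L * 2 ^ (20 * g * T) ≤ 2 ^ L * 2 ^ (20 * g * T) :=
          Nat.mul_le_mul_right _ (Nat.lt_two_pow_self).le
      _ = 2 ^ (L + 20 * g * T) := by rw [← pow_add]
      _ ≤ 2 ^ (3 * U0) := Nat.pow_le_pow_right (by norm_num) hU1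
  by_contra hcon
  push Not at hcon
  have hlow : ∀ t ∈ Finset.range T, (34 / 5 * g : ℝ) ≤
      ∑ j ∈ Finset.range (U0 + 9 * g + 1), S.gm α (n0 * N ^ t) N j := by
    intro t ht
    have ht' : t < T := Finset.mem_range.mp ht
    have a1 : n0 ≤ n0 * N ^ t := Nat.le_mul_of_pos_right _ (Nat.pow_pos hN1)
    have a2 : n0 * N ^ t ≤ n0 * N ^ T :=
      Nat.mul_le_mul_left _ (Nat.pow_le_pow_right hN1 ht'.le)
    exact (hcon (n0 * N ^ t) (n0 * N ^ T) U0 a1 a2 hpow).le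
  have hsum := Finset.sum_le_sum hlow
  rw [Finset.sum_const, Finset.card_range, Finset.sum_comm, nsmul_eq_mul] at hsum
  have hup : ∑ j ∈ Finset.range (U0 + 9 * g + 1), ∑ t ∈ Finset.range T,
      S.gm α (n0 * N ^ t) N j ≤ ((U0 + 9 * g + 1 : ℕ) : ℝ) * (1001 / 1000) := by
    have h1 : ∀ j ∈ Finset.range (U0 + 9 * g + 1), ∑ t ∈ Finset.range T,
        S.gm α (n0 * N ^ t) N j ≤ (1001 / 1000 : ℝ) := fun j _ =>
      (S.sel_telescope hα n0 N hn0 hN1 j T).trans (hcn j)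
    have h2 := Finset.sum_le_sum h1
    rwa [Finset.sum_const, Finset.card_range, nsmul_eq_mul] at h2
  have hfin := hsum.trans hup
  have hU2' : (3 : ℝ) * U0 ≤ L + 20 * g * T + 3 := by exact_mod_cast hU2
  have hT' : (T : ℝ) = 100 * (L + 1) := by
    rw [hT]
    push_cast
    ring
  have hg' : (1 : ℝ) ≤ g := by exact_mod_cast hg
  have hL0 : (0 : ℝ) ≤ L := Nat.cast_nonneg _
  push_cast at hfin
  have hgL : (0 : ℝ) ≤ (g - 1) * L := mul_nonneg (by linarith) hL0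
  have hgT : (g : ℝ) * T = 100 * (g * L) + 100 * g := by
    rw [hT']
    ring
  nlinarith [hfin, hU2', hgT, hgL, hg', hL0]

end Sys

end Pool.Agent.EAG
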