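import Pool.Agent.EAG.Lower
import Pool.Agent.EAG.Select

/-! # EAG-MAIN: a walk with asymptotically local reflection symmetries of positive density which
is not tight is not sub-diffusive -/

open MeasureTheory Filter Topology Finset

namespace Pool.Agent.EAG

variable {Y : Type*} [MeasurableSpace Y] {ν : Measure Y}

theorem exists_g : ∃ g : ℕ, 1 ≤ g ∧ 10 ^ 50 * g ≤ 4 ^ g := by
  refine ⟨100, by norm_num, by norm_num⟩

theorem not_sub [IsProbabilityMeasure ν] (S : Sys Y ν) {α : ℝ} (hα : 0 < α) (hL : S.Loc)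
    (hD : S.Dens α) (hT : S.NoTight) : ¬ S.Sub := by
  intro hS
  obtain ⟨g, hg, hG⟩ := exists_g
  obtain ⟨n₀, K, hK, hlow⟩ := S.lower hα hL hD hT hS g hg hG
  obtain ⟨n₁, hn₁⟩ := S.lim_cn hα hD (δ := 1 / 1000) (by norm_num)
  obtain ⟨n, n', U0, h1, h2, h3, h4⟩ := S.select hα g hg (max 1 (max n₀ n₁)) (le_max_left _ _)
    (fun j => (hn₁ _ (le_trans (le_max_right _ _) (le_max_right _ _)) j).trans (by norm_num))
    K hK
  have h5 := hlow n (le_trans (le_trans (le_max_left _ _) (le_max_right _ _)) h1) n' h2 U0 h3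
  exact absurd h4 (not_le.mpr h5)

end Pool.Agent.EAG
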