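import Pool.Agent.EAG.Pair

/-! # EAG-MEAS: measurability and boundedness -/

open MeasureTheory Filter Topology Finset

namespace Pool.Agent.EAG

variable {Y : Type*} [MeasurableSpace Y] {ν : Measure Y}

theorem integrable_of_bdd [IsFiniteMeasure ν] {f : Y → ℝ} (hf : Measurable f) (C : ℝ)
    (hC : ∀ y, |f y| ≤ C) : Integrable f ν :=
  Integrable.of_bound hf.aestronglyMeasurable C (Eventually.of_forall fun y => by
    rw [Real.norm_eq_abs]; exact hC y)

/-! ### measurability in the sequence `v` -/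

theorem measurable_tri_sub (j k l : ℕ) : Measurable (fun v : ℕ → ℝ => tri j (v k - v l)) :=
  (continuous_tri j).measurable.comp ((measurable_pi_apply k).sub (measurable_pi_apply l))

theorem measurable_en_v (j : ℕ) (B C : Finset ℕ) : Measurable (fun v : ℕ → ℝ => en v j B C) := by
  unfold en
  exact Finset.measurable_sum _ fun k _ => Finset.measurable_sum _ fun l _ => measurable_tri_sub j k l

theorem measurable_ds_v (j : ℕ) (c : ℝ) (B C : Finset ℕ) :
    Measurable (fun v : ℕ → ℝ => ds v j c B C) := by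
  unfold ds
  exact (((measurable_en_v j B B).sub ((measurable_en_v j B C).const_mul 2)).add
    (measurable_en_v j C C)).div_const _

theorem measurable_qq_v (j : ℕ) (B : Finset ℕ) (k : ℕ) :
    Measurable (fun v : ℕ → ℝ => qq v j B k) := by
  unfold qq
  exact measurable_const.sub ((Finset.measurable_sum _ fun l _ => measurable_tri_sub j l k).div_const _)

theorem measurable_Sab_v (i : ℕ → ℕ) (s : ℕ → Bool) (a b : ℕ) :
    Measurable (fun v : ℕ → ℝ => Sab v i s a b) := by
  unfold Sab
  refine Finset.measurable_sum _ fun c _ => ?_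
  have h1 : Measurable (fun v : ℕ → ℝ => v (i (c + 1))) := measurable_pi_apply _
  have h2 : Measurable (fun v : ℕ → ℝ => v (i c)) := measurable_pi_apply _
  exact (h1.sub h2).const_mul (sg (s c))

theorem measurable_pS_v (N : ℕ) (i : ℕ → ℕ) (j a b : ℕ) :
    Measurable (fun v : ℕ → ℝ => pS N v i j a b) := by
  classical
  unfold pS
  apply Measurable.div_const
  have : (fun v : ℕ → ℝ => ((Finset.univ.filter (fun s : Fin N → Bool =>
      (2 : ℝ) ^ j ≤ |Sab v i (exb s) a b|)).card : ℝ)) =
      fun v : ℕ → ℝ => ∑ s : Fin N → Bool, if (2 : ℝ) ^ j ≤ |Sab v i (exb s) a b| then (1 : ℝ) else 0 := by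
    funext v
    rw [Finset.card_filter]
    push_cast
    refine Finset.sum_congr rfl fun s _ => ?_
    split_ifs <;> rfl
  rw [this]
  refine Finset.measurable_sum _ fun s _ => Measurable.ite ?_ measurable_const measurable_const
  exact measurableSet_le measurable_const (measurable_Sab_v i (exb s) a b).abs

theorem measurable_psi_v (N : ℕ) (B : ℕ → Finset ℕ) (i : ℕ → ℕ) (j a b : ℕ) :
    Measurable (fun v : ℕ → ℝ => psi N v B i j a b) := by
  classical
  unfold psi
  refine Measurable.ite ?_ (measurable_pS_v N i j a b) measurable_const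
  exact (measurableSet_le (measurable_qq_v j (B a) (i a)) measurable_const).inter
    (measurableSet_le (measurable_qq_v j (B b) (i b)) measurable_const)

theorem measurable_zt_v (N U l : ℕ) (B : ℕ → Finset ℕ) (i : ℕ → ℕ) :
    Measurable (fun v : ℕ → ℝ => zt N U l v B i) := by
  unfold zt
  refine Measurable.div_const (Finset.measurable_sum _ fun p _ => ?_) _
  exact measurable_const.min (Finset.measurable_sum _ fun j _ => measurable_psi_v N B i j p.1 p.2)

theorem mem_prs {N : ℕ} {p : ℕ × ℕ} (h : p ∈ prs N) : p.1 < N ∧ p.2 < N := by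
  unfold prs at h
  rw [Finset.mem_filter, Finset.mem_product, Finset.mem_range, Finset.mem_range] at h
  exact h.1

theorem zt_congr {N U l : ℕ} {v : ℕ → ℝ} {B B' : ℕ → Finset ℕ} {i : ℕ → ℕ}
    (h : ∀ a < N, B a = B' a) : zt N U l v B i = zt N U l v B' i := by
  unfold zt
  congr 1
  refine Finset.sum_congr rfl fun p hp => ?_
  have hp' := mem_prs hp
  congr 1
  refine Finset.sum_congr rfl fun j _ => ?_
  unfold psi
  rw [h _ hp'.1, h _ hp'.2]

theorem blk_subset {n a N : ℕ} (h : a < N) : blk n a ⊆ Finset.range (N * n) := by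
  intro k hk
  unfold blk at hk
  rw [Finset.mem_Ico] at hk
  rw [Finset.mem_range]
  exact lt_of_lt_of_le hk.2 (Nat.mul_le_mul_right n h)

theorem card_blk (n a : ℕ) : (blk n a).card = n := by
  unfold blk
  rw [Nat.card_Ico, Nat.add_mul, one_mul]
  omega

namespace Sys

theorem measurable_V (S : Sys Y ν) (k : ℕ) : Measurable (fun y => S.V y k) := by
  unfold V
  exact Finset.measurable_sum _ fun l _ => S.hx.comp (S.mpTh l).measurable

theorem mem_adm (S : Sys Y ν) (y : Y) (B : Finset ℕ) (k : ℕ) :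
    k ∈ S.adm y B ↔ k ∈ B ∧ S.Th (k : ℤ) y ∈ S.A := by
  classical
  unfold adm
  exact Finset.mem_filter

theorem adm_subset (S : Sys Y ν) (y : Y) (B : Finset ℕ) : S.adm y B ⊆ B :=
  fun k hk => ((S.mem_adm y B k).1 hk).1

theorem adm_eq_inter (S : Sys Y ν) (y : Y) {M : ℕ} {B : Finset ℕ} (hB : B ⊆ Finset.range M) :
    S.adm y B = S.adm y (Finset.range M) ∩ B := by
  ext k
  rw [Finset.mem_inter, mem_adm, mem_adm]
  constructor
  · rintro ⟨h1, h2⟩
    exact ⟨⟨hB h1, h2⟩, h1⟩
  · rintro ⟨⟨_, h2⟩, h1⟩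
    exact ⟨h1, h2⟩

theorem measurableSet_Th (S : Sys Y ν) (k : ℕ) : MeasurableSet {y | S.Th (k : ℤ) y ∈ S.A} :=
  (S.mpTh k).measurable S.hA

/-- everything that is a function of finitely many admissibility indicators and of the walk is
measurable: decompose into the finitely many values of `S.adm y (range M)`. -/
theorem meas_of (S : Sys Y ν) (M : ℕ) (F : Finset ℕ → (ℕ → ℝ) → ℝ)
    (hF : ∀ B, Measurable (F B)) :
    Measurable (fun y => F (S.adm y (Finset.range M)) (S.V y)) := by
  classical
  have hV : Measurable (fun y => S.V y) := measurable_pi_iff.2 fun k => S.measurable_V k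
  have hset : ∀ B : Finset ℕ, MeasurableSet {y | S.adm y (Finset.range M) = B} := by
    intro B
    by_cases hB : B ⊆ Finset.range M
    · have : {y | S.adm y (Finset.range M) = B} =
          ⋂ k ∈ Finset.range M, {y | (S.Th (k : ℤ) y ∈ S.A ↔ k ∈ B)} := by
        ext y
        simp only [Set.mem_ofPred_eq, Set.mem_iInter]
        constructor
        · intro h k hk
          rw [← h, mem_adm]
          exact ⟨fun h' => ⟨hk, h'⟩, fun h' => h'.2⟩
        · intro h
          ext k
          rw [mem_adm]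
          constructor
          · rintro ⟨h1, h2⟩
            exact (h k h1).1 h2
          · intro h1
            exact ⟨hB h1, (h k (hB h1)).2 h1⟩
      rw [this]
      refine Finset.measurableSet_biInter _ fun k _ => ?_
      by_cases hk : k ∈ B
      · simp only [hk, iff_true]
        exact S.measurableSet_Th k
      · simp only [hk, iff_false]
        exact (S.measurableSet_Th k).compl
    · have : {y | S.adm y (Finset.range M) = B} = ∅ := by
        ext y
        simp only [Set.mem_ofPred_eq, Set.mem_empty_iff_false, iff_false]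
        intro h
        apply hB
        rw [← h]
        exact S.adm_subset _ _
      rw [this]
      exact MeasurableSet.empty
  have hdec : (fun y => F (S.adm y (Finset.range M)) (S.V y)) =
      fun y => ∑ B ∈ (Finset.range M).powerset,
        (if S.adm y (Finset.range M) = B then F B (S.V y) else 0) := by
    funext y
    rw [Finset.sum_ite_eq]
    rw [if_pos]
    rw [Finset.mem_powerset]
    exact S.adm_subset _ _
  rw [hdec]
  exact Finset.measurable_sum _ fun B _ =>
    Measurable.ite (hset B) ((hF B).comp hV) measurable_const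

theorem exists_range (B : Finset ℕ) : ∃ M, B ⊆ Finset.range M :=
  ⟨B.sup id + 1, fun _ hk => Finset.mem_range.2 (Nat.lt_succ_of_le (Finset.le_sup (f := id) hk))⟩

theorem measurable_ds (S : Sys Y ν) (j : ℕ) (c : ℝ) (B C : Finset ℕ) :
    Measurable (fun y => ds (S.V y) j c (S.adm y B) (S.adm y C)) := by
  classical
  obtain ⟨M, hM⟩ := exists_range (B ∪ C)
  have hB : B ⊆ Finset.range M := Finset.subset_union_left.trans hM
  have hC : C ⊆ Finset.range M := Finset.subset_union_right.trans hM
  have := S.meas_of M (fun D v => ds v j c (D ∩ B) (D ∩ C)) (fun D => measurable_ds_v j c _ _)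
  simpa only [S.adm_eq_inter _ hB, S.adm_eq_inter _ hC] using this

theorem measurable_en (S : Sys Y ν) (j : ℕ) (B C : Finset ℕ) :
    Measurable (fun y => en (S.V y) j (S.adm y B) (S.adm y C)) := by
  classical
  obtain ⟨M, hM⟩ := exists_range (B ∪ C)
  have hB : B ⊆ Finset.range M := Finset.subset_union_left.trans hM
  have hC : C ⊆ Finset.range M := Finset.subset_union_right.trans hM
  have := S.meas_of M (fun D v => en v j (D ∩ B) (D ∩ C)) (fun D => measurable_en_v j _ _)
  simpa only [S.adm_eq_inter _ hB, S.adm_eq_inter _ hC] using this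

theorem measurable_card (S : Sys Y ν) (B : Finset ℕ) :
    Measurable (fun y => ((S.adm y B).card : ℝ)) := by
  classical
  obtain ⟨M, hB⟩ := exists_range B
  have := S.meas_of M (fun D _ => ((D ∩ B).card : ℝ)) (fun D => measurable_const)
  simpa only [S.adm_eq_inter _ hB] using this

theorem measurable_zt (S : Sys Y ν) (n N U l : ℕ) (i : ℕ → ℕ) :
    Measurable (fun y => zt N U l (S.V y) (fun a => S.adm y (blk n a)) i) := by
  classical
  have h1 : (fun y => zt N U l (S.V y) (fun a => S.adm y (blk n a)) i) =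
      fun y => zt N U l (S.V y) (fun a => S.adm y (Finset.range (N * n)) ∩ blk n a) i := by
    funext y
    exact zt_congr fun a ha => S.adm_eq_inter y (blk_subset ha)
  rw [h1]
  exact S.meas_of (N * n) (fun D v => zt N U l v (fun a => D ∩ blk n a) i)
    (fun D => measurable_zt_v N U l _ i)

theorem measurable_Rat (S : Sys Y ν) (k : ℕ) : Measurable (S.Rat k) :=
  (S.mpTh _).measurable.comp (S.mpR.measurable.comp (S.mpTh _).measurable)

theorem measurable_TT (S : Sys Y ν) (i : ℕ → ℕ) (s : ℕ → Bool) (e : ℕ) :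
    Measurable (S.TT i s e) := by
  induction e with
  | zero => exact measurable_id
  | succ c ih =>
    by_cases h : s c = prev s c
    · have : S.TT i s (c + 1) = S.TT i s c := by
        funext y
        show (if s c = prev s c then S.TT i s c y else S.Rat (i c) (S.TT i s c y)) = _
        rw [if_pos h]
      rw [this]
      exact ih
    · have : S.TT i s (c + 1) = fun y => S.Rat (i c) (S.TT i s c y) := by
        funext y
        show (if s c = prev s c then S.TT i s c y else S.Rat (i c) (S.TT i s c y)) = _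
        rw [if_neg h]
      rw [this]
      exact (S.measurable_Rat _).comp ih

theorem measurable_ch (S : Sys Y ν) {f g : Y → Y} (hf : Measurable f) (hg : Measurable g)
    (k : ℕ) : Measurable (fun y => S.ch (f y) (g y) k) := by
  classical
  unfold ch
  have h1 : MeasurableSet {y | S.Th (k : ℤ) (f y) ∈ S.A} := hf (S.measurableSet_Th k)
  have h2 : MeasurableSet {y | S.Th (k : ℤ) (g y) ∈ S.A} := hg (S.measurableSet_Th k)
  have h3 : MeasurableSet {y | (S.Th (k : ℤ) (f y) ∈ S.A ↔ S.Th (k : ℤ) (g y) ∈ S.A)} := by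
    have : {y | (S.Th (k : ℤ) (f y) ∈ S.A ↔ S.Th (k : ℤ) (g y) ∈ S.A)} =
        ({y | S.Th (k : ℤ) (f y) ∈ S.A} ∩ {y | S.Th (k : ℤ) (g y) ∈ S.A}) ∪
        ({y | S.Th (k : ℤ) (f y) ∈ S.A}ᶜ ∩ {y | S.Th (k : ℤ) (g y) ∈ S.A}ᶜ) := by
      ext y
      simp only [Set.mem_ofPred_eq, Set.mem_union, Set.mem_inter_iff, Set.mem_compl_iff]
      tauto
    rw [this]
    exact (h1.inter h2).union (h1.compl.inter h2.compl)
  exact Measurable.ite h3 measurable_const measurable_const

theorem measurable_bd (S : Sys Y ν) (n N : ℕ) (d c : ℝ) (i : Fin N → ℕ) :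
    Measurable (fun y => S.bd n N d c i y) := by
  unfold bd
  refine Measurable.add ?_ ?_
  · refine Finset.measurable_sum _ fun s _ => Finset.measurable_sum _ fun e _ =>
      Finset.measurable_sum _ fun a _ => Measurable.add ?_ ?_
    · exact S.measurable_ch measurable_id (S.measurable_TT _ _ e) _
    · exact (Finset.measurable_sum _ fun k _ =>
        S.measurable_ch measurable_id (S.measurable_TT _ _ e) k).mul_const _
  · exact Finset.measurable_sum _ fun a _ =>
      ((S.measurable_card _).sub_const _).abs.mul_const _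

/-- sums over the admissible tuples -/
theorem measurable_sum_adm (S : Sys Y ν) (n N : ℕ) (F : (Fin N → ℕ) → Y → ℝ)
    (hF : ∀ i, Measurable (F i)) :
    Measurable (fun y => ∑ i ∈ Fintype.piFinset (fun a : Fin N => S.adm y (blk n a)), F i y) := by
  classical
  have h1 : (fun y => ∑ i ∈ Fintype.piFinset (fun a : Fin N => S.adm y (blk n a)), F i y) =
      fun y => ∑ i ∈ Fintype.piFinset (fun a : Fin N => blk n a),
        if (∀ a : Fin N, S.Th ((i a : ℕ) : ℤ) y ∈ S.A) then F i y else 0 := by
    funext y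
    rw [← Finset.sum_filter]
    refine Finset.sum_congr ?_ fun _ _ => rfl
    ext i
    rw [Finset.mem_filter, Fintype.mem_piFinset, Fintype.mem_piFinset]
    constructor
    · intro h
      exact ⟨fun a => ((S.mem_adm y _ _).1 (h a)).1, fun a => ((S.mem_adm y _ _).1 (h a)).2⟩
    · rintro ⟨h1, h2⟩ a
      exact (S.mem_adm y _ _).2 ⟨h1 a, h2 a⟩
  rw [h1]
  refine Finset.measurable_sum _ fun i _ => Measurable.ite ?_ (hF i) measurable_const
  have : {y | ∀ a : Fin N, S.Th ((i a : ℕ) : ℤ) y ∈ S.A} =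
      ⋂ a : Fin N, {y | S.Th ((i a : ℕ) : ℤ) y ∈ S.A} := by
    ext y
    simp
  rw [this]
  exact MeasurableSet.iInter fun a => S.measurableSet_Th (i a)

theorem ch_nonneg' (S : Sys Y ν) (y z : Y) (k : ℕ) : 0 ≤ S.ch y z k := by
  unfold ch
  split_ifs <;> norm_num

theorem ch_le_one' (S : Sys Y ν) (y z : Y) (k : ℕ) : S.ch y z k ≤ 1 := by
  unfold ch
  split_ifs <;> norm_num

theorem card_adm_le (S : Sys Y ν) (y : Y) (B : Finset ℕ) : (S.adm y B).card ≤ B.card :=
  Finset.card_le_card (S.adm_subset y B)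

end Sys

theorem abs_ds_le (v : ℕ → ℝ) (j : ℕ) {c : ℝ} (hc : 0 < c) (B C : Finset ℕ) {M : ℝ}
    (hB : (B.card : ℝ) ≤ M) (hC : (C.card : ℝ) ≤ M) : |ds v j c B C| ≤ 4 * M ^ 2 / c ^ 2 := by
  have hM : 0 ≤ M := (Nat.cast_nonneg _).trans hB
  have h1 : en v j B B ≤ M ^ 2 := (en_le v j B B).trans (by
    rw [sq]; exact mul_le_mul hB hB (Nat.cast_nonneg _) hM)
  have h2 : en v j B C ≤ M ^ 2 := (en_le v j B C).trans (by
    rw [sq]; exact mul_le_mul hB hC (Nat.cast_nonneg _) hM)
  have h3 : en v j C C ≤ M ^ 2 := (en_le v j C C).trans (by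
    rw [sq]; exact mul_le_mul hC hC (Nat.cast_nonneg _) hM)
  have h1' := en_nonneg v j B B
  have h2' := en_nonneg v j B C
  have h3' := en_nonneg v j C C
  unfold ds
  rw [abs_div, abs_of_pos (show (0 : ℝ) < c ^ 2 by positivity)]
  gcongr
  rw [abs_le]
  constructor <;> nlinarith [sq_nonneg M]

theorem pS_nonneg (N : ℕ) (v : ℕ → ℝ) (i : ℕ → ℕ) (j a b : ℕ) : 0 ≤ pS N v i j a b := by
  unfold pS
  positivity

theorem psi_nonneg (N : ℕ) (v : ℕ → ℝ) (B : ℕ → Finset ℕ) (i : ℕ → ℕ) (j a b : ℕ) :
    0 ≤ psi N v B i j a b := by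
  unfold psi
  split_ifs
  · exact pS_nonneg _ _ _ _ _ _
  · exact le_rfl

theorem zt_nonneg (N U l : ℕ) (v : ℕ → ℝ) (B : ℕ → Finset ℕ) (i : ℕ → ℕ) :
    0 ≤ zt N U l v B i := by
  unfold zt
  refine div_nonneg (Finset.sum_nonneg fun p _ => le_min (Nat.cast_nonneg _) ?_) (sq_nonneg _)
  exact Finset.sum_nonneg fun j _ => psi_nonneg _ _ _ _ _ _ _

theorem two_card_prs (N : ℕ) : 2 * (prs N).card ≤ N ^ 2 := by
  classical
  have h1 : ((prs N).map (Equiv.prodComm ℕ ℕ).toEmbedding).card = (prs N).card := Finset.card_map _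
  have h2 : Disjoint (prs N) ((prs N).map (Equiv.prodComm ℕ ℕ).toEmbedding) := by
    rw [Finset.disjoint_left]
    rintro ⟨a, b⟩ h h'
    rw [Finset.mem_map] at h'
    obtain ⟨⟨a', b'⟩, h3, h4⟩ := h'
    simp only [Equiv.coe_toEmbedding, Equiv.prodComm_apply, Prod.swap_prod_mk, Prod.mk.injEq] at h4
    obtain ⟨rfl, rfl⟩ := h4
    unfold prs at h h3
    rw [Finset.mem_filter] at h h3
    exact absurd h.2 (not_lt.2 h3.2.le)
  have h3 : prs N ∪ (prs N).map (Equiv.prodComm ℕ ℕ).toEmbedding ⊆ (Finset.range N) ×ˢ (Finset.range N) := by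
    intro p hp
    rw [Finset.mem_union] at hp
    rcases hp with h | h
    · exact (Finset.mem_filter.1 h).1
    · rw [Finset.mem_map] at h
      obtain ⟨⟨a', b'⟩, h3, rfl⟩ := h
      have h4 := (Finset.mem_filter.1 h3).1
      rw [Finset.mem_product] at h4 ⊢
      exact ⟨h4.2, h4.1⟩
  have h4 := Finset.card_le_card h3
  rw [Finset.card_union_of_disjoint h2, h1, Finset.card_product, Finset.card_range] at h4
  rw [sq]
  omega

theorem zt_le (N U l : ℕ) (v : ℕ → ℝ) (B : ℕ → Finset ℕ) (i : ℕ → ℕ) :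
    zt N U l v B i ≤ l / 2 := by
  unfold zt
  rcases Nat.eq_zero_or_pos N with rfl | hN
  · simp
    positivity
  · have hN' : (0 : ℝ) < (N : ℝ) ^ 2 := by positivity
    rw [div_le_iff₀ hN']
    have h1 : ∑ p ∈ prs N, min (l : ℝ) (∑ j ∈ Finset.range (U + 1), psi N v B i j p.1 p.2) ≤
        ∑ _p ∈ prs N, (l : ℝ) := Finset.sum_le_sum fun p _ => min_le_left _ _
    rw [Finset.sum_const, nsmul_eq_mul] at h1
    refine h1.trans ?_
    have h2 : (2 : ℝ) * (prs N).card ≤ (N : ℝ) ^ 2 := by exact_mod_cast two_card_prs N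
    have hl : (0 : ℝ) ≤ l := Nat.cast_nonneg _
    nlinarith

theorem bd_nonneg (S : Sys Y ν) (n N : ℕ) {d c : ℝ} (hd : 0 < d) (hc : 0 < c) (i : Fin N → ℕ)
    (y : Y) : 0 ≤ S.bd n N d c i y := by
  unfold Sys.bd
  have h2 : 0 ≤ 2 / (d * c) := by positivity
  refine add_nonneg ?_ ?_
  · exact Finset.sum_nonneg fun s _ => Finset.sum_nonneg fun e _ => Finset.sum_nonneg fun a _ =>
      add_nonneg (S.ch_nonneg' _ _ _)
        (mul_nonneg (Finset.sum_nonneg fun k _ => S.ch_nonneg' _ _ _) h2)
  · exact Finset.sum_nonneg fun a _ => mul_nonneg (abs_nonneg _) h2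

/-- a crude bound, for integrability only -/
theorem bd_le (S : Sys Y ν) (n N : ℕ) {d c : ℝ} (hd : 0 < d) (hc : 0 < c) :
    ∃ M : ℝ, ∀ (i : Fin N → ℕ) (y : Y), S.bd n N d c i y ≤ M := by
  have h2 : 0 ≤ 2 / (d * c) := by positivity
  refine ⟨(∑ _s : Fin N → Bool, ∑ _e ∈ Finset.range (N + 1), ∑ a ∈ Finset.range N,
    (1 + (∑ _k ∈ blk n a, (1 : ℝ)) * (2 / (d * c)))) +
    ∑ _a ∈ Finset.range N, ((n : ℝ) + |c|) * (2 / (d * c)), fun i y => ?_⟩
  unfold Sys.bd
  refine add_le_add ?_ ?_
  · refine Finset.sum_le_sum fun s _ => Finset.sum_le_sum fun e _ => Finset.sum_le_sum fun a _ => ?_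
    refine add_le_add (S.ch_le_one' _ _ _) (mul_le_mul_of_nonneg_right ?_ h2)
    exact Finset.sum_le_sum fun k _ => S.ch_le_one' _ _ _
  · refine Finset.sum_le_sum fun a _ => mul_le_mul_of_nonneg_right ?_ h2
    refine (abs_sub _ _).trans ?_
    have h3 : ((S.adm y (blk n a)).card : ℝ) ≤ n := by
      have := S.card_adm_le y (blk n a)
      rw [card_blk] at this
      exact_mod_cast this
    rw [abs_of_nonneg (Nat.cast_nonneg _)]
    linarith

end Pool.Agent.EAG
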