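import Pool.Agent.EAG.Toggle

/-! # EAG-ORBP: the pair bound along an orbit of reflections -/

open MeasureTheory Filter Topology Finset

namespace Pool.Agent.EAG

variable {Y : Type*} [MeasurableSpace Y] {ν : Measure Y}

namespace Sys

theorem OrbP.mem_adm (S : Sys Y ν) (y : Y) (B : Finset ℕ) (k : ℕ) :
    k ∈ S.adm y B ↔ k ∈ B ∧ S.Th (k : ℤ) y ∈ S.A := by
  classical
  unfold Sys.adm
  exact Finset.mem_filter

theorem OrbP.ch_nonneg (S : Sys Y ν) (y z : Y) (k : ℕ) : 0 ≤ S.ch y z k := by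
  unfold Sys.ch
  split_ifs <;> norm_num

theorem OrbP.ch_lt (S : Sys Y ν) (y z : Y) (k : ℕ) (h : S.ch y z k < 1) :
    (S.Th (k : ℤ) y ∈ S.A ↔ S.Th (k : ℤ) z ∈ S.A) := by
  unfold Sys.ch at h
  split_ifs at h with h1
  · exact h1
  · exact absurd h (lt_irrefl _)

theorem OrbP.key (S : Sys Y ν) (n N : ℕ) {c d : ℝ} (hc : 0 < c) (hd : 0 < d) (i : Fin N → ℕ)
    (y : Y) (h : S.bd n N d c i y < 1) (s : Fin N → Bool) (e a : ℕ) (he : e ≤ N) (ha : a < N) :
    S.ch y (S.TT (ex i) (exb s) e y) (ex i a) < 1 ∧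
      (∑ k ∈ blk n a, S.ch y (S.TT (ex i) (exb s) e y) k) +
        |((S.adm y (blk n a)).card : ℝ) - c| ≤ d * c / 2 := by
  set f : (Fin N → Bool) → ℕ → ℕ → ℝ := fun s e a =>
    S.ch y (S.TT (ex i) (exb s) e y) (ex i a)
      + (∑ k ∈ blk n a, S.ch y (S.TT (ex i) (exb s) e y) k) * (2 / (d * c)) with hf
  set g : ℕ → ℝ := fun a => |((S.adm y (blk n a)).card : ℝ) - c| * (2 / (d * c)) with hg
  have hdc : 0 < d * c := mul_pos hd hc
  have hsum0 : ∀ (s : Fin N → Bool) (e a : ℕ),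
      0 ≤ ∑ k ∈ blk n a, S.ch y (S.TT (ex i) (exb s) e y) k := fun s e a =>
    Finset.sum_nonneg fun k _ => OrbP.ch_nonneg S y _ k
  have hf0 : ∀ s e a, 0 ≤ f s e a := fun s e a =>
    add_nonneg (OrbP.ch_nonneg S y _ _) (mul_nonneg (hsum0 s e a) (by positivity))
  have hg0 : ∀ a, 0 ≤ g a := fun a => mul_nonneg (abs_nonneg _) (by positivity)
  have hbd : S.bd n N d c i y = (∑ s : Fin N → Bool, ∑ e ∈ Finset.range (N + 1),
      ∑ a ∈ Finset.range N, f s e a) + ∑ a ∈ Finset.range N, g a := rfl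
  have h1 : f s e a ≤ ∑ s : Fin N → Bool, ∑ e ∈ Finset.range (N + 1),
      ∑ a ∈ Finset.range N, f s e a := by
    calc f s e a ≤ ∑ a ∈ Finset.range N, f s e a :=
          Finset.single_le_sum (f := fun a => f s e a) (fun a _ => hf0 s e a)
            (Finset.mem_range.2 ha)
      _ ≤ ∑ e ∈ Finset.range (N + 1), ∑ a ∈ Finset.range N, f s e a :=
          Finset.single_le_sum (f := fun e => ∑ a ∈ Finset.range N, f s e a)
            (fun e _ => Finset.sum_nonneg fun a _ => hf0 s e a) (Finset.mem_range.2 (by omega))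
      _ ≤ _ := Finset.single_le_sum
            (f := fun s => ∑ e ∈ Finset.range (N + 1), ∑ a ∈ Finset.range N, f s e a)
            (fun s _ => Finset.sum_nonneg fun e _ => Finset.sum_nonneg fun a _ => hf0 s e a)
            (Finset.mem_univ s)
  have h2 : g a ≤ ∑ a ∈ Finset.range N, g a :=
    Finset.single_le_sum (f := g) (fun a _ => hg0 a) (Finset.mem_range.2 ha)
  have h3 : f s e a + g a < 1 := by
    rw [hbd] at h
    linarith
  have h4 : f s e a + g a = S.ch y (S.TT (ex i) (exb s) e y) (ex i a) +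
      ((∑ k ∈ blk n a, S.ch y (S.TT (ex i) (exb s) e y) k) +
        |((S.adm y (blk n a)).card : ℝ) - c|) * (2 / (d * c)) := by
    rw [hf, hg]
    ring
  rw [h4] at h3
  have h5 : 0 ≤ ((∑ k ∈ blk n a, S.ch y (S.TT (ex i) (exb s) e y) k) +
        |((S.adm y (blk n a)).card : ℝ) - c|) * (2 / (d * c)) :=
    mul_nonneg (add_nonneg (hsum0 s e a) (abs_nonneg _)) (by positivity)
  refine ⟨by linarith, ?_⟩
  have h6 : ((∑ k ∈ blk n a, S.ch y (S.TT (ex i) (exb s) e y) k) +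
        |((S.adm y (blk n a)).card : ℝ) - c|) * (2 / (d * c)) ≤ 1 := by
    linarith [OrbP.ch_nonneg S y (S.TT (ex i) (exb s) e y) (ex i a)]
  rw [← mul_div_assoc, div_le_one hdc] at h6
  linarith

/-- the symmetric difference of the admissible sets is counted by `ch` -/
theorem OrbP.symm_card (S : Sys Y ν) (y z : Y) (B : Finset ℕ) :
    (((S.adm y B) \ (S.adm z B)).card : ℝ) + (((S.adm z B) \ (S.adm y B)).card : ℝ) ≤
      ∑ k ∈ B, S.ch y z k := by
  classical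
  have hdisj : Disjoint ((S.adm y B) \ (S.adm z B)) ((S.adm z B) \ (S.adm y B)) := by
    rw [Finset.disjoint_left]
    intro k hk hk'
    exact (Finset.mem_sdiff.1 hk').2 (Finset.mem_sdiff.1 hk).1
  have h1 : (((S.adm y B) \ (S.adm z B)) ∪ ((S.adm z B) \ (S.adm y B))) ⊆ B := by
    intro k hk
    rcases Finset.mem_union.1 hk with h | h
    · exact ((OrbP.mem_adm S _ _ _).1 (Finset.mem_sdiff.1 h).1).1
    · exact ((OrbP.mem_adm S _ _ _).1 (Finset.mem_sdiff.1 h).1).1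
  have h2 : ∀ k ∈ (((S.adm y B) \ (S.adm z B)) ∪ ((S.adm z B) \ (S.adm y B))),
      (1 : ℝ) = S.ch y z k := by
    intro k hk
    have hkB := h1 hk
    unfold Sys.ch
    rw [if_neg]
    intro hiff
    rcases Finset.mem_union.1 hk with h | h
    · obtain ⟨h3, h4⟩ := Finset.mem_sdiff.1 h
      exact h4 ((OrbP.mem_adm S _ _ _).2 ⟨hkB, hiff.1 ((OrbP.mem_adm S _ _ _).1 h3).2⟩)
    · obtain ⟨h3, h4⟩ := Finset.mem_sdiff.1 h
      exact h4 ((OrbP.mem_adm S _ _ _).2 ⟨hkB, hiff.2 ((OrbP.mem_adm S _ _ _).1 h3).2⟩)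
  calc _ = (((((S.adm y B) \ (S.adm z B)) ∪ ((S.adm z B) \ (S.adm y B))).card : ℕ) : ℝ) := by
        rw [Finset.card_union_of_disjoint hdisj]
        push_cast
        rfl
    _ = ∑ k ∈ (((S.adm y B) \ (S.adm z B)) ∪ ((S.adm z B) \ (S.adm y B))), (1 : ℝ) := by
        rw [Finset.sum_const, nsmul_eq_mul, mul_one]
    _ = ∑ k ∈ (((S.adm y B) \ (S.adm z B)) ∪ ((S.adm z B) \ (S.adm y B))), S.ch y z k :=
        Finset.sum_congr rfl h2
    _ ≤ _ := Finset.sum_le_sum_of_subset_of_nonneg h1 fun k _ _ => OrbP.ch_nonneg S y z k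

theorem OrbP.tri_nonneg (j : ℕ) (x : ℝ) : 0 ≤ tri j x := le_max_left _ _

theorem OrbP.tri_le_one (j : ℕ) (x : ℝ) : tri j x ≤ 1 := by
  unfold tri
  refine max_le (by norm_num) ?_
  have : 0 ≤ |x| / 2 ^ j := by positivity
  linarith

theorem OrbP.tri_congr (j : ℕ) {x x' : ℝ} (h : |x| = |x'|) : tri j x = tri j x' := by
  unfold tri
  rw [h]

theorem OrbP.card_eq (P Q : Finset ℕ) :
    (Q.card : ℝ) + ((P \ Q).card : ℝ) = (P.card : ℝ) + ((Q \ P).card : ℝ) := by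
  have h1 := Finset.card_sdiff_add_card_inter P Q
  have h2 := Finset.card_sdiff_add_card_inter Q P
  rw [Finset.inter_comm] at h2
  have h3 : Q.card + (P \ Q).card = P.card + (Q \ P).card := by omega
  exact_mod_cast h3

/-- stability of `qq` -/
theorem OrbP.qq_le (v v' : ℕ → ℝ) (j : ℕ) (P Q : Finset ℕ) (k : ℕ) {c d : ℝ} (hc : 0 < c)
    (hd : 0 < d) (hd' : d ≤ 1 / 10 ^ 8)
    (h1 : ((P \ Q).card : ℝ) + ((Q \ P).card : ℝ) + |(P.card : ℝ) - c| ≤ d * c / 2)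
    (hv : ∀ l ∈ Q, |v' l - v' k| = |v l - v k|) (hq : qq v j P k ≤ 1 / 2000) :
    qq v' j Q k ≤ 1 / 1600 := by
  have hdc : d * c ≤ c / 10 ^ 8 := by
    have := mul_le_mul_of_nonneg_right hd' hc.le
    linarith
  have hPQ := OrbP.card_eq P Q
  have n1 : (0 : ℝ) ≤ ((P \ Q).card : ℝ) := Nat.cast_nonneg _
  have n2 : (0 : ℝ) ≤ ((Q \ P).card : ℝ) := Nat.cast_nonneg _
  have habs := abs_le.1 (show |(P.card : ℝ) - c| ≤ d * c / 2 by linarith)
  have hP : c / 2 < (P.card : ℝ) := by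
    have : d * c / 2 < c / 2 := by
      have : c / 10 ^ 8 < c := by
        rw [div_lt_iff₀ (by norm_num)]
        nlinarith
      linarith
    linarith [habs.1]
  have hQ : c / 2 < (Q.card : ℝ) := by
    have : c / 10 ^ 8 < c / 4 := by
      rw [div_lt_div_iff_of_pos_left hc (by norm_num) (by norm_num)]
      norm_num
    linarith [habs.1, abs_nonneg ((P.card : ℝ) - c)]
  have hP0 : (0 : ℝ) < P.card := by linarith
  have hQ0 : (0 : ℝ) < Q.card := by linarith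
  have hsumQ : ∑ l ∈ Q, tri j (v' l - v' k) = ∑ l ∈ Q, tri j (v l - v k) :=
    Finset.sum_congr rfl fun l hl => OrbP.tri_congr j (hv l hl)
  have hPs : ∑ l ∈ P, tri j (v l - v k) ≤ ∑ l ∈ Q, tri j (v l - v k) + ((P \ Q).card : ℝ) := by
    have h2 : ∑ l ∈ P, tri j (v l - v k) = ∑ l ∈ P \ Q, tri j (v l - v k) +
        ∑ l ∈ P ∩ Q, tri j (v l - v k) := by
      rw [← Finset.sum_union (Finset.disjoint_left.2 fun l hl hl' =>
        (Finset.mem_sdiff.1 hl).2 (Finset.mem_inter.1 hl').2), Finset.sdiff_union_inter]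
    have h3 : ∑ l ∈ P \ Q, tri j (v l - v k) ≤ ((P \ Q).card : ℝ) := by
      calc _ ≤ ∑ l ∈ P \ Q, (1 : ℝ) := Finset.sum_le_sum fun l _ => OrbP.tri_le_one j _
        _ = _ := by rw [Finset.sum_const, nsmul_eq_mul, mul_one]
    have h4 : ∑ l ∈ P ∩ Q, tri j (v l - v k) ≤ ∑ l ∈ Q, tri j (v l - v k) :=
      Finset.sum_le_sum_of_subset_of_nonneg Finset.inter_subset_right
        fun l _ _ => OrbP.tri_nonneg j _
    linarith
  have hq' : (1 - 1 / 2000) * (P.card : ℝ) ≤ ∑ l ∈ P, tri j (v l - v k) := by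
    unfold qq at hq
    have h5 : 1 - 1 / 2000 ≤ (∑ l ∈ P, tri j (v l - v k)) / (P.card : ℝ) := by linarith
    rwa [le_div_iff₀ hP0] at h5
  unfold qq
  rw [hsumQ]
  have h6 : 1 - 1 / 1600 ≤ (∑ l ∈ Q, tri j (v l - v k)) / (Q.card : ℝ) := by
    rw [le_div_iff₀ hQ0]
    have h7 : d * c / 2 ≤ (1 / 10 ^ 8) * (Q.card : ℝ) := by
      have : c / 10 ^ 8 / 2 ≤ (1 / 10 ^ 8) * (Q.card : ℝ) := by nlinarith
      linarith
    have h8 : (Q.card : ℝ) - ((Q \ P).card : ℝ) ≤ P.card := by linarith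
    have h9 := abs_nonneg ((P.card : ℝ) - c)
    nlinarith
  linarith

theorem orb_path (S : Sys Y ν) (n N : ℕ) {c d : ℝ} (hc : 0 < c) (hd : 0 < d)
    (hd' : d ≤ 1 / 10 ^ 8) (i : Fin N → ℕ) (hi : ∀ a : Fin N, i a ∈ blk n a) :
    ∀ᵐ y ∂ν, (∀ a : Fin N, i a ∈ S.adm y (blk n a)) → S.bd n N d c i y < 1 →
      ∀ s : Fin N → Bool,
        (∀ a : Fin N, i a ∈ S.adm (S.TT (ex i) (exb s) N y) (blk n a)) ∧
        (∀ a < N, ((S.adm (S.TT (ex i) (exb s) N y) (blk n a)).card : ℝ) ≤ (1 + d) * c) ∧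
        ∀ j a b, a < b → b < N →
          qq (S.V y) j (S.adm y (blk n a)) (ex i a) ≤ 1 / 2000 →
          qq (S.V y) j (S.adm y (blk n b)) (ex i b) ≤ 1 / 2000 →
          (2 : ℝ) ^ j ≤ |Sab (S.V y) (ex i) (exb s) a b| →
          9 / 5 ≤ ds (S.V (S.TT (ex i) (exb s) N y)) j c
            (S.adm (S.TT (ex i) (exb s) N y) (blk n a))
            (S.adm (S.TT (ex i) (exb s) N y) (blk n b)) := by
  have hex : ∀ a (h : a < N), ex i a = i ⟨a, h⟩ := fun a h => by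
    unfold ex
    rw [dif_pos h]
  have hexb : ∀ a < N, ex i a ∈ blk n a := fun a h => by
    rw [hex a h]
    exact hi ⟨a, h⟩
  have hall : ∀ᵐ y ∂ν, ∀ s : Fin N → Bool,
      (∀ e < N, S.Th (ex i e : ℤ) (S.TT (ex i) (exb s) e y) ∈ S.A) →
      (∀ a < N, ∀ k ∈ blk n a, |S.V (S.TT (ex i) (exb s) N y) k -
        S.V (S.TT (ex i) (exb s) N y) (ex i a)| = |S.V y k - S.V y (ex i a)|) ∧
      (∀ a b, a < b → b < N → |S.V (S.TT (ex i) (exb s) N y) (ex i a) -
        S.V (S.TT (ex i) (exb s) N y) (ex i b)| = |Sab (S.V y) (ex i) (exb s) a b|) :=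
    ae_all_iff.2 fun s => V_TT S n N (ex i) hexb (exb s)
  filter_upwards [hall] with y hy hadm hbd s
  have hA : ∀ a < N, S.Th (ex i a : ℤ) y ∈ S.A := fun a h => by
    rw [hex a h]
    exact ((OrbP.mem_adm S _ _ _).1 (hadm ⟨a, h⟩)).2
  obtain ⟨hV1, hV2⟩ := hy s fun e he =>
    (OrbP.ch_lt S y _ _ (OrbP.key S n N hc hd i y hbd s e e he.le he).1).1 (hA e he)
  set z := S.TT (ex i) (exb s) N y with hz
  have hkey : ∀ a < N, ((S.adm y (blk n a) \ S.adm z (blk n a)).card : ℝ) +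
      ((S.adm z (blk n a) \ S.adm y (blk n a)).card : ℝ) +
      |((S.adm y (blk n a)).card : ℝ) - c| ≤ d * c / 2 := fun a ha => by
    have h1 := (OrbP.key S n N hc hd i y hbd s N a le_rfl ha).2
    have h2 := OrbP.symm_card S y z (blk n a)
    linarith
  have hcard : ∀ a < N, |((S.adm z (blk n a)).card : ℝ) - c| ≤ d * c := fun a ha => by
    have h1 := hkey a ha
    have h2 := OrbP.card_eq (S.adm y (blk n a)) (S.adm z (blk n a))
    have n1 : (0 : ℝ) ≤ ((S.adm y (blk n a) \ S.adm z (blk n a)).card : ℝ) := Nat.cast_nonneg _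
    have n2 : (0 : ℝ) ≤ ((S.adm z (blk n a) \ S.adm y (blk n a)).card : ℝ) := Nat.cast_nonneg _
    have h3 := abs_le.1 (show |((S.adm y (blk n a)).card : ℝ) - c| ≤ d * c / 2 by linarith)
    rw [abs_le]
    constructor <;> linarith [h3.1, h3.2, abs_nonneg (((S.adm y (blk n a)).card : ℝ) - c)]
  have hdc : d * c ≤ c / 10 ^ 8 := by
    have := mul_le_mul_of_nonneg_right hd' hc.le
    linarith
  refine ⟨fun a => ?_, fun a ha => ?_, fun j a b hab hb hqa hqb hS => ?_⟩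
  · refine (OrbP.mem_adm S _ _ _).2 ⟨hi a, ?_⟩
    have h1 := OrbP.ch_lt S y _ _ (OrbP.key S n N hc hd i y hbd s N a le_rfl a.2).1
    rw [hex a a.2] at h1
    exact h1.1 ((OrbP.mem_adm S _ _ _).1 (hadm a)).2
  · have h1 := (abs_le.1 (hcard a ha)).2
    linarith
  · have ha : a < N := hab.trans hb
    refine ds_ge_far (S.V z) j hc _ _ ((hcard a ha).trans hdc) ((hcard b hb).trans hdc)
      (ex i a) (ex i b) ?_ ?_ ?_
    · exact OrbP.qq_le (S.V y) (S.V z) j _ _ (ex i a) hc hd hd' (hkey a ha)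
        (fun l hl => hV1 a ha l ((OrbP.mem_adm S _ _ _).1 hl).1) hqa
    · exact OrbP.qq_le (S.V y) (S.V z) j _ _ (ex i b) hc hd hd' (hkey b hb)
        (fun l hl => hV1 b hb l ((OrbP.mem_adm S _ _ _).1 hl).1) hqb
    · rw [hV2 a b hab hb]
      exact hS

end Sys

end Pool.Agent.EAG
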