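import Pool.Agent.EAG.Ker

/-! # EAG-PAIR: three lower bounds for the Hilbert distance of two empirical vectors -/

open MeasureTheory Filter Topology Finset

namespace Pool.Agent.EAG

section
variable {H : Type} [NormedAddCommGroup H] [InnerProductSpace ℝ H] {φ : ℕ → ℝ → H}

theorem pair_inner (hφ : ∀ j x y, inner ℝ (φ j x) (φ j y) = tri j (x - y)) (v : ℕ → ℝ) (j : ℕ)
    (B C : Finset ℕ) :
    inner ℝ (∑ k ∈ B, φ j (v k)) (∑ l ∈ C, φ j (v l)) = en v j B C := by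
  unfold en
  rw [sum_inner]
  refine Finset.sum_congr rfl fun k _ => ?_
  rw [inner_sum]
  exact Finset.sum_congr rfl fun l _ => hφ _ _ _

theorem pair_normsq (hφ : ∀ j x y, inner ℝ (φ j x) (φ j y) = tri j (x - y)) (v : ℕ → ℝ) (j : ℕ)
    (B : Finset ℕ) : ‖∑ k ∈ B, φ j (v k)‖ ^ 2 = en v j B B := by
  rw [← real_inner_self_eq_norm_sq, pair_inner hφ]

theorem pair_unit (hφ : ∀ j x y, inner ℝ (φ j x) (φ j y) = tri j (x - y)) (j : ℕ) (x : ℝ) :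
    ‖φ j x‖ ^ 2 = 1 := by
  rw [← real_inner_self_eq_norm_sq, hφ, sub_self, tri_zero]

theorem pair_ds (hφ : ∀ j x y, inner ℝ (φ j x) (φ j y) = tri j (x - y)) (v : ℕ → ℝ) (j : ℕ)
    (c : ℝ) (B C : Finset ℕ) :
    ds v j c B C = ‖(∑ k ∈ B, φ j (v k)) - ∑ l ∈ C, φ j (v l)‖ ^ 2 / c ^ 2 := by
  unfold ds
  rw [norm_sub_sq_real, pair_normsq hφ, pair_normsq hφ, pair_inner hφ]

theorem pair_ds' (hφ : ∀ j x y, inner ℝ (φ j x) (φ j y) = tri j (x - y)) (v : ℕ → ℝ) (j : ℕ)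
    (c : ℝ) (B C : Finset ℕ) :
    ds v j c B C = ‖c⁻¹ • (∑ k ∈ B, φ j (v k)) - c⁻¹ • ∑ l ∈ C, φ j (v l)‖ ^ 2 := by
  rw [pair_ds hφ, ← smul_sub, norm_smul, mul_pow, Real.norm_eq_abs, sq_abs, inv_pow,
    inv_mul_eq_div]

/-- a concentrated set is close to its centre -/
theorem pair_close (hφ : ∀ j x y, inner ℝ (φ j x) (φ j y) = tri j (x - y)) (v : ℕ → ℝ) (j : ℕ)
    {c : ℝ} (hc : 0 < c) (B : Finset ℕ) (hB : |(B.card : ℝ) - c| ≤ c / 10 ^ 8) (k : ℕ)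
    (hk : qq v j B k ≤ 1 / 1600) :
    ‖c⁻¹ • (∑ l ∈ B, φ j (v l)) - φ j (v k)‖ ≤ 0.0354 := by
  set M := ∑ l ∈ B, φ j (v l) with hM
  set b : ℝ := (B.card : ℝ) with hb
  have hB1 := (abs_le.1 hB).1
  have hB2 := (abs_le.1 hB).2
  have hbpos : 0 < b := by linarith
  have h1 : ‖M‖ ^ 2 ≤ b ^ 2 := by
    rw [hM, pair_normsq hφ, sq]
    exact en_le v j B B
  have hMb : ‖M‖ ≤ b := le_of_sq_le_sq h1 hbpos.le
  have h2 : inner ℝ M (φ j (v k)) = b * (1 - qq v j B k) := by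
    rw [hM, sum_inner]
    unfold qq
    have : ∑ l ∈ B, inner ℝ (φ j (v l)) (φ j (v k)) = ∑ l ∈ B, tri j (v l - v k) :=
      Finset.sum_congr rfl fun l _ => hφ _ _ _
    rw [this, sub_sub_cancel, ← hb]
    field_simp
  have h3 : ‖b⁻¹ • M - φ j (v k)‖ ^ 2 ≤ 1 / 800 := by
    rw [norm_sub_sq_real, norm_smul, mul_pow, pair_unit hφ, inner_smul_left, h2, Real.norm_eq_abs,
      sq_abs]
    have e1 : (starRingEnd ℝ) b⁻¹ * (b * (1 - qq v j B k)) = 1 - qq v j B k := by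
      change b⁻¹ * (b * (1 - qq v j B k)) = _
      field_simp
    rw [e1]
    have e2 : b⁻¹ ^ 2 * ‖M‖ ^ 2 ≤ 1 := by
      rw [inv_pow, inv_mul_eq_div]
      exact div_le_one_of_le₀ h1 (by positivity)
    linarith
  have h4 : ‖b⁻¹ • M - φ j (v k)‖ ≤ 0.03536 := by
    have : ‖b⁻¹ • M - φ j (v k)‖ ^ 2 ≤ 0.03536 ^ 2 := h3.trans (by norm_num)
    exact le_of_sq_le_sq this (by norm_num)
  have h5 : ‖(c⁻¹ - b⁻¹) • M‖ ≤ 1 / 10 ^ 8 := by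
    rw [norm_smul, Real.norm_eq_abs]
    have e1 : c⁻¹ - b⁻¹ = (b - c) / (c * b) := by
      field_simp
    rw [e1, abs_div, abs_of_pos (mul_pos hc hbpos)]
    calc |b - c| / (c * b) * ‖M‖ ≤ (c / 10 ^ 8) / (c * b) * b := by
          refine mul_le_mul (div_le_div_of_nonneg_right hB (mul_pos hc hbpos).le) hMb
            (norm_nonneg _) (by positivity)
      _ = 1 / 10 ^ 8 := by field_simp
  have h6 : c⁻¹ • M - φ j (v k) = (c⁻¹ - b⁻¹) • M + (b⁻¹ • M - φ j (v k)) := by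
    rw [sub_smul]
    abel
  rw [h6]
  calc _ ≤ ‖(c⁻¹ - b⁻¹) • M‖ + ‖b⁻¹ • M - φ j (v k)‖ := norm_add_le _ _
    _ ≤ 1 / 10 ^ 8 + 0.03536 := add_le_add h5 h4
    _ ≤ 0.0354 := by norm_num

end

/-- `ds` is a squared norm over `c ^ 2`. -/
theorem ds_nonneg (v : ℕ → ℝ) (j : ℕ) (c : ℝ) (B C : Finset ℕ) : 0 ≤ ds v j c B C := by
  obtain ⟨H, i1, i2, φ, hφ⟩ := exists_features
  rw [pair_ds hφ]
  positivity

/-- two concentrated sets, centred at the points `k` and `l` with `|v k - v l| ≥ 2 ^ j`. -/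
theorem ds_ge_far (v : ℕ → ℝ) (j : ℕ) {c : ℝ} (hc : 0 < c) (B C : Finset ℕ)
    (hB : |(B.card : ℝ) - c| ≤ c / 10 ^ 8) (hC : |(C.card : ℝ) - c| ≤ c / 10 ^ 8) (k l : ℕ)
    (hk : qq v j B k ≤ 1 / 1600) (hl : qq v j C l ≤ 1 / 1600)
    (hkl : (2 : ℝ) ^ j ≤ |v k - v l|) : 9 / 5 ≤ ds v j c B C := by
  obtain ⟨H, i1, i2, φ, hφ⟩ := exists_features
  rw [pair_ds' hφ v j c]
  have h1 := pair_close hφ v j hc B hB k hk
  have h2 := pair_close hφ v j hc C hC l hl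
  set x := c⁻¹ • (∑ k ∈ B, φ j (v k)) with hx
  set y := c⁻¹ • (∑ l ∈ C, φ j (v l)) with hy
  have h3 : ‖φ j (v k) - φ j (v l)‖ ^ 2 = 2 := by
    rw [norm_sub_sq_real, pair_unit hφ, pair_unit hφ, hφ, tri_eq_zero hkl]
    norm_num
  have h4 : 1.4142 ≤ ‖φ j (v k) - φ j (v l)‖ := by
    refine le_of_sq_le_sq ?_ (norm_nonneg _)
    rw [h3]
    norm_num
  have h5 : φ j (v k) - φ j (v l) = (x - y) - (x - φ j (v k)) + (y - φ j (v l)) := by abel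
  have h6 : ‖φ j (v k) - φ j (v l)‖ ≤ ‖x - y‖ + ‖x - φ j (v k)‖ + ‖y - φ j (v l)‖ := by
    rw [h5]
    exact (norm_add_le _ _).trans (add_le_add (norm_sub_le _ _) le_rfl)
  have h7 : 1.3434 ≤ ‖x - y‖ := by linarith
  calc (9 / 5 : ℝ) ≤ 1.3434 ^ 2 := by norm_num
    _ ≤ ‖x - y‖ ^ 2 := pow_le_pow_left₀ (by norm_num) h7 2

/-- a spread set and a concentrated set: `(‖M_C‖ - ‖M_B‖) ^ 2 ≤ ‖M_C - M_B‖ ^ 2`. -/
theorem ds_ge_spread (v : ℕ → ℝ) (j : ℕ) {c : ℝ} (hc : 0 < c) (B C : Finset ℕ)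
    (hB : |(B.card : ℝ) - c| ≤ c / 10 ^ 8) (hC : |(C.card : ℝ) - c| ≤ c / 10 ^ 8)
    (h1 : 1 / 200000 ≤ spr v j B) (h2 : spr v j C < 1 / 400000) :
    1 / 10 ^ 12 ≤ ds v j c B C := by
  obtain ⟨H, i1, i2, φ, hφ⟩ := exists_features
  rw [pair_ds' hφ v j c]
  have hB1 := (abs_le.1 hB).1
  have hB2 := (abs_le.1 hB).2
  have hC1 := (abs_le.1 hC).1
  have hC2 := (abs_le.1 hC).2
  have hb : (0 : ℝ) < B.card := by linarith
  have hc' : (0 : ℝ) < C.card := by linarith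
  have eB : en v j B B = (B.card : ℝ) ^ 2 * (1 - spr v j B) := by
    unfold spr
    rw [sub_sub_cancel]
    field_simp
  have eC : en v j C C = (C.card : ℝ) ^ 2 * (1 - spr v j C) := by
    unfold spr
    rw [sub_sub_cancel]
    field_simp
  have key : ∀ D : Finset ℕ, ‖c⁻¹ • (∑ k ∈ D, φ j (v k))‖ ^ 2 = en v j D D / c ^ 2 := by
    intro D
    rw [norm_smul, mul_pow, pair_normsq hφ, Real.norm_eq_abs, sq_abs, inv_pow, inv_mul_eq_div]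
  have kB := key B
  have kC := key C
  set x := c⁻¹ • (∑ k ∈ B, φ j (v k)) with hx
  set y := c⁻¹ • (∑ l ∈ C, φ j (v l)) with hy
  rw [eB] at kB
  rw [eC] at kC
  have hrB : (B.card : ℝ) / c ≤ 1 + 1 / 10 ^ 8 := by
    rw [div_le_iff₀ hc]
    linarith
  have hrC : 1 - 1 / 10 ^ 8 ≤ (C.card : ℝ) / c := by
    rw [le_div_iff₀ hc]
    linarith
  have hxn : ‖x‖ ≤ 1 - 2.48 / 10 ^ 6 := by
    refine le_of_sq_le_sq ?_ (by norm_num)
    rw [kB]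
    have e1 : (B.card : ℝ) ^ 2 * (1 - spr v j B) / c ^ 2 =
        ((B.card : ℝ) / c) ^ 2 * (1 - spr v j B) := by
      field_simp
    rw [e1]
    have e2 : ((B.card : ℝ) / c) ^ 2 ≤ (1 + 1 / 10 ^ 8) ^ 2 :=
      pow_le_pow_left₀ (by positivity) hrB 2
    have e3 : 0 ≤ 1 - spr v j B := by linarith [spr_le_one v j B]
    calc ((B.card : ℝ) / c) ^ 2 * (1 - spr v j B) ≤ (1 + 1 / 10 ^ 8) ^ 2 * (1 - 1 / 200000) :=
          mul_le_mul e2 (by linarith) e3 (by positivity)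
      _ ≤ (1 - 2.48 / 10 ^ 6) ^ 2 := by norm_num
  have hyn : 1 - 1.27 / 10 ^ 6 ≤ ‖y‖ := by
    refine le_of_sq_le_sq ?_ (norm_nonneg _)
    rw [kC]
    have e1 : (C.card : ℝ) ^ 2 * (1 - spr v j C) / c ^ 2 =
        ((C.card : ℝ) / c) ^ 2 * (1 - spr v j C) := by
      field_simp
    rw [e1]
    have e2 : (1 - 1 / 10 ^ 8) ^ 2 ≤ ((C.card : ℝ) / c) ^ 2 :=
      pow_le_pow_left₀ (by norm_num) hrC 2
    calc ((1 : ℝ) - 1.27 / 10 ^ 6) ^ 2 ≤ (1 - 1 / 10 ^ 8) ^ 2 * (1 - 1 / 400000) := by norm_num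
      _ ≤ ((C.card : ℝ) / c) ^ 2 * (1 - spr v j C) :=
          mul_le_mul e2 (by linarith) (by norm_num) (by positivity)
  have h3 : ‖y‖ - ‖x‖ ≤ ‖x - y‖ := by
    rw [norm_sub_rev]
    exact norm_sub_norm_le y x
  have h4 : 1 / 10 ^ 6 ≤ ‖x - y‖ := by linarith
  calc (1 / 10 ^ 12 : ℝ) = (1 / 10 ^ 6) ^ 2 := by norm_num
    _ ≤ ‖x - y‖ ^ 2 := pow_le_pow_left₀ (by norm_num) h4 2

theorem ds_comm (v : ℕ → ℝ) (j : ℕ) (c : ℝ) (B C : Finset ℕ) :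
    ds v j c B C = ds v j c C B := by
  unfold ds
  rw [en_comm v j C B]
  ring

end Pool.Agent.EAG
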