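import Pool.Agent.EAG.Defs

/-! # EAG-RANK: most pairs have many intermediate blocks of the same level -/

open MeasureTheory Filter Topology Finset

namespace Pool.Agent.EAG

/-- the good pairs -/
def gp (N m P : ℕ) (p r : ℕ → ℕ) : Finset (ℕ × ℕ) :=
  (prs N).filter (fun q => max (p q.1) (p q.2) ≤ P ∧
    m ≤ ((Finset.Ioo q.1 q.2).filter (fun c => max (max (p q.1) (p q.2)) 1 ≤ r c)).card)

theorem card_prs (N : ℕ) : 2 * (prs N).card = N * (N - 1) := by
  have h1 : (prs N).card = ∑ b ∈ Finset.range N, b := by
    unfold prs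
    rw [Finset.card_filter, Finset.sum_product_right]
    refine Finset.sum_congr rfl fun b hb => ?_
    rw [← Finset.card_filter]
    have h2 : (Finset.range N).filter (fun a => a < b) = Finset.range b := by
      ext a
      simp only [Finset.mem_filter, Finset.mem_range]
      have := Finset.mem_range.mp hb
      omega
    rw [h2, Finset.card_range]
  rw [h1, mul_comm, Finset.sum_range_id_mul_two]

/-- fibers over the right end -/
theorem fiber_left (N m b v : ℕ) (hv : 1 ≤ v) (p r : ℕ → ℕ) (hpr : ∀ a, p a ≤ r a) :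
    ((Finset.range N).filter (fun a => a < b ∧ p a = v ∧ p b ≤ v ∧
      ((Finset.Ioo a b).filter (fun c => max (max (p a) (p b)) 1 ≤ r c)).card < m)).card ≤ m := by
  classical
  set S := (Finset.range N).filter (fun a => a < b ∧ p a = v ∧ p b ≤ v ∧
      ((Finset.Ioo a b).filter (fun c => max (max (p a) (p b)) 1 ≤ r c)).card < m) with hS
  rcases S.eq_empty_or_nonempty with h0 | h0
  · rw [h0]
    simp
  · have ha := S.min'_mem h0
    set a0 := S.min' h0 with ha0
    have ha' := ha
    rw [hS, Finset.mem_filter] at ha'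
    obtain ⟨_, hab, hpa, hpb, hlt⟩ := ha'
    have hsub : S.erase a0 ⊆ (Finset.Ioo a0 b).filter
        (fun c => max (max (p a0) (p b)) 1 ≤ r c) := by
      intro c hc
      rw [Finset.mem_erase] at hc
      have hle : a0 ≤ c := Finset.min'_le _ _ hc.2
      have hc2 := hc.2
      rw [hS, Finset.mem_filter] at hc2
      obtain ⟨_, hcb, hpc, _, _⟩ := hc2
      have h3 := hpr c
      rw [Finset.mem_filter, Finset.mem_Ioo]
      refine ⟨⟨lt_of_le_of_ne hle (Ne.symm hc.1), hcb⟩, ?_⟩
      rw [hpa]
      simp only [max_le_iff]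
      omega
    have h4 := Finset.card_le_card hsub
    rw [Finset.card_erase_of_mem ha] at h4
    omega

/-- fibers over the left end -/
theorem fiber_right (N m a v : ℕ) (hv : 1 ≤ v) (p r : ℕ → ℕ) (hpr : ∀ a, p a ≤ r a) :
    ((Finset.range N).filter (fun b => a < b ∧ p b = v ∧ p a ≤ v ∧
      ((Finset.Ioo a b).filter (fun c => max (max (p a) (p b)) 1 ≤ r c)).card < m)).card ≤ m := by
  classical
  set S := (Finset.range N).filter (fun b => a < b ∧ p b = v ∧ p a ≤ v ∧
      ((Finset.Ioo a b).filter (fun c => max (max (p a) (p b)) 1 ≤ r c)).card < m) with hS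
  rcases S.eq_empty_or_nonempty with h0 | h0
  · rw [h0]
    simp
  · have ha := S.max'_mem h0
    set b0 := S.max' h0 with hb0
    have ha' := ha
    rw [hS, Finset.mem_filter] at ha'
    obtain ⟨_, hab, hpb, hpa, hlt⟩ := ha'
    have hsub : S.erase b0 ⊆ (Finset.Ioo a b0).filter
        (fun c => max (max (p a) (p b0)) 1 ≤ r c) := by
      intro c hc
      rw [Finset.mem_erase] at hc
      have hle : c ≤ b0 := Finset.le_max' _ _ hc.2
      have hc2 := hc.2
      rw [hS, Finset.mem_filter] at hc2
      obtain ⟨_, hcb, hpc, _, _⟩ := hc2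
      have h3 := hpr c
      rw [Finset.mem_filter, Finset.mem_Ioo]
      refine ⟨⟨hcb, lt_of_le_of_ne hle hc.1⟩, ?_⟩
      rw [hpb]
      simp only [max_le_iff]
      omega
    have h4 := Finset.card_le_card hsub
    rw [Finset.card_erase_of_mem ha] at h4
    omega

theorem rank_pairs (N m P Q R e : ℕ) (p r : ℕ → ℕ) (hpr : ∀ a, p a ≤ r a)
    (hP : ((Finset.range N).filter (fun a => P < p a)).card ≤ e)
    (hQ : ((Finset.range N).filter (fun a => r a < Q)).card ≤ e)
    (hQ1 : 1 ≤ Q) (hPQ : P ≤ Q + R) :
    (prs N).card ≤ (gp N m P p r).card + (3 * e * N + N * m * (2 * R + 3)) := by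
  classical
  set F := (Finset.range N).filter (fun a => P < p a) with hF
  -- the five exceptional sets
  set B1 := F ×ˢ Finset.range N with hB1
  set B2 := Finset.range N ×ˢ F with hB2
  set B3 := (Finset.range N).biUnion (fun a => (Finset.Ioc a (a + m + e)).image (fun b => (a, b)))
    with hB3
  set B4 := (Finset.range N ×ˢ Finset.Icc Q P).biUnion (fun w =>
    (((Finset.range N).filter (fun a => a < w.1 ∧ p a = w.2 ∧ p w.1 ≤ w.2 ∧
      ((Finset.Ioo a w.1).filter (fun c => max (max (p a) (p w.1)) 1 ≤ r c)).card < m)).image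
      (fun a => (a, w.1)))) with hB4
  set B5 := (Finset.range N ×ˢ Finset.Icc Q P).biUnion (fun w =>
    (((Finset.range N).filter (fun b => w.1 < b ∧ p b = w.2 ∧ p w.1 ≤ w.2 ∧
      ((Finset.Ioo w.1 b).filter (fun c => max (max (p w.1) (p b)) 1 ≤ r c)).card < m)).image
      (fun b => (w.1, b)))) with hB5
  have h1 : B1.card ≤ e * N := by
    rw [hB1, Finset.card_product, Finset.card_range]
    exact Nat.mul_le_mul_right _ hP
  have h2 : B2.card ≤ N * e := by
    rw [hB2, Finset.card_product, Finset.card_range]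
    exact Nat.mul_le_mul_left _ hP
  have h3 : B3.card ≤ N * (m + e) := by
    refine (Finset.card_biUnion_le_card_mul _ _ (m + e) fun a _ => ?_).trans ?_
    · refine Finset.card_image_le.trans ?_
      rw [Nat.card_Ioc]
      omega
    · rw [Finset.card_range]
  have hIcc : (Finset.Icc Q P).card ≤ R + 1 := by
    rw [Nat.card_Icc]
    omega
  have h4 : B4.card ≤ (N * (R + 1)) * m := by
    refine (Finset.card_biUnion_le_card_mul _ _ m fun w hw => ?_).trans ?_
    · refine Finset.card_image_le.trans ?_
      rw [Finset.mem_product, Finset.mem_Icc] at hw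
      exact fiber_left N m w.1 w.2 (hQ1.trans hw.2.1) p r hpr
    · rw [Finset.card_product, Finset.card_range]
      exact Nat.mul_le_mul_right _ (Nat.mul_le_mul_left _ hIcc)
  have h5 : B5.card ≤ (N * (R + 1)) * m := by
    refine (Finset.card_biUnion_le_card_mul _ _ m fun w hw => ?_).trans ?_
    · refine Finset.card_image_le.trans ?_
      rw [Finset.mem_product, Finset.mem_Icc] at hw
      exact fiber_right N m w.1 w.2 (hQ1.trans hw.2.1) p r hpr
    · rw [Finset.card_product, Finset.card_range]
      exact Nat.mul_le_mul_right _ (Nat.mul_le_mul_left _ hIcc)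
  have hsub : prs N ⊆ gp N m P p r ∪ (B1 ∪ (B2 ∪ (B3 ∪ (B4 ∪ B5)))) := by
    rintro ⟨a, b⟩ hq
    have hq' := hq
    unfold prs at hq'
    simp only [Finset.mem_filter, Finset.mem_product, Finset.mem_range] at hq'
    obtain ⟨⟨haN, hbN⟩, hab⟩ := hq'
    by_cases hg : (a, b) ∈ gp N m P p r
    · exact Finset.mem_union_left _ hg
    refine Finset.mem_union_right _ ?_
    by_cases hPa : P < p a
    · refine Finset.mem_union_left _ ?_
      rw [hB1, Finset.mem_product, hF, Finset.mem_filter, Finset.mem_range, Finset.mem_range]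
      exact ⟨⟨haN, hPa⟩, hbN⟩
    refine Finset.mem_union_right _ ?_
    by_cases hPb : P < p b
    · refine Finset.mem_union_left _ ?_
      rw [hB2, Finset.mem_product, hF, Finset.mem_filter, Finset.mem_range, Finset.mem_range]
      exact ⟨haN, hbN, hPb⟩
    refine Finset.mem_union_right _ ?_
    by_cases hd : b ≤ a + m + e
    · refine Finset.mem_union_left _ ?_
      rw [hB3, Finset.mem_biUnion]
      refine ⟨a, Finset.mem_range.mpr haN, ?_⟩
      rw [Finset.mem_image]
      exact ⟨b, Finset.mem_Ioc.mpr ⟨hab, hd⟩, rfl⟩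
    refine Finset.mem_union_right _ ?_
    push Not at hPa hPb hd
    -- few intermediate blocks
    have hfew : ((Finset.Ioo a b).filter (fun c => max (max (p a) (p b)) 1 ≤ r c)).card < m := by
      by_contra hcon
      push Not at hcon
      apply hg
      unfold gp
      rw [Finset.mem_filter]
      exact ⟨hq, max_le hPa hPb, hcon⟩
    -- the level is at least `Q`
    have hM : Q ≤ max (p a) (p b) := by
      by_contra hcon
      push Not at hcon
      have hsp : (Finset.Ioo a b).card =
          ((Finset.Ioo a b).filter (fun c => max (max (p a) (p b)) 1 ≤ r c)).card +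
          ((Finset.Ioo a b).filter (fun c => ¬ max (max (p a) (p b)) 1 ≤ r c)).card :=
        (Finset.card_filter_add_card_filter_not _).symm
      have hle : ((Finset.Ioo a b).filter
          (fun c => ¬ max (max (p a) (p b)) 1 ≤ r c)).card ≤ e := by
        refine (Finset.card_le_card ?_).trans hQ
        intro c hc
        rw [Finset.mem_filter, Finset.mem_Ioo] at hc
        rw [Finset.mem_filter, Finset.mem_range]
        refine ⟨hc.1.2.trans hbN, ?_⟩
        have h6 := hc.2
        push Not at h6
        refine h6.trans_le ?_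
        exact max_le hcon.le hQ1
      rw [Nat.card_Ioo] at hsp
      omega
    rcases le_total (p b) (p a) with hba | hba
    · refine Finset.mem_union_left _ ?_
      rw [hB4, Finset.mem_biUnion]
      refine ⟨(b, p a), ?_, ?_⟩
      · rw [Finset.mem_product, Finset.mem_range, Finset.mem_Icc]
        rw [max_eq_left hba] at hM
        exact ⟨hbN, hM, hPa⟩
      · rw [Finset.mem_image]
        refine ⟨a, ?_, rfl⟩
        rw [Finset.mem_filter, Finset.mem_range]
        exact ⟨haN, hab, rfl, hba, hfew⟩
    · refine Finset.mem_union_right _ ?_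
      rw [hB5, Finset.mem_biUnion]
      refine ⟨(a, p b), ?_, ?_⟩
      · rw [Finset.mem_product, Finset.mem_range, Finset.mem_Icc]
        rw [max_eq_right hba] at hM
        exact ⟨haN, hM, hPb⟩
      · rw [Finset.mem_image]
        refine ⟨b, ?_, rfl⟩
        rw [Finset.mem_filter, Finset.mem_range]
        exact ⟨hbN, hab, rfl, hba, hfew⟩
  have hc := Finset.card_le_card hsub
  have u1 := Finset.card_union_le (gp N m P p r) (B1 ∪ (B2 ∪ (B3 ∪ (B4 ∪ B5))))
  have u2 := Finset.card_union_le B1 (B2 ∪ (B3 ∪ (B4 ∪ B5)))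
  have u3 := Finset.card_union_le B2 (B3 ∪ (B4 ∪ B5))
  have u4 := Finset.card_union_le B3 (B4 ∪ B5)
  have u5 := Finset.card_union_le B4 B5
  have e1 : e * N + (N * e + (N * (m + e) + (N * (R + 1) * m + N * (R + 1) * m)))
      = 3 * e * N + N * m * (2 * R + 3) := by ring
  omega

end Pool.Agent.EAG
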