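import Pool.Agent.EAG.Defs

/-! # EAG-SPREAD: the profiles of most blocks change in a short window of scales -/

open MeasureTheory Filter Topology Finset

namespace Pool.Agent.EAG

/-- number of scales `j ≤ U` with `θ ≤ D j` -/
noncomputable def lev (U : ℕ) (θ : ℝ) (D : ℕ → ℝ) : ℕ :=
  ((Finset.range (U + 1)).filter (fun j => θ ≤ D j)).card

/-- an initial segment of `range (U + 1)` contains exactly the numbers below its cardinality -/
private theorem lt_card_iff {U : ℕ} (S : ℕ → Prop) [DecidablePred S]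
    (hS : ∀ i j, i ≤ j → S j → S i) {j : ℕ} (hj : j ≤ U) :
    j < ((Finset.range (U + 1)).filter S).card ↔ S j := by
  constructor
  · intro h
    by_contra hn
    have hsub : (Finset.range (U + 1)).filter S ⊆ Finset.range j := by
      intro i hi
      rw [Finset.mem_filter] at hi
      rw [Finset.mem_range]
      by_contra hij
      exact hn (hS _ _ (not_lt.mp hij) hi.2)
    have := Finset.card_le_card hsub
    rw [Finset.card_range] at this
    omega
  · intro h
    have hsub : Finset.range (j + 1) ⊆ (Finset.range (U + 1)).filter S := by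
      intro i hi
      rw [Finset.mem_range] at hi
      rw [Finset.mem_filter, Finset.mem_range]
      exact ⟨by omega, hS _ _ (by omega) h⟩
    have := Finset.card_le_card hsub
    rw [Finset.card_range] at this
    omega

theorem lt_lev {U : ℕ} {θ : ℝ} {D : ℕ → ℝ} (hD : Antitone D) {j : ℕ} (hj : j ≤ U) :
    j < lev U θ D ↔ θ ≤ D j := by
  unfold lev
  exact lt_card_iff (fun j => θ ≤ D j) (fun i j hij h => h.trans (hD hij)) hj

/-- two disjoint sets of more than `e` blocks contribute at least `e ^ 2 * κ` -/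
private theorem pair_sum (N e : ℕ) (A B : Finset ℕ) (hA : A ⊆ Finset.range N)
    (hB : B ⊆ Finset.range N) (hAB : Disjoint A B) (hAe : e ≤ A.card) (hBe : e ≤ B.card)
    (F : ℕ → ℕ → ℝ) (hF : ∀ a b, 0 ≤ F a b) (hFs : ∀ a b, F a b = F b a) {κ : ℝ} (hκ : 0 < κ)
    (hFκ : ∀ a ∈ A, ∀ b ∈ B, κ ≤ F a b) :
    (e : ℝ) ^ 2 * κ ≤ ∑ p ∈ prs N, F p.1 p.2 := by
  classical
  set f : ℕ × ℕ → ℕ × ℕ := fun p => if p.1 < p.2 then p else (p.2, p.1) with hf
  have hne : ∀ a ∈ A, ∀ b ∈ B, a ≠ b := fun a ha b hb h =>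
    (Finset.disjoint_left.mp hAB ha) (h ▸ hb)
  have hinj : Set.InjOn f (A ×ˢ B : Finset (ℕ × ℕ)) := by
    rintro ⟨a, b⟩ h1 ⟨a', b'⟩ h2 h
    rw [Finset.mem_coe, Finset.mem_product] at h1 h2
    simp only [hf] at h
    have e1 := hne a h1.1 b' h2.2
    have e2 := hne a' h2.1 b h1.2
    by_cases c1 : a < b <;> by_cases c2 : a' < b' <;> simp only [c1, c2, if_true, if_false,
      Prod.mk.injEq] at h ⊢
    · exact h
    · exact absurd h.1 e1
    · exact absurd h.2 e1
    · exact ⟨h.2, h.1⟩
  have himg : (A ×ˢ B).image f ⊆ prs N := by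
    intro q hq
    rw [Finset.mem_image] at hq
    obtain ⟨⟨a, b⟩, hp, rfl⟩ := hq
    rw [Finset.mem_product] at hp
    have ha := Finset.mem_range.mp (hA hp.1)
    have hb := Finset.mem_range.mp (hB hp.2)
    have hn := hne a hp.1 b hp.2
    simp only at ha hb hn
    unfold prs
    simp only [hf]
    by_cases c : a < b
    · simp only [c, if_true, Finset.mem_filter, Finset.mem_product, Finset.mem_range]
      exact ⟨⟨ha, hb⟩, trivial⟩
    · simp only [c, if_false, Finset.mem_filter, Finset.mem_product, Finset.mem_range]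
      exact ⟨⟨hb, ha⟩, by omega⟩
  have hval : ∀ p ∈ A ×ˢ B, κ ≤ F (f p).1 (f p).2 := by
    rintro ⟨a, b⟩ hp
    rw [Finset.mem_product] at hp
    have h0 := hFκ a hp.1 b hp.2
    simp only [hf]
    by_cases c : a < b
    · simp only [c, if_true]; exact h0
    · simp only [c, if_false]; rw [hFs]; exact h0
  calc (e : ℝ) ^ 2 * κ ≤ ((A ×ˢ B).card : ℝ) * κ := by
        apply mul_le_mul_of_nonneg_right _ hκ.le
        rw [Finset.card_product]
        push_cast
        have h1 : (e : ℝ) ≤ A.card := by exact_mod_cast hAe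
        have h2 : (e : ℝ) ≤ B.card := by exact_mod_cast hBe
        have h3 : (0 : ℝ) ≤ e := Nat.cast_nonneg _
        nlinarith
    _ = ∑ _p ∈ A ×ˢ B, κ := by rw [Finset.sum_const, nsmul_eq_mul]
    _ ≤ ∑ p ∈ A ×ˢ B, F (f p).1 (f p).2 := Finset.sum_le_sum hval
    _ = ∑ q ∈ (A ×ˢ B).image f, F q.1 q.2 := by
        rw [Finset.sum_image hinj]
    _ ≤ ∑ p ∈ prs N, F p.1 p.2 :=
        Finset.sum_le_sum_of_subset_of_nonneg himg (fun p _ _ => hF _ _)

/-- `D a j` are the spreads, `G a b j` the squared distances. -/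
theorem spread_window (U U0 N e : ℕ) (D : ℕ → ℕ → ℝ) (hD : ∀ a, Antitone (D a))
    (G : ℕ → ℕ → ℕ → ℝ) (hG : ∀ a b j, 0 ≤ G a b j) (hGs : ∀ a b j, G a b j = G b a j)
    {θ κ C : ℝ} (hθ : 0 < θ) (hκ : 0 < κ)
    (hGκ : ∀ a < N, ∀ b < N, ∀ j, θ ≤ D a j → D b j < θ / 2 → κ ≤ G a b j)
    (hU : U0 ≤ U)
    (h1 : ∑ j ∈ Finset.range (U + 1), (∑ p ∈ prs N, G p.1 p.2 j) / (N : ℝ) ^ 2 ≤ C)
    (h2 : ((Finset.range N).filter (fun a => D a 0 < θ / 2)).card ≤ e)
    (h3 : ((Finset.range N).filter (fun a => θ ≤ D a U0)).card ≤ e) :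
    ∃ P Q : ℕ, 1 ≤ Q ∧ P ≤ U0 ∧
      ((Finset.range N).filter (fun a => P < lev U θ (D a))).card ≤ e ∧
      ((Finset.range N).filter (fun a => lev U (θ / 2) (D a) < Q)).card ≤ e ∧
      ((P : ℝ) - Q) * ((e : ℝ) ^ 2 * κ) ≤ C * (N : ℝ) ^ 2 := by
  classical
  -- the two initial segments
  set SP : ℕ → Prop := fun j => e < ((Finset.range N).filter (fun a => θ ≤ D a j)).card with hSP
  set SQ : ℕ → Prop := fun j => ((Finset.range N).filter (fun a => D a j < θ / 2)).card ≤ e
    with hSQ
  have hSPi : ∀ i j, i ≤ j → SP j → SP i := by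
    intro i j hij h
    simp only [hSP] at h ⊢
    refine lt_of_lt_of_le h (Finset.card_le_card ?_)
    intro a ha
    rw [Finset.mem_filter] at ha ⊢
    exact ⟨ha.1, ha.2.trans (hD a hij)⟩
  have hSQi : ∀ i j, i ≤ j → SQ j → SQ i := by
    intro i j hij h
    simp only [hSQ] at h ⊢
    refine le_trans (Finset.card_le_card ?_) h
    intro a ha
    rw [Finset.mem_filter] at ha ⊢
    exact ⟨ha.1, lt_of_le_of_lt (hD a hij) ha.2⟩
  set P := ((Finset.range (U + 1)).filter SP).card with hP
  set Q := ((Finset.range (U + 1)).filter SQ).card with hQ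
  have iP : ∀ {j}, j ≤ U → (j < P ↔ SP j) := fun hj => lt_card_iff SP hSPi hj
  have iQ : ∀ {j}, j ≤ U → (j < Q ↔ SQ j) := fun hj => lt_card_iff SQ hSQi hj
  have hQ1 : 1 ≤ Q := (iQ (Nat.zero_le _)).mpr h2
  have hPU0 : P ≤ U0 := by
    by_contra h
    have := (iP hU).mp (not_le.mp h)
    exact absurd h3 (not_le.mpr this)
  have hPU : P ≤ U := hPU0.trans hU
  have hQU : Q ≤ U + 1 := by
    have := Finset.card_filter_le (Finset.range (U + 1)) SQ
    rw [Finset.card_range] at this
    exact this
  have hC : 0 ≤ C := by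
    refine le_trans (Finset.sum_nonneg (fun j _ => ?_)) h1
    exact div_nonneg (Finset.sum_nonneg (fun p _ => hG _ _ _)) (by positivity)
  refine ⟨P, Q, hQ1, hPU0, ?_, ?_, ?_⟩
  · -- levels above `P`
    have hnP : ¬ SP P := fun h => lt_irrefl _ ((iP hPU).mpr h)
    have : ((Finset.range N).filter (fun a => P < lev U θ (D a)))
        = ((Finset.range N).filter (fun a => θ ≤ D a P)) := by
      apply Finset.filter_congr
      intro a _
      exact lt_lev (hD a) hPU
    rw [this]
    exact not_lt.mp hnP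
  · -- levels below `Q`
    have hQm : SQ (Q - 1) := (iQ (by omega)).mp (by omega)
    have : ((Finset.range N).filter (fun a => lev U (θ / 2) (D a) < Q))
        = ((Finset.range N).filter (fun a => D a (Q - 1) < θ / 2)) := by
      apply Finset.filter_congr
      intro a _
      have hl := lt_lev (U := U) (θ := θ / 2) (hD a) (j := Q - 1) (by omega)
      constructor
      · intro h
        by_contra h'
        have := hl.mpr (not_lt.mp h')
        omega
      · intro h
        by_contra h'
        have := hl.mp (by omega)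
        exact absurd this (not_le.mpr h)
    rw [this]
    exact hQm
  · -- the length of the window
    rcases le_or_gt P Q with hPQ | hPQ
    · have h4 : ((P : ℝ) - Q) ≤ 0 := by
        have : (P : ℝ) ≤ Q := by exact_mod_cast hPQ
        linarith
      have h5 : 0 ≤ (e : ℝ) ^ 2 * κ := by positivity
      have h6 : 0 ≤ C * (N : ℝ) ^ 2 := by positivity
      nlinarith
    · have hN : 0 < N := by
        have hs : SP Q := (iP (by omega)).mp hPQ
        simp only [hSP] at hs
        have := Finset.card_filter_le (Finset.range N) (fun a => θ ≤ D a Q)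
        rw [Finset.card_range] at this
        omega
      have hNR : (0 : ℝ) < (N : ℝ) ^ 2 := by positivity
      have key : ∀ j ∈ Finset.Ico Q P, (e : ℝ) ^ 2 * κ / (N : ℝ) ^ 2
          ≤ (∑ p ∈ prs N, G p.1 p.2 j) / (N : ℝ) ^ 2 := by
        intro j hj
        rw [Finset.mem_Ico] at hj
        have hjU : j ≤ U := by omega
        have a1 : SP j := (iP hjU).mp hj.2
        have a2 : ¬ SQ j := fun h => absurd ((iQ hjU).mpr h) (by omega)
        simp only [hSP] at a1
        simp only [hSQ, not_le] at a2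
        apply div_le_div_of_nonneg_right _ hNR.le
        apply pair_sum N e _ _ (Finset.filter_subset _ _) (Finset.filter_subset _ _) _ a1.le a2.le
          (fun a b => G a b j) (fun a b => hG a b j) (fun a b => hGs a b j) hκ
        · intro a ha b hb
          rw [Finset.mem_filter, Finset.mem_range] at ha hb
          exact hGκ a ha.1 b hb.1 j ha.2 hb.2
        · rw [Finset.disjoint_left]
          intro a ha hb
          rw [Finset.mem_filter] at ha hb
          linarith [ha.2, hb.2]
      have hsum : (∑ j ∈ Finset.Ico Q P, (e : ℝ) ^ 2 * κ / (N : ℝ) ^ 2) ≤ C := by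
        refine le_trans (Finset.sum_le_sum key) (le_trans ?_ h1)
        apply Finset.sum_le_sum_of_subset_of_nonneg
        · intro j hj
          rw [Finset.mem_Ico] at hj
          rw [Finset.mem_range]
          omega
        · intro j _ _
          exact div_nonneg (Finset.sum_nonneg (fun p _ => hG _ _ _)) (by positivity)
      rw [Finset.sum_const, nsmul_eq_mul, Nat.card_Ico, Nat.cast_sub hPQ.le] at hsum
      have h7 : ((P : ℝ) - Q) * ((e : ℝ) ^ 2 * κ) / (N : ℝ) ^ 2 ≤ C := by
        rw [mul_div_assoc]; exact hsum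
      rwa [div_le_iff₀ hNR] at h7

end Pool.Agent.EAG
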