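import Pool.Agent.EAG.Defs

/-! # EAG-PROD: a lower tail bound for the number of successes along a product set -/

open MeasureTheory Filter Topology Finset

namespace Pool.Agent.EAG

/-- summing over one coordinate twice -/
private theorem sum_update {N : ℕ} (B : ℕ → Finset ℕ) (e : Fin N) (F : (Fin N → ℕ) → ℝ) :
    ∑ i ∈ Fintype.piFinset (fun a : Fin N => B a), ∑ k ∈ B e, F (Function.update i e k)
      = ((B e).card : ℝ) * ∑ i ∈ Fintype.piFinset (fun a : Fin N => B a), F i := by
  have h1 : ∑ i ∈ Fintype.piFinset (fun a : Fin N => B a), ∑ k ∈ B e, F (Function.update i e k)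
      = ∑ p ∈ (Fintype.piFinset (fun a : Fin N => B a)) ×ˢ (B e), F p.1 := by
    rw [← Finset.sum_product']
    refine Finset.sum_nbij' (fun p => (Function.update p.1 e p.2, p.1 e))
      (fun p => (Function.update p.1 e p.2, p.1 e)) ?_ ?_ ?_ ?_ ?_
    · rintro ⟨i, k⟩ hp
      simp only [Finset.mem_product, Fintype.mem_piFinset] at hp ⊢
      refine ⟨fun a => ?_, hp.1 e⟩
      by_cases ha : a = e
      · subst ha; simpa using hp.2
      · simpa [Function.update_of_ne ha] using hp.1 a
    · rintro ⟨i, k⟩ hp
      simp only [Finset.mem_product, Fintype.mem_piFinset] at hp ⊢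
      refine ⟨fun a => ?_, hp.1 e⟩
      by_cases ha : a = e
      · subst ha; simpa using hp.2
      · simpa [Function.update_of_ne ha] using hp.1 a
    · rintro ⟨i, k⟩ _
      simp
    · rintro ⟨i, k⟩ _
      simp
    · rintro ⟨i, k⟩ _
      rfl
  rw [h1, Finset.sum_product]
  simp only [Finset.sum_const, nsmul_eq_mul]
  rw [← Finset.mul_sum]

private theorem ex_update_of_ne {N : ℕ} (i : Fin N → ℕ) (e : Fin N) (k c : ℕ) (hc : c ≠ e) :
    ex (Function.update i e k) c = ex i c := by
  unfold ex
  split_ifs with h
  · rw [Function.update_of_ne]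
    intro h2
    exact hc (by rw [← h2])
  · rfl

private theorem ex_update_self {N : ℕ} (i : Fin N → ℕ) (e : Fin N) (k : ℕ) :
    ex (Function.update i e k) e = k := by
  unfold ex
  rw [dif_pos e.2]
  simp

open Classical in
/-- The success at `c` depends on the coordinates `c` and `c + 1` only, and for EVERY value of the
coordinate `c + 1` its conditional probability is at least `π`. Sum out the coordinates from the
left. -/
theorem prod_succ (N : ℕ) (B : ℕ → Finset ℕ) (T : Finset ℕ) (hT : ∀ c ∈ T, c + 1 < N)
    (succ : ℕ → ℕ → ℕ → Prop) {π : ℝ} (hπ : 0 ≤ π) (hπ1 : π ≤ 1)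
    (hs : ∀ c ∈ T, ∀ l : ℕ, π * ((B c).card : ℝ) ≤ (((B c).filter (fun k => succ c k l)).card : ℝ)) :
    ∑ i ∈ Fintype.piFinset (fun a : Fin N => B a),
        ((1 : ℝ) / 2) ^ (T.filter (fun c => succ c (ex i c) (ex i (c + 1)))).card
      ≤ (1 - π / 2) ^ T.card * ∏ a : Fin N, ((B a).card : ℝ) := by
  -- the factors
  set f : ℕ → ℕ → ℕ → ℝ := fun c k l => if succ c k l then 1 / 2 else 1 with hf
  have hf0 : ∀ c k l, 0 ≤ f c k l := by
    intro c k l
    simp only [hf]
    split_ifs <;> norm_num
  have hfs : ∀ c ∈ T, ∀ l, ∑ k ∈ B c, f c k l ≤ (1 - π / 2) * ((B c).card : ℝ) := by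
    intro c hc l
    have h1 : ∑ k ∈ B c, f c k l
        = ((B c).card : ℝ) - (1 / 2) * (((B c).filter (fun k => succ c k l)).card : ℝ) := by
      have h2 : ∀ k ∈ B c, f c k l = 1 - (1 / 2) * (if succ c k l then (1 : ℝ) else 0) := by
        intro k _
        simp only [hf]
        split_ifs <;> norm_num
      rw [Finset.sum_congr rfl h2, Finset.sum_sub_distrib, ← Finset.mul_sum]
      simp
    rw [h1]
    have := hs c hc l
    linarith
  set G : ℕ → ℝ := fun e => ∑ i ∈ Fintype.piFinset (fun a : Fin N => B a),
    ∏ c ∈ T.filter (fun c => e ≤ c), f c (ex i c) (ex i (c + 1)) with hG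
  have hG0 : ∑ i ∈ Fintype.piFinset (fun a : Fin N => B a),
        ((1 : ℝ) / 2) ^ (T.filter (fun c => succ c (ex i c) (ex i (c + 1)))).card = G 0 := by
    simp only [hG]
    apply Finset.sum_congr rfl
    intro i _
    have h1 : T.filter (fun c => 0 ≤ c) = T := by simp
    rw [h1]
    simp only [hf]
    rw [Finset.prod_ite]
    simp
  have hGN : G N = ∏ a : Fin N, ((B a).card : ℝ) := by
    simp only [hG]
    have h1 : T.filter (fun c => N ≤ c) = ∅ := by
      apply Finset.filter_eq_empty_iff.mpr
      intro c hc h2
      have := hT c hc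
      omega
    rw [h1]
    simp [Fintype.card_piFinset]
  have hstep : ∀ e, e < N → G e ≤ (1 - π / 2) ^ (if e ∈ T then 1 else 0) * G (e + 1) := by
    intro e he
    by_cases heT : e ∈ T
    · rw [if_pos heT, pow_one]
      have hsplit : ∀ i : Fin N → ℕ, ∏ c ∈ T.filter (fun c => e ≤ c), f c (ex i c) (ex i (c + 1))
          = f e (ex i e) (ex i (e + 1))
            * ∏ c ∈ T.filter (fun c => e + 1 ≤ c), f c (ex i c) (ex i (c + 1)) := by
        intro i
        have h1 : T.filter (fun c => e ≤ c) = insert e (T.filter (fun c => e + 1 ≤ c)) := by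
          ext c
          simp only [Finset.mem_filter, Finset.mem_insert]
          constructor
          · rintro ⟨h2, h3⟩
            rcases Nat.eq_or_lt_of_le h3 with h4 | h4
            · left; exact h4.symm
            · right; exact ⟨h2, h4⟩
          · rintro (h2 | ⟨h2, h3⟩)
            · subst h2; exact ⟨heT, le_refl _⟩
            · exact ⟨h2, by omega⟩
        rw [h1, Finset.prod_insert]
        simp
      set P : (Fin N → ℕ) → ℝ := fun i =>
        ∏ c ∈ T.filter (fun c => e + 1 ≤ c), f c (ex i c) (ex i (c + 1)) with hP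
      have hP0 : ∀ i, 0 ≤ P i := fun i => Finset.prod_nonneg fun c _ => hf0 _ _ _
      have hPu : ∀ i k, P (Function.update i (⟨e, he⟩ : Fin N) k) = P i := by
        intro i k
        simp only [hP]
        apply Finset.prod_congr rfl
        intro c hc
        have h2 := (Finset.mem_filter.mp hc).2
        rw [ex_update_of_ne _ _ _ _ (by simp; omega), ex_update_of_ne _ _ _ _ (by simp; omega)]
      have hGe : G e = ∑ i ∈ Fintype.piFinset (fun a : Fin N => B a),
          f e (ex i e) (ex i (e + 1)) * P i := by
        simp only [hG]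
        exact Finset.sum_congr rfl fun i _ => hsplit i
      have hGe1 : G (e + 1) = ∑ i ∈ Fintype.piFinset (fun a : Fin N => B a), P i := rfl
      by_cases hB : (B e).card = 0
      · have h3 : Fintype.piFinset (fun a : Fin N => B a) = ∅ := by
          apply Finset.eq_empty_of_forall_notMem
          intro i hi
          have h4 := Fintype.mem_piFinset.mp hi ⟨e, he⟩
          rw [Finset.card_eq_zero] at hB
          simp [hB] at h4
        rw [hGe, hGe1, h3]
        simp
      · have hBpos : (0 : ℝ) < (B e).card := by
          have : 0 < (B e).card := Nat.pos_of_ne_zero hB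
          exact_mod_cast this
        have h5 := sum_update B (⟨e, he⟩ : Fin N)
          (fun i => f e (ex i e) (ex i (e + 1)) * P i)
        have h6 : ∀ i : Fin N → ℕ, ∑ k ∈ B e,
            (fun i => f e (ex i e) (ex i (e + 1)) * P i) (Function.update i (⟨e, he⟩ : Fin N) k)
            ≤ ((1 - π / 2) * ((B e).card : ℝ)) * P i := by
          intro i
          have h7 : ∀ k ∈ B e,
              (fun i => f e (ex i e) (ex i (e + 1)) * P i) (Function.update i (⟨e, he⟩ : Fin N) k)
              = f e k (ex i (e + 1)) * P i := by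
            intro k _
            have h8 : ex (Function.update i (⟨e, he⟩ : Fin N) k) e = k :=
              ex_update_self i (⟨e, he⟩ : Fin N) k
            have h9 : ex (Function.update i (⟨e, he⟩ : Fin N) k) (e + 1) = ex i (e + 1) :=
              ex_update_of_ne _ _ _ _ (by simp)
            simp only [h8, h9, hPu]
          rw [Finset.sum_congr rfl h7, ← Finset.sum_mul]
          exact mul_le_mul_of_nonneg_right (hfs e heT _) (hP0 i)
        have h10 : ((B e).card : ℝ) * G e ≤ ((1 - π / 2) * ((B e).card : ℝ)) * G (e + 1) := by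
          rw [hGe, hGe1]
          have h11 : ((B (⟨e, he⟩ : Fin N)).card : ℝ) = ((B e).card : ℝ) := rfl
          rw [← h11, ← h5, h11, Finset.mul_sum]
          exact Finset.sum_le_sum fun i _ => h6 i
        have h12 : ((B e).card : ℝ) * G e ≤ ((B e).card : ℝ) * ((1 - π / 2) * G (e + 1)) := by
          calc ((B e).card : ℝ) * G e ≤ ((1 - π / 2) * ((B e).card : ℝ)) * G (e + 1) := h10
            _ = _ := by ring
        exact le_of_mul_le_mul_left h12 hBpos
    · rw [if_neg heT, pow_zero, one_mul]
      have h1 : T.filter (fun c => e ≤ c) = T.filter (fun c => e + 1 ≤ c) := by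
        apply Finset.filter_congr
        intro c hc
        constructor
        · intro h2
          rcases Nat.eq_or_lt_of_le h2 with h4 | h4
          · exact absurd (h4 ▸ hc) heT
          · exact h4
        · intro h2; omega
      simp only [hG, h1]
      exact le_refl _
  have hq : (0 : ℝ) ≤ 1 - π / 2 := by linarith
  have hmain : ∀ e, e ≤ N → G 0 ≤ (1 - π / 2) ^ (T.filter (fun c => c < e)).card * G e := by
    intro e
    induction e with
    | zero => intro _; simp
    | succ e ih =>
      intro he
      have h1 := ih (by omega)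
      have h2 := hstep e (by omega)
      have h3 : (T.filter (fun c => c < e + 1)).card
          = (T.filter (fun c => c < e)).card + (if e ∈ T then 1 else 0) := by
        by_cases heT : e ∈ T
        · rw [if_pos heT]
          have : T.filter (fun c => c < e + 1) = insert e (T.filter (fun c => c < e)) := by
            ext c
            simp only [Finset.mem_filter, Finset.mem_insert]
            constructor
            · rintro ⟨h4, h5⟩
              rcases Nat.lt_succ_iff_lt_or_eq.mp h5 with h6 | h6
              · right; exact ⟨h4, h6⟩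
              · left; exact h6
            · rintro (h4 | ⟨h4, h5⟩)
              · subst h4; exact ⟨heT, by omega⟩
              · exact ⟨h4, by omega⟩
          rw [this, Finset.card_insert_of_notMem (by simp)]
        · rw [if_neg heT, add_zero]
          congr 1
          apply Finset.filter_congr
          intro c hc
          constructor
          · intro h4
            rcases Nat.lt_succ_iff_lt_or_eq.mp h4 with h6 | h6
            · exact h6
            · exact absurd (h6 ▸ hc) heT
          · intro h4; omega
      rw [h3, pow_add]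
      calc G 0 ≤ (1 - π / 2) ^ (T.filter (fun c => c < e)).card * G e := h1
        _ ≤ (1 - π / 2) ^ (T.filter (fun c => c < e)).card *
            ((1 - π / 2) ^ (if e ∈ T then 1 else 0) * G (e + 1)) :=
          mul_le_mul_of_nonneg_left h2 (pow_nonneg hq _)
        _ = _ := by ring
  rw [hG0]
  have h1 := hmain N le_rfl
  have h2 : T.filter (fun c => c < N) = T := by
    apply Finset.filter_true_of_mem
    intro c hc
    have := hT c hc
    omega
  rw [h2, hGN] at h1
  exact h1

open Classical in
/-- Markov inequality -/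
theorem few_succ (N : ℕ) (B : ℕ → Finset ℕ) (T : Finset ℕ) (hT : ∀ c ∈ T, c + 1 < N)
    (succ : ℕ → ℕ → ℕ → Prop) {π : ℝ} (hπ : 0 ≤ π) (hπ1 : π ≤ 1)
    (hs : ∀ c ∈ T, ∀ l : ℕ, π * ((B c).card : ℝ) ≤ (((B c).filter (fun k => succ c k l)).card : ℝ))
    (m' : ℕ) :
    (((Fintype.piFinset (fun a : Fin N => B a)).filter
        (fun i => (T.filter (fun c => succ c (ex i c) (ex i (c + 1)))).card < m')).card : ℝ)
      ≤ 2 ^ m' * (1 - π / 2) ^ T.card * ∏ a : Fin N, ((B a).card : ℝ) := by
  have h := prod_succ N B T hT succ hπ hπ1 hs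
  set S := Fintype.piFinset (fun a : Fin N => B a) with hS
  set F := S.filter (fun i => (T.filter (fun c => succ c (ex i c) (ex i (c + 1)))).card < m')
    with hF
  have h1 : (F.card : ℝ) * (1 / 2) ^ m' ≤ ∑ i ∈ S,
      ((1 : ℝ) / 2) ^ (T.filter (fun c => succ c (ex i c) (ex i (c + 1)))).card := by
    calc (F.card : ℝ) * (1 / 2) ^ m' = ∑ i ∈ F, ((1 : ℝ) / 2) ^ m' := by simp
      _ ≤ ∑ i ∈ F, ((1 : ℝ) / 2) ^ (T.filter (fun c => succ c (ex i c) (ex i (c + 1)))).card := by
        apply Finset.sum_le_sum
        intro i hi
        have h2 := (Finset.mem_filter.mp hi).2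
        exact pow_le_pow_of_le_one (by norm_num) (by norm_num) h2.le
      _ ≤ _ := by
        apply Finset.sum_le_sum_of_subset_of_nonneg (Finset.filter_subset _ _)
        intro i _ _
        positivity
  have h2 : (F.card : ℝ) = 2 ^ m' * ((F.card : ℝ) * (1 / 2) ^ m') := by
    have : (2 : ℝ) ^ m' * (1 / 2) ^ m' = 1 := by
      rw [← mul_pow]; norm_num
    calc (F.card : ℝ) = (2 ^ m' * (1 / 2) ^ m') * (F.card : ℝ) := by rw [this, one_mul]
      _ = _ := by ring
  rw [h2, mul_assoc]
  exact mul_le_mul_of_nonneg_left (h1.trans h) (by positivity)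

end Pool.Agent.EAG
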