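import Pool.Agent.EAG.Ker
import Pool.Agent.EAG.Elo
import Pool.Agent.EAG.ProdL

/-! # EAG-WIN: one pair of blocks, one scale in the window -/

open MeasureTheory Filter Topology Finset

namespace Pool.Agent.EAG

private theorem qq_nonneg (v : ℕ → ℝ) (j : ℕ) (B : Finset ℕ) (k : ℕ) : 0 ≤ qq v j B k := by
  unfold qq
  have h1 : ∑ l ∈ B, tri j (v l - v k) ≤ (B.card : ℝ) := by
    calc ∑ l ∈ B, tri j (v l - v k) ≤ ∑ l ∈ B, (1 : ℝ) :=
          Finset.sum_le_sum (fun l _ => tri_le_one j _)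
      _ = (B.card : ℝ) := by simp
  have h2 : (∑ l ∈ B, tri j (v l - v k)) / (B.card : ℝ) ≤ 1 := by
    apply div_le_one_of_le₀ h1 (by positivity)
  linarith

private theorem sum_qq (v : ℕ → ℝ) (j : ℕ) (B : Finset ℕ) :
    ∑ k ∈ B, qq v j B k = (B.card : ℝ) * spr v j B := by
  rcases B.eq_empty_or_nonempty with rfl | hB
  · simp
  have hc : (B.card : ℝ) ≠ 0 := by
    have := hB.card_pos
    positivity
  unfold qq spr
  rw [Finset.sum_sub_distrib, ← Finset.sum_div]
  simp only [Finset.sum_const, nsmul_eq_mul, mul_one]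
  have h1 : ∑ k ∈ B, ∑ l ∈ B, tri j (v l - v k) = en v j B B := by
    unfold en
    rw [Finset.sum_comm]
  rw [h1]
  field_simp

/-- Markov: the proportion of `k ∈ B` with `qq > 1/2000` is at most `2000 * spr`. -/
theorem card_qq (v : ℕ → ℝ) (j : ℕ) (B : Finset ℕ) :
    ((B.filter (fun k => 1 / 2000 < qq v j B k)).card : ℝ) ≤ 2000 * spr v j B * (B.card : ℝ) := by
  have h1 : ((B.filter (fun k => 1 / 2000 < qq v j B k)).card : ℝ) * (1 / 2000)
      ≤ ∑ k ∈ B, qq v j B k := by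
    calc ((B.filter (fun k => 1 / 2000 < qq v j B k)).card : ℝ) * (1 / 2000)
        = ∑ k ∈ B.filter (fun k => 1 / 2000 < qq v j B k), (1 / 2000 : ℝ) := by simp
      _ ≤ ∑ k ∈ B.filter (fun k => 1 / 2000 < qq v j B k), qq v j B k :=
          Finset.sum_le_sum (fun k hk => (Finset.mem_filter.1 hk).2.le)
      _ ≤ ∑ k ∈ B, qq v j B k :=
          Finset.sum_le_sum_of_subset_of_nonneg (Finset.filter_subset _ _)
            (fun k _ _ => qq_nonneg v j B k)
  rw [sum_qq] at h1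
  nlinarith

/-- a set with spread at least `1/400000` at scale `2 ^ q` is far from every point `z` with
probability at least `1/1600000`. -/
theorem card_far (v : ℕ → ℝ) (q : ℕ) (B : Finset ℕ) (hB : B.Nonempty)
    (h : 1 / 400000 ≤ spr v q B) (z : ℝ) :
    1 / 1600000 * (B.card : ℝ)
      ≤ ((B.filter (fun k => (2 : ℝ) ^ q / 1600000 ≤ |z - v k|)).card : ℝ) := by
  classical
  have hcpos : (0 : ℝ) < B.card := by exact_mod_cast hB.card_pos
  have hq : (0 : ℝ) < 2 ^ q := by positivity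
  set F := B.filter (fun k => (2 : ℝ) ^ q / 1600000 ≤ |z - v k|) with hF
  set D := (B ×ˢ B).filter (fun p => (2 : ℝ) ^ q / 800000 ≤ |v p.1 - v p.2|) with hD
  -- the sum
  have hsum : (B.card : ℝ) ^ 2 / 400000 ≤ ∑ p ∈ B ×ˢ B, (1 - tri q (v p.1 - v p.2)) := by
    have e1 : ∑ p ∈ B ×ˢ B, (1 - tri q (v p.1 - v p.2)) = (B.card : ℝ) ^ 2 * spr v q B := by
      rw [Finset.sum_sub_distrib, Finset.sum_product (f := fun p : ℕ × ℕ => tri q (v p.1 - v p.2))]
      simp only [Finset.sum_const, nsmul_eq_mul, mul_one, Finset.card_product, Nat.cast_mul]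
      unfold spr en
      field_simp
    rw [e1]
    have : (0 : ℝ) < (B.card : ℝ) ^ 2 := by positivity
    nlinarith
  have hle : ∑ p ∈ B ×ˢ B, (1 - tri q (v p.1 - v p.2))
      ≤ (D.card : ℝ) + (B.card : ℝ) ^ 2 / 800000 := by
    have e1 : ∀ p ∈ B ×ˢ B, (1 - tri q (v p.1 - v p.2))
        ≤ (if (2 : ℝ) ^ q / 800000 ≤ |v p.1 - v p.2| then (1 : ℝ) else 0) + 1 / 800000 := by
      intro p _
      split_ifs with hp
      · have := tri_nonneg q (v p.1 - v p.2)
        linarith
      · push Not at hp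
        have h2 := one_sub_tri_le q (v p.1 - v p.2)
        have h3 : |v p.1 - v p.2| / 2 ^ q ≤ 1 / 800000 := by
          rw [div_le_iff₀ hq]
          linarith
        linarith
    calc ∑ p ∈ B ×ˢ B, (1 - tri q (v p.1 - v p.2))
        ≤ ∑ p ∈ B ×ˢ B, ((if (2 : ℝ) ^ q / 800000 ≤ |v p.1 - v p.2| then (1 : ℝ) else 0)
            + 1 / 800000) := Finset.sum_le_sum e1
      _ = (D.card : ℝ) + (B.card : ℝ) ^ 2 / 800000 := by
          rw [Finset.sum_add_distrib, Finset.sum_boole]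
          simp only [Finset.sum_const, nsmul_eq_mul, Finset.card_product, Nat.cast_mul]
          ring
  have hDle : (D.card : ℝ) ≤ 2 * (F.card : ℝ) * (B.card : ℝ) := by
    have hsub : D ⊆ (F ×ˢ B) ∪ (B ×ˢ F) := by
      intro p hp
      obtain ⟨hp1, hp2⟩ := Finset.mem_filter.1 hp
      obtain ⟨ha, hb⟩ := Finset.mem_product.1 hp1
      have htri : |v p.1 - v p.2| ≤ |z - v p.1| + |z - v p.2| := by
        have : v p.1 - v p.2 = (z - v p.2) - (z - v p.1) := by ring
        rw [this]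
        have := abs_sub (z - v p.2) (z - v p.1)
        linarith
      rw [Finset.mem_union, Finset.mem_product, Finset.mem_product]
      by_cases h1 : (2 : ℝ) ^ q / 1600000 ≤ |z - v p.1|
      · left; exact ⟨Finset.mem_filter.2 ⟨ha, h1⟩, hb⟩
      · right
        refine ⟨ha, Finset.mem_filter.2 ⟨hb, ?_⟩⟩
        push Not at h1
        linarith
    have h1 : D.card ≤ F.card * B.card + B.card * F.card := by
      calc D.card ≤ ((F ×ˢ B) ∪ (B ×ˢ F)).card := Finset.card_le_card hsub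
        _ ≤ (F ×ˢ B).card + (B ×ˢ F).card := Finset.card_union_le _ _
        _ = _ := by rw [Finset.card_product, Finset.card_product]
    have h2 : (D.card : ℝ) ≤ (F.card : ℝ) * B.card + B.card * F.card := by exact_mod_cast h1
    linarith
  have hfin : (B.card : ℝ) ^ 2 / 800000 ≤ 2 * (F.card : ℝ) * (B.card : ℝ) := by linarith
  have : (B.card : ℝ) * ((B.card : ℝ) / 1600000) ≤ (B.card : ℝ) * (F.card : ℝ) := by nlinarith
  have := le_of_mul_le_mul_left this hcpos
  linarith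

private theorem card_coord {N : ℕ} (B : ℕ → Finset ℕ) (a : Fin N) (F : Finset ℕ) (δ : ℝ)
    (hF : (F.card : ℝ) ≤ δ * ((B a).card : ℝ)) :
    (((Fintype.piFinset (fun c : Fin N => B c)).filter (fun i => i a ∈ F)).card : ℝ)
      ≤ δ * ∏ c : Fin N, ((B c).card : ℝ) := by
  classical
  obtain ⟨G, hG⟩ : ∃ G : Fin N → Finset ℕ, ∀ c, G c = if c = a then F else B c :=
    ⟨_, fun c => rfl⟩
  have hGa : G a = F := by rw [hG, if_pos rfl]
  have hGo : ∀ c, c ≠ a → G c = B c := fun c hc => by rw [hG, if_neg hc]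
  have hsub : (Fintype.piFinset (fun c : Fin N => B c)).filter (fun i => i a ∈ F)
      ⊆ Fintype.piFinset G := by
    intro i hi
    obtain ⟨h1, h2⟩ := Finset.mem_filter.1 hi
    rw [Fintype.mem_piFinset] at h1 ⊢
    intro c
    by_cases hc : c = a
    · rw [hc, hGa]; exact h2
    · rw [hGo c hc]; exact h1 c
  have h1 : (((Fintype.piFinset (fun c : Fin N => B c)).filter (fun i => i a ∈ F)).card : ℝ)
      ≤ ((Fintype.piFinset G).card : ℝ) := by exact_mod_cast Finset.card_le_card hsub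
  refine h1.trans ?_
  rw [Fintype.card_piFinset, Nat.cast_prod, ← Finset.mul_prod_erase univ _ (mem_univ a),
    ← Finset.mul_prod_erase univ (fun c : Fin N => ((B c).card : ℝ)) (mem_univ a)]
  have h2 : ∏ x ∈ univ.erase a, ((G x).card : ℝ) = ∏ x ∈ univ.erase a, ((B x).card : ℝ) := by
    apply Finset.prod_congr rfl
    intro x hx
    rw [hGo x (Finset.ne_of_mem_erase hx)]
  rw [h2, hGa, ← mul_assoc]
  exact mul_le_mul_of_nonneg_right hF (Finset.prod_nonneg (fun x _ => Nat.cast_nonneg _))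

private theorem sum_Sab {N : ℕ} (v : ℕ → ℝ) (i : ℕ → ℕ) (s : Fin N → Bool) (a b : ℕ)
    (hb : b < N) :
    ∑ c : Fin N, sg (s c) * (if a ≤ (c : ℕ) ∧ (c : ℕ) < b then v (i (c + 1)) - v (i c) else 0)
      = Sab v i (exb s) a b := by
  unfold Sab
  have h1 : ∑ c : Fin N, sg (s c) *
      (if a ≤ (c : ℕ) ∧ (c : ℕ) < b then v (i (c + 1)) - v (i c) else 0)
      = ∑ c : Fin N, (fun c : ℕ => sg (exb s c) *
        (if a ≤ c ∧ c < b then v (i (c + 1)) - v (i c) else 0)) c := by
    apply Finset.sum_congr rfl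
    intro c _
    have : exb s (c : ℕ) = s c := by simp [exb]
    simp only [this]
  rw [h1, Fin.sum_univ_eq_sum_range (fun c : ℕ => sg (exb s c) *
        (if a ≤ c ∧ c < b then v (i (c + 1)) - v (i c) else 0)) N]
  have h2 : Finset.Ico a b = (Finset.range N).filter (fun c => a ≤ c ∧ c < b) := by
    ext c
    simp only [Finset.mem_Ico, Finset.mem_filter, Finset.mem_range]
    constructor
    · intro ⟨h, h'⟩; exact ⟨by omega, h, h'⟩
    · intro ⟨_, h⟩; exact h
  rw [h2, Finset.sum_filter]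
  apply Finset.sum_congr rfl
  intro c _
  split_ifs <;> simp

private theorem pS_nonneg (N : ℕ) (v : ℕ → ℝ) (i : ℕ → ℕ) (j a b : ℕ) : 0 ≤ pS N v i j a b := by
  unfold pS; positivity

private theorem psi_nonneg (N : ℕ) (v : ℕ → ℝ) (B : ℕ → Finset ℕ) (i : ℕ → ℕ) (j a b : ℕ) :
    0 ≤ psi N v B i j a b := by
  unfold psi
  split_ifs
  · exact pS_nonneg _ _ _ _ _ _
  · exact le_rfl

private theorem num1 (g : ℕ) (M : ℕ) (hM : 10 ^ 24 * 2 ^ (18 * g) ≤ M) :
    (2 : ℝ) ^ (2 * 10 ^ 17 * 2 ^ (18 * g)) * (1 - (1 / 1600000) / 2) ^ M ≤ 1 / 200 := by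
  set X : ℕ := 2 ^ (18 * g) with hX
  have hX1 : 1 ≤ X := Nat.one_le_two_pow
  have hX1' : (1 : ℝ) ≤ X := by exact_mod_cast hX1
  have hM' : (10 : ℝ) ^ 24 * X ≤ M := by exact_mod_cast hM
  have h1 : (2 : ℝ) ^ (2 * 10 ^ 17 * X) ≤ Real.exp ((2 * 10 ^ 17 * X : ℕ) : ℝ) := by
    rw [← Real.exp_one_pow]
    apply pow_le_pow_left₀ (by norm_num)
    have := Real.add_one_le_exp (1 : ℝ)
    linarith
  have h2 : (1 - (1 / 1600000) / 2 : ℝ) ^ M ≤ Real.exp (-(M : ℝ) / 3200000) := by
    have e : Real.exp (-(M : ℝ) / 3200000) = (Real.exp (-(1 / 3200000))) ^ M := by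
      rw [← Real.exp_nat_mul]; congr 1; ring
    rw [e]
    apply pow_le_pow_left₀ (by norm_num)
    have := Real.add_one_le_exp (-(1 / 3200000) : ℝ)
    linarith
  have h3 : (2 : ℝ) ^ (2 * 10 ^ 17 * X) * (1 - (1 / 1600000) / 2) ^ M
      ≤ Real.exp ((2 * 10 ^ 17 * X : ℕ) : ℝ) * Real.exp (-(M : ℝ) / 3200000) := by
    apply mul_le_mul h1 h2 (by positivity) (by positivity)
  refine h3.trans ?_
  rw [← Real.exp_add]
  have h4 : ((2 * 10 ^ 17 * X : ℕ) : ℝ) + -(M : ℝ) / 3200000 ≤ -199 := by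
    push_cast
    have : (M : ℝ) / 3200000 ≥ 10 ^ 24 * X / 3200000 := by gcongr
    have e : -(M : ℝ) / 3200000 = -((M : ℝ) / 3200000) := by ring
    rw [e]
    nlinarith
  refine (Real.exp_le_exp.2 h4).trans ?_
  rw [Real.exp_neg, inv_eq_one_div]
  apply one_div_le_one_div_of_le (by norm_num)
  have := Real.add_one_le_exp (199 : ℝ)
  linarith

private theorem num2 (g j p m' : ℕ) (hj2 : j < p + 9 * g) (hm : 2 * 10 ^ 17 * 2 ^ (18 * g) ≤ m') :
    (((2 : ℝ) ^ j / (2 ^ (p - 1) / 1600000)) + 1) / Real.sqrt (m' + 1) ≤ 1 / 200 := by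
  have hp : (0 : ℝ) < 2 ^ (p - 1) := by positivity
  have h1 : (2 : ℝ) ^ j ≤ 2 ^ (9 * g) * 2 ^ (p - 1) := by
    rw [← pow_add]
    apply pow_le_pow_right₀ (by norm_num)
    omega
  have hg : (1 : ℝ) ≤ 2 ^ (9 * g) := one_le_pow₀ (by norm_num)
  have h2 : (2 : ℝ) ^ j / (2 ^ (p - 1) / 1600000) ≤ 1600000 * 2 ^ (9 * g) := by
    rw [div_le_iff₀ (by positivity)]
    calc (2 : ℝ) ^ j ≤ 2 ^ (9 * g) * 2 ^ (p - 1) := h1
      _ = 1600000 * 2 ^ (9 * g) * (2 ^ (p - 1) / 1600000) := by ring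
  have h3 : 400000000 * (2 : ℝ) ^ (9 * g) ≤ Real.sqrt (m' + 1) := by
    apply Real.le_sqrt_of_sq_le
    have e : (400000000 * (2 : ℝ) ^ (9 * g)) ^ 2 = 16 * 10 ^ 16 * 2 ^ (18 * g) := by
      rw [mul_pow, ← pow_mul]
      have : 9 * g * 2 = 18 * g := by ring
      rw [this]; norm_num
    rw [e]
    have hm' : (2 * 10 ^ 17 : ℝ) * 2 ^ (18 * g) ≤ m' := by exact_mod_cast hm
    have : (0 : ℝ) < 2 ^ (18 * g) := by positivity
    nlinarith
  have hs : (0 : ℝ) < Real.sqrt (m' + 1) := by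
    apply Real.sqrt_pos.2; positivity
  rw [div_le_iff₀ hs]
  nlinarith

/-- The window lemma. `p - 1` is truncated subtraction. -/
theorem win_pair (g N : ℕ) (v : ℕ → ℝ) (B : ℕ → Finset ℕ) (hB : ∀ a < N, (B a).Nonempty)
    (a b j p : ℕ) (hab : a < b) (hb : b < N)
    (hja : spr v j (B a) < 1 / 200000) (hjb : spr v j (B b) < 1 / 200000)
    (hj : p ≤ j) (hj2 : j < p + 9 * g)
    (T : Finset ℕ) (hT : ∀ c ∈ T, a < c ∧ c < b ∧ 1 / 400000 ≤ spr v (p - 1) (B c))
    (hcard : 10 ^ 24 * 2 ^ (18 * g) ≤ T.card) :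
    97 / 100 * ∏ a : Fin N, ((B a).card : ℝ)
      ≤ ∑ i ∈ Fintype.piFinset (fun a : Fin N => B a), psi N v B (ex i) j a b := by
  classical
  set Pi := Fintype.piFinset (fun a : Fin N => B a) with hPi
  set P : ℝ := ∏ a : Fin N, ((B a).card : ℝ) with hP
  have hP0 : 0 ≤ P := by rw [hP]; positivity
  have hPic : (Pi.card : ℝ) = P := by
    rw [hPi, Fintype.card_piFinset, Nat.cast_prod]
  set m' : ℕ := 2 * 10 ^ 17 * 2 ^ (18 * g) with hm'
  set h : ℝ := 2 ^ (p - 1) / 1600000 with hh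
  have hhpos : 0 < h := by rw [hh]; positivity
  set succ : ℕ → ℕ → ℕ → Prop := fun _ k l => h ≤ |v l - v k| with hsucc
  have haN : a < N := lt_trans hab hb
  -- the three bad sets
  set Fa := (B a).filter (fun k => 1 / 2000 < qq v j (B a) k) with hFa
  set Fb := (B b).filter (fun k => 1 / 2000 < qq v j (B b) k) with hFb
  set bad1 := Pi.filter (fun i => i ⟨a, haN⟩ ∈ Fa) with hbad1
  set bad2 := Pi.filter (fun i => i ⟨b, hb⟩ ∈ Fb) with hbad2
  set bad3 := Pi.filter
    (fun i => (T.filter (fun c => succ c (ex i c) (ex i (c + 1)))).card < m') with hbad3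
  have hb1 : (bad1.card : ℝ) ≤ 1 / 100 * P := by
    apply card_coord B ⟨a, haN⟩ Fa (1 / 100)
    have := card_qq v j (B a)
    have h2 : (0 : ℝ) ≤ ((B a).card : ℝ) := by positivity
    show ((Fa).card : ℝ) ≤ 1 / 100 * ((B a).card : ℝ)
    nlinarith
  have hb2 : (bad2.card : ℝ) ≤ 1 / 100 * P := by
    apply card_coord B ⟨b, hb⟩ Fb (1 / 100)
    have := card_qq v j (B b)
    have h2 : (0 : ℝ) ≤ ((B b).card : ℝ) := by positivity
    show ((Fb).card : ℝ) ≤ 1 / 100 * ((B b).card : ℝ)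
    nlinarith
  have hb3 : (bad3.card : ℝ) ≤ 1 / 200 * P := by
    have := few_succ N B T (fun c hc => by have := hT c hc; omega) succ
      (π := 1 / 1600000) (by norm_num) (by norm_num)
      (fun c hc l => by
        have h1 := hT c hc
        exact card_far v (p - 1) (B c) (hB c (by omega)) h1.2.2 (v l)) m'
    refine this.trans ?_
    apply mul_le_mul_of_nonneg_right _ hP0
    exact num1 g T.card hcard
  -- the good tuples
  set good := Pi.filter (fun i => i ∉ bad1 ∧ i ∉ bad2 ∧ i ∉ bad3) with hgood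
  have hgc : (975 / 1000 : ℝ) * P ≤ (good.card : ℝ) := by
    have hsub : Pi ⊆ good ∪ (bad1 ∪ (bad2 ∪ bad3)) := by
      intro i hi
      simp only [Finset.mem_union]
      by_cases h1 : i ∈ bad1
      · right; left; exact h1
      by_cases h2 : i ∈ bad2
      · right; right; left; exact h2
      by_cases h3 : i ∈ bad3
      · right; right; right; exact h3
      left
      exact Finset.mem_filter.2 ⟨hi, h1, h2, h3⟩
    have h1 : Pi.card ≤ good.card + (bad1.card + (bad2.card + bad3.card)) := by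
      calc Pi.card ≤ (good ∪ (bad1 ∪ (bad2 ∪ bad3))).card := Finset.card_le_card hsub
        _ ≤ good.card + (bad1 ∪ (bad2 ∪ bad3)).card := Finset.card_union_le _ _
        _ ≤ good.card + (bad1.card + (bad2 ∪ bad3).card) := by
            gcongr; exact Finset.card_union_le _ _
        _ ≤ _ := by gcongr; exact Finset.card_union_le _ _
    have h2 : (Pi.card : ℝ) ≤ good.card + (bad1.card + (bad2.card + bad3.card)) := by
      exact_mod_cast h1
    rw [hPic] at h2
    linarith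
  -- on the good tuples
  have hpsi : ∀ i ∈ good, (995 / 1000 : ℝ) ≤ psi N v B (ex i) j a b := by
    intro i hi
    obtain ⟨hiPi, hi1, hi2, hi3⟩ := Finset.mem_filter.1 hi
    have hmem := Fintype.mem_piFinset.1 hiPi
    have hexa : ex i a = i ⟨a, haN⟩ := by simp [ex, haN]
    have hexb : ex i b = i ⟨b, hb⟩ := by simp [ex, hb]
    have hqa : qq v j (B a) (ex i a) ≤ 1 / 2000 := by
      by_contra hcon
      push Not at hcon
      apply hi1
      refine Finset.mem_filter.2 ⟨hiPi, Finset.mem_filter.2 ⟨hmem ⟨a, haN⟩, ?_⟩⟩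
      rw [← hexa]; exact hcon
    have hqb : qq v j (B b) (ex i b) ≤ 1 / 2000 := by
      by_contra hcon
      push Not at hcon
      apply hi2
      refine Finset.mem_filter.2 ⟨hiPi, Finset.mem_filter.2 ⟨hmem ⟨b, hb⟩, ?_⟩⟩
      rw [← hexb]; exact hcon
    have hcs : m' ≤ (T.filter (fun c => succ c (ex i c) (ex i (c + 1)))).card := by
      by_contra hcon
      push Not at hcon
      exact hi3 (Finset.mem_filter.2 ⟨hiPi, hcon⟩)
    unfold psi
    rw [if_pos ⟨hqa, hqb⟩]
    -- Littlewood-Offord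
    set w : Fin N → ℝ := fun c =>
      if a ≤ (c : ℕ) ∧ (c : ℕ) < b then v (ex i (c + 1)) - v (ex i c) else 0 with hw
    set T' : Finset (Fin N) := univ.filter (fun c : Fin N =>
      (c : ℕ) ∈ T.filter (fun c => succ c (ex i c) (ex i (c + 1)))) with hT'
    have hT'c : m' ≤ T'.card := by
      refine hcs.trans ?_
      have : T.filter (fun c => succ c (ex i c) (ex i (c + 1))) ⊆ T'.image (fun c : Fin N => (c : ℕ)) := by
        intro c hc
        have hcT := hT c (Finset.mem_filter.1 hc).1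
        rw [Finset.mem_image]
        exact ⟨⟨c, by omega⟩, Finset.mem_filter.2 ⟨mem_univ _, hc⟩, rfl⟩
      exact (Finset.card_le_card this).trans Finset.card_image_le
    have hw1 : ∀ c ∈ T', h ≤ |w c| := by
      intro c hc
      have h1 := (Finset.mem_filter.1 hc).2
      obtain ⟨h2, h3⟩ := Finset.mem_filter.1 h1
      have h4 := hT c h2
      have h5 : w c = v (ex i (c + 1)) - v (ex i c) := by
        simp only [hw]
        rw [if_pos ⟨h4.1.le, h4.2.1⟩]
      rw [h5]
      exact h3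
    have helo := elo w T' hhpos hw1 (t := (2 : ℝ) ^ j) (by positivity)
    have hratio : ((2 : ℝ) ^ j / h + 1) / Real.sqrt ((T'.card : ℝ) + 1) ≤ 1 / 200 :=
      num2 g j p T'.card hj2 hT'c
    have hfin : ((Finset.univ.filter (fun s : Fin N → Bool =>
        |∑ c, sg (s c) * w c| < (2 : ℝ) ^ j)).card : ℝ) ≤ 2 ^ N * (1 / 200) := by
      refine helo.trans ?_
      rw [Fintype.card_fin]
      exact mul_le_mul_of_nonneg_left hratio (by positivity)
    have hcompl : (Finset.univ.filter (fun s : Fin N → Bool =>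
          (2 : ℝ) ^ j ≤ |Sab v (ex i) (exb s) a b|)).card
        + (Finset.univ.filter (fun s : Fin N → Bool =>
          |∑ c, sg (s c) * w c| < (2 : ℝ) ^ j)).card = 2 ^ N := by
      have h1 : (Finset.univ.filter (fun s : Fin N → Bool =>
          |∑ c, sg (s c) * w c| < (2 : ℝ) ^ j))
          = Finset.univ.filter (fun s : Fin N → Bool =>
          ¬ ((2 : ℝ) ^ j ≤ |Sab v (ex i) (exb s) a b|)) := by
        apply Finset.filter_congr
        intro s _
        rw [hw, sum_Sab v (ex i) s a b hb, not_le]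
      rw [h1, Finset.card_filter_add_card_filter_not]
      simp
    have hcompl' : ((Finset.univ.filter (fun s : Fin N → Bool =>
          (2 : ℝ) ^ j ≤ |Sab v (ex i) (exb s) a b|)).card : ℝ)
        + ((Finset.univ.filter (fun s : Fin N → Bool =>
          |∑ c, sg (s c) * w c| < (2 : ℝ) ^ j)).card : ℝ) = 2 ^ N := by
      exact_mod_cast hcompl
    unfold pS
    rw [le_div_iff₀ (by positivity)]
    have h2N : (0 : ℝ) < 2 ^ N := by positivity
    linarith
  calc 97 / 100 * P ≤ (good.card : ℝ) * (995 / 1000) := by nlinarith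
    _ = ∑ i ∈ good, (995 / 1000 : ℝ) := by simp
    _ ≤ ∑ i ∈ good, psi N v B (ex i) j a b := Finset.sum_le_sum hpsi
    _ ≤ ∑ i ∈ Pi, psi N v B (ex i) j a b :=
        Finset.sum_le_sum_of_subset_of_nonneg (Finset.filter_subset _ _)
          (fun i _ _ => psi_nonneg _ _ _ _ _ _ _)

end Pool.Agent.EAG
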