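import Pool.Agent.EAG.Pair
import Pool.Agent.EAG.Rank
import Pool.Agent.EAG.Spread
import Pool.Agent.EAG.Win

/-! # EAG-PATH: the pathwise (deterministic) lower bound -/

open MeasureTheory Filter Topology Finset

namespace Pool.Agent.EAG

theorem path_pS_nonneg (N : ℕ) (v : ℕ → ℝ) (i : ℕ → ℕ) (j a b : ℕ) : 0 ≤ pS N v i j a b := by
  unfold pS
  positivity

theorem path_pS_le_one (N : ℕ) (v : ℕ → ℝ) (i : ℕ → ℕ) (j a b : ℕ) : pS N v i j a b ≤ 1 := by
  classical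
  unfold pS
  rw [div_le_one (by positivity)]
  have h1 : ((Finset.univ.filter (fun s : Fin N → Bool =>
      (2 : ℝ) ^ j ≤ |Sab v i (exb s) a b|)).card) ≤ 2 ^ N := by
    refine (Finset.card_filter_le _ _).trans ?_
    simp
  exact_mod_cast h1

theorem path_psi_nonneg (N : ℕ) (v : ℕ → ℝ) (B : ℕ → Finset ℕ) (i : ℕ → ℕ) (j a b : ℕ) :
    0 ≤ psi N v B i j a b := by
  unfold psi
  split_ifs
  · exact path_pS_nonneg N v i j a b
  · exact le_refl _

theorem path_psi_le_one (N : ℕ) (v : ℕ → ℝ) (B : ℕ → Finset ℕ) (i : ℕ → ℕ) (j a b : ℕ) :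
    psi N v B i j a b ≤ 1 := by
  unfold psi
  split_ifs
  · exact path_pS_le_one N v i j a b
  · exact zero_le_one

theorem path_min (N l q U : ℕ) (hU : q + l ≤ U + 1) (v : ℕ → ℝ) (B : ℕ → Finset ℕ) (i : ℕ → ℕ)
    (a b : ℕ) : ∑ j ∈ Finset.Ico q (q + l), psi N v B i j a b ≤
      min (l : ℝ) (∑ j ∈ Finset.range (U + 1), psi N v B i j a b) := by
  refine le_min ?_ ?_
  · calc ∑ j ∈ Finset.Ico q (q + l), psi N v B i j a b
        ≤ ∑ j ∈ Finset.Ico q (q + l), (1 : ℝ) :=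
          Finset.sum_le_sum fun j _ => path_psi_le_one N v B i j a b
      _ = l := by simp
  · refine Finset.sum_le_sum_of_subset_of_nonneg ?_ fun j _ _ => path_psi_nonneg N v B i j a b
    intro j hj
    rw [Finset.mem_Ico] at hj
    rw [Finset.mem_range]
    omega

/-- the pairs of a subset of good pairs give a lower bound of the sum of `zt` -/
theorem path_sum (N U l : ℕ) (v : ℕ → ℝ) (B : ℕ → Finset ℕ) (G : Finset (ℕ × ℕ))
    (hG : G ⊆ prs N) (K : ℝ)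
    (h : ∀ q ∈ G, K ≤ ∑ i ∈ Fintype.piFinset (fun a : Fin N => B a),
      min (l : ℝ) (∑ j ∈ Finset.range (U + 1), psi N v B (ex i) j q.1 q.2)) :
    (G.card : ℝ) * K / (N : ℝ) ^ 2 ≤ ∑ i ∈ Fintype.piFinset (fun a : Fin N => B a),
      zt N U l v B (ex i) := by
  unfold zt
  rw [← Finset.sum_div]
  refine div_le_div_of_nonneg_right ?_ (by positivity)
  rw [Finset.sum_comm]
  calc (G.card : ℝ) * K = ∑ q ∈ G, K := by rw [Finset.sum_const, nsmul_eq_mul]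
    _ ≤ ∑ q ∈ G, ∑ i ∈ Fintype.piFinset (fun a : Fin N => B a),
      min (l : ℝ) (∑ j ∈ Finset.range (U + 1), psi N v B (ex i) j q.1 q.2) :=
        Finset.sum_le_sum h
    _ ≤ _ := by
        refine Finset.sum_le_sum_of_subset_of_nonneg hG fun q _ _ => ?_
        refine Finset.sum_nonneg fun i _ => ?_
        exact le_min (Nat.cast_nonneg _)
          (Finset.sum_nonneg fun j _ => path_psi_nonneg N v B (ex i) j q.1 q.2)

theorem path_num (g : ℕ) (hg : 1 ≤ g) (hG : 10 ^ 50 * g ≤ 4 ^ g) (c : ℕ)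
    (h : (prs (2 ^ (20 * g))).card ≤ c + (3 * (2 ^ (20 * g) / 512) * 2 ^ (20 * g) +
      2 ^ (20 * g) * (10 ^ 24 * 2 ^ (18 * g)) * (2 * (700 * g * (2 ^ 18 * 10 ^ 12)) + 3))) :
    494 / 1000 * ((2 ^ (20 * g) : ℕ) : ℝ) ^ 2 ≤ c := by
  have h1 := card_prs (2 ^ (20 * g))
  obtain ⟨N, hN⟩ : ∃ N : ℕ, N = 2 ^ (20 * g) := ⟨_, rfl⟩
  obtain ⟨M, hM⟩ : ∃ M : ℕ, M = 2 ^ (18 * g) := ⟨_, rfl⟩
  obtain ⟨F, hF⟩ : ∃ F : ℕ, F = 4 ^ g := ⟨_, rfl⟩
  rw [← hN] at h1 h ⊢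
  rw [← hM] at h
  rw [← hF] at hG
  have hNM : N = M * F := by
    rw [hN, hM, hF, show (4 : ℕ) = 2 ^ 2 by norm_num, ← pow_mul, ← pow_add]
    congr 1
    ring
  have hN1 : 2 ^ 20 ≤ N := by
    rw [hN]
    exact Nat.pow_le_pow_right (by norm_num) (by omega)
  have hM1 : 1 ≤ M := by rw [hM]; exact Nat.one_le_two_pow
  have h512 : 512 * (N / 512) ≤ N := Nat.mul_div_le N 512
  have h1' : 2 * ((prs N).card : ℝ) = N * (N - 1) := by
    have h2 : ((2 * (prs N).card : ℕ) : ℝ) = ((N * (N - 1) : ℕ) : ℝ) := by rw [h1]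
    rw [Nat.cast_mul, Nat.cast_mul, Nat.cast_sub (by omega)] at h2
    exact_mod_cast h2
  have h' : ((prs N).card : ℝ) ≤ c + (3 * ((N / 512 : ℕ) : ℝ) * N +
      N * (10 ^ 24 * M) * (2 * (700 * g * (2 ^ 18 * 10 ^ 12)) + 3)) := by
    exact_mod_cast h
  have he : 512 * ((N / 512 : ℕ) : ℝ) ≤ N := by exact_mod_cast h512
  have hNr : (2 : ℝ) ^ 20 ≤ N := by exact_mod_cast hN1
  have hMr : (1 : ℝ) ≤ M := by exact_mod_cast hM1
  have hGr : (10 : ℝ) ^ 50 * g ≤ F := by exact_mod_cast hG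
  have hgr : (1 : ℝ) ≤ g := by exact_mod_cast hg
  have hNMr : (N : ℝ) = M * F := by exact_mod_cast hNM
  have hN0 : (0 : ℝ) < N := lt_of_lt_of_le (by norm_num) hNr
  have k1 : 3 * ((N / 512 : ℕ) : ℝ) * N ≤ 3 / 512 * (N : ℝ) ^ 2 := by nlinarith
  have k2 : (N : ℝ) * (10 ^ 24 * M) * (2 * (700 * g * (2 ^ 18 * 10 ^ 12)) + 3) ≤
      4 / 10 ^ 6 * (N : ℝ) ^ 2 := by
    have a1 : (2 * (700 * (g : ℝ) * (2 ^ 18 * 10 ^ 12)) + 3) ≤ 4 * 10 ^ 20 * g := by
      nlinarith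
    have a2 : (N : ℝ) * (10 ^ 24 * M) * (4 * 10 ^ 20 * g) ≤ 4 / 10 ^ 6 * (N : ℝ) ^ 2 := by
      have a3 : (N : ℝ) ^ 2 = N * M * F := by rw [pow_two, hNMr]; ring
      rw [a3]
      have a4 : 0 ≤ (N : ℝ) * M := by positivity
      have a5 := mul_le_mul_of_nonneg_left hGr a4
      nlinarith
    refine le_trans (mul_le_mul_of_nonneg_left a1 (by positivity)) a2
  have k3 : (N : ℝ) / 2 ≤ 1 / 10 ^ 6 * (N : ℝ) ^ 2 := by nlinarith
  nlinarith

theorem path_main (g U U0 : ℕ) (hg : 1 ≤ g) (hG : 10 ^ 50 * g ≤ 4 ^ g) (hU : U0 + 9 * g ≤ U)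
    (v : ℕ → ℝ) {c : ℝ} (hc : 0 < c) (B : ℕ → Finset ℕ)
    (hcard : ∀ a < 2 ^ (20 * g), |((B a).card : ℝ) - c| ≤ c / 10 ^ 8)
    (h1 : gam v U (2 ^ (20 * g)) c B ≤ 700 * g)
    (h2 : 512 * ((Finset.range (2 ^ (20 * g))).filter
      (fun a => spr v 0 (B a) < 1 / 400000)).card ≤ 2 ^ (20 * g))
    (h3 : 512 * ((Finset.range (2 ^ (20 * g))).filter
      (fun a => 1 / 200000 ≤ spr v U0 (B a))).card ≤ 2 ^ (20 * g)) :
    475 / 1000 * (9 * (g : ℝ)) * ∏ a : Fin (2 ^ (20 * g)), ((B a).card : ℝ)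
      ≤ ∑ i ∈ Fintype.piFinset (fun a : Fin (2 ^ (20 * g)) => B a),
          zt (2 ^ (20 * g)) U (9 * g) v B (ex i) := by
  have hnum := path_num g hg hG
  obtain ⟨N, hN⟩ : ∃ N : ℕ, N = 2 ^ (20 * g) := ⟨_, rfl⟩
  have hN512 : 512 * (N / 512) = N := by
    rw [hN]
    refine Nat.mul_div_cancel' ?_
    rw [show (512 : ℕ) = 2 ^ 9 by norm_num]
    exact pow_dvd_pow 2 (by omega)
  have hN0 : 0 < N := by rw [hN]; positivity
  rw [← hN] at hcard h1 h2 h3 ⊢
  have hnum' : ∀ c : ℕ, (prs N).card ≤ c + (3 * (N / 512) * N +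
      N * (10 ^ 24 * 2 ^ (18 * g)) * (2 * (700 * g * (2 ^ 18 * 10 ^ 12)) + 3)) →
      494 / 1000 * (N : ℝ) ^ 2 ≤ c := by
    intro c hc
    have := hnum c (by rw [← hN]; exact hc)
    rwa [← hN] at this
  clear hnum
  have hθ : (1 / 200000 : ℝ) / 2 = 1 / 400000 := by norm_num
  have hD : ∀ a, Antitone (fun j => spr v j (B a)) := fun a j k hjk => spr_anti v (B a) hjk
  obtain ⟨P, Q, hQ1, hPU, hP, hQ, hPQ⟩ := spread_window U U0 N (N / 512)
    (fun a j => spr v j (B a)) hD (fun a b j => ds v j c (B a) (B b))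
    (fun a b j => ds_nonneg v j c (B a) (B b)) (fun a b j => ds_comm v j c (B a) (B b))
    (θ := 1 / 200000) (κ := 1 / 10 ^ 12) (C := 700 * g) (by norm_num) (by norm_num)
    (fun a ha b hb j hj hj' => ds_ge_spread v j hc (B a) (B b) (hcard a ha) (hcard b hb) hj
      (by rw [hθ] at hj'; exact hj'))
    (by omega) h1 (by rw [hθ]; omega) (by omega)
  rw [hθ] at hQ
  have hPQ' : P ≤ Q + 700 * g * (2 ^ 18 * 10 ^ 12) := by
    have hNr : (512 : ℝ) * ((N / 512 : ℕ) : ℝ) = N := by exact_mod_cast hN512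
    have hN0r : (0 : ℝ) < N := by exact_mod_cast hN0
    rw [← hNr] at hPQ
    have he : (0 : ℝ) < ((N / 512 : ℕ) : ℝ) := by
      by_contra hcon
      push Not at hcon
      linarith
    obtain ⟨e, hed⟩ : ∃ e : ℝ, e = ((N / 512 : ℕ) : ℝ) := ⟨_, rfl⟩
    rw [← hed] at hPQ he
    have h5 : ((P : ℝ) - Q) ≤ 700 * g * (2 ^ 18 * 10 ^ 12) := by
      have he2 : 0 < e ^ 2 := by positivity
      have h6 : ((P : ℝ) - Q) * e ^ 2 ≤ (700 * g * (2 ^ 18 * 10 ^ 12)) * e ^ 2 := by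
        nlinarith
      exact le_of_mul_le_mul_right h6 he2
    have h7 : (P : ℝ) ≤ ((Q + 700 * g * (2 ^ 18 * 10 ^ 12) : ℕ) : ℝ) := by
      push_cast
      linarith
    exact_mod_cast h7
  obtain ⟨p, hpd⟩ : ∃ p : ℕ → ℕ, p = fun a => lev U (1 / 200000) (fun j => spr v j (B a)) :=
    ⟨_, rfl⟩
  obtain ⟨r, hrd⟩ : ∃ r : ℕ → ℕ, r = fun a => lev U (1 / 400000) (fun j => spr v j (B a)) :=
    ⟨_, rfl⟩
  have hpr : ∀ a, p a ≤ r a := by
    intro a
    rw [hpd, hrd]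
    refine Finset.card_le_card ?_
    intro j hj
    rw [Finset.mem_filter] at hj ⊢
    refine ⟨hj.1, le_trans (by norm_num) hj.2⟩
  have hrank := rank_pairs N (10 ^ 24 * 2 ^ (18 * g)) P Q (700 * g * (2 ^ 18 * 10 ^ 12)) (N / 512)
    p r hpr (by rw [hpd]; exact hP) (by rw [hrd]; exact hQ) hQ1 hPQ'
  have hgp := hnum' _ hrank
  have hBne : ∀ a < N, (B a).Nonempty := by
    intro a ha
    rw [← Finset.card_pos]
    have h5 := (abs_le.1 (hcard a ha)).1
    have h6 : (0 : ℝ) < ((B a).card : ℝ) := by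
      have h7 : c / 10 ^ 8 ≤ c / 2 := by
        refine div_le_div_of_nonneg_left hc.le (by norm_num) (by norm_num)
      linarith
    exact_mod_cast h6
  obtain ⟨W, hW⟩ : ∃ W : ℝ, W = ∏ a : Fin N, ((B a).card : ℝ) := ⟨_, rfl⟩
  have hW0 : 0 ≤ W := by rw [hW]; positivity
  have hpair : ∀ q ∈ gp N (10 ^ 24 * 2 ^ (18 * g)) P p r,
      (9 * g : ℕ) * (97 / 100 * W) ≤ ∑ i ∈ Fintype.piFinset (fun a : Fin N => B a),
      min ((9 * g : ℕ) : ℝ) (∑ j ∈ Finset.range (U + 1), psi N v B (ex i) j q.1 q.2) := by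
    intro q hq
    unfold gp at hq
    rw [Finset.mem_filter] at hq
    obtain ⟨hq1, hq2, hq3⟩ := hq
    unfold prs at hq1
    rw [Finset.mem_filter, Finset.mem_product, Finset.mem_range, Finset.mem_range] at hq1
    obtain ⟨⟨hqa, hqb⟩, hab⟩ := hq1
    obtain ⟨m, hm⟩ : ∃ m : ℕ, m = max (p q.1) (p q.2) := ⟨_, rfl⟩
    rw [← hm] at hq2 hq3
    have hma : p q.1 ≤ m := by rw [hm]; exact le_max_left _ _
    have hmb : p q.2 ≤ m := by rw [hm]; exact le_max_right _ _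
    have hlt : ∀ a, p a ≤ m → ∀ j, m ≤ j → j ≤ U → spr v j (B a) < 1 / 200000 := by
      intro a ha j hj hjU
      by_contra hcon
      push Not at hcon
      have h5 : j < p a := by
        rw [hpd]
        exact (lt_lev (hD a) hjU).2 hcon
      omega
    calc ((9 * g : ℕ) : ℝ) * (97 / 100 * W)
        = ∑ j ∈ Finset.Ico m (m + 9 * g), (97 / 100 * W) := by
          rw [Finset.sum_const, nsmul_eq_mul, Nat.card_Ico, Nat.add_sub_cancel_left]
      _ ≤ ∑ j ∈ Finset.Ico m (m + 9 * g), ∑ i ∈ Fintype.piFinset (fun a : Fin N => B a),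
            psi N v B (ex i) j q.1 q.2 := by
          refine Finset.sum_le_sum fun j hj => ?_
          rw [Finset.mem_Ico] at hj
          rw [hW]
          refine win_pair g N v B hBne q.1 q.2 j m hab hqb (hlt _ hma j hj.1 (by omega))
            (hlt _ hmb j hj.1 (by omega)) hj.1 hj.2
            ((Finset.Ioo q.1 q.2).filter (fun c => max m 1 ≤ r c)) ?_ hq3
          intro c hc
          rw [Finset.mem_filter, Finset.mem_Ioo] at hc
          refine ⟨hc.1.1, hc.1.2, ?_⟩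
          have h5 : m - 1 < r c := by
            have h6 := hc.2
            have h7 := le_max_left m 1
            have h8 := le_max_right m 1
            omega
          rw [hrd] at h5
          exact (lt_lev (hD c) (by omega)).1 h5
      _ = ∑ i ∈ Fintype.piFinset (fun a : Fin N => B a), ∑ j ∈ Finset.Ico m (m + 9 * g),
            psi N v B (ex i) j q.1 q.2 := Finset.sum_comm
      _ ≤ _ := by
          refine Finset.sum_le_sum fun i _ => ?_
          exact path_min N (9 * g) m U (by omega) v B (ex i) q.1 q.2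
  have hfin := path_sum N U (9 * g) v B (gp N (10 ^ 24 * 2 ^ (18 * g)) P p r)
    (Finset.filter_subset _ _) _ hpair
  refine le_trans ?_ hfin
  rw [← hW, le_div_iff₀ (by positivity)]
  push_cast
  have hN2 : (0 : ℝ) < (N : ℝ) ^ 2 := by positivity
  have hgW : 0 ≤ (9 * (g : ℝ)) * W := by positivity
  calc 475 / 1000 * (9 * (g : ℝ)) * W * (N : ℝ) ^ 2
      ≤ (494 / 1000 * (N : ℝ) ^ 2) * (9 * (g : ℝ) * (97 / 100 * W)) := by
        have := mul_nonneg hgW hN2.le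
        nlinarith
    _ ≤ _ := mul_le_mul_of_nonneg_right hgp (by positivity)

end Pool.Agent.EAG
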