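import Pool.Agent.EAG.Meas

/-! # EAG-TOGGLE: the reflected paths -/

open MeasureTheory Filter Topology Finset

namespace Pool.Agent.EAG

variable {Y : Type*} [MeasurableSpace Y] {ν : Measure Y}

namespace Sys

theorem mp_Rat (S : Sys Y ν) (k : ℕ) : MeasurePreserving (S.Rat k) ν ν :=
  (S.mpTh (-(k : ℤ))).comp (S.mpR.comp (S.mpTh (k : ℤ)))

theorem mp_TT (S : Sys Y ν) (i : ℕ → ℕ) (s : ℕ → Bool) (e : ℕ) :
    MeasurePreserving (S.TT i s e) ν ν := by
  induction e with
  | zero => exact MeasurePreserving.id ν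
  | succ e ih =>
    by_cases h : s e = prev s e
    · have h1 : S.TT i s (e + 1) = S.TT i s e := by
        funext y
        simp only [TT, if_pos h]
      rw [h1]
      exact ih
    · have h1 : S.TT i s (e + 1) = S.Rat (i e) ∘ S.TT i s e := by
        funext y
        simp only [TT, if_neg h, Function.comp_apply]
      rw [h1]
      exact (S.mp_Rat (i e)).comp ih

/-- one reflection flips exactly the steps from time `k` on -/
theorem x_Rat (S : Sys Y ν) (k : ℕ) : ∀ᵐ y ∂ν, S.Th (k : ℤ) y ∈ S.A →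
    ∀ l : ℕ, S.x (S.Th (l : ℤ) (S.Rat k y)) = (if k ≤ l then -1 else 1) * S.x (S.Th (l : ℤ) y) := by
  have h1 := (S.mpTh (k : ℤ)).quasiMeasurePreserving.ae S.xR_pos
  have h2 := (S.mpTh (k : ℤ)).quasiMeasurePreserving.ae S.xR_neg
  filter_upwards [h1, h2] with y hy1 hy2 hA l
  have e1 : S.Th (l : ℤ) (S.Rat k y) = S.Th ((l : ℤ) + (-(k : ℤ))) (S.R (S.Th (k : ℤ) y)) := by
    rw [S.Th_add]
    rfl
  rw [e1]
  by_cases hkl : k ≤ l
  · obtain ⟨m, rfl⟩ := Nat.exists_eq_add_of_le hkl
    have e2 : ((k + m : ℕ) : ℤ) + (-(k : ℤ)) = (m : ℤ) := by push_cast; ring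
    have e3 : S.Th ((k + m : ℕ) : ℤ) y = S.Th (m : ℤ) (S.Th (k : ℤ) y) := by
      rw [← S.Th_add]
      congr 1
      push_cast; ring
    rw [e2, hy1 hA m, if_pos hkl, e3]
    ring
  · push Not at hkl
    obtain ⟨m, rfl⟩ := Nat.exists_eq_add_of_lt hkl
    have e2 : (l : ℤ) + (-((l + m + 1 : ℕ) : ℤ)) = -((m : ℤ) + 1) := by push_cast; ring
    have e3 : S.Th (l : ℤ) y = S.Th (-((m : ℤ) + 1)) (S.Th ((l + m + 1 : ℕ) : ℤ) y) := by
      rw [← S.Th_add]
      congr 1
      push_cast; ring
    rw [e2, hy2 hA m, if_neg (by omega), e3]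
    ring

/-- the time `k` stays admissible under the reflection at `k` -/
theorem Rat_mem (S : Sys Y ν) (k : ℕ) : ∀ᵐ y ∂ν,
    (S.Th (k : ℤ) (S.Rat k y) ∈ S.A ↔ S.Th (k : ℤ) y ∈ S.A) := by
  have h1 := (S.mpTh (k : ℤ)).quasiMeasurePreserving.ae S.R_mem
  filter_upwards [h1] with y hy
  have e1 : S.Th (k : ℤ) (S.Rat k y) = S.R (S.Th (k : ℤ) y) := by
    have : S.Th (k : ℤ) (S.Rat k y) = S.Th ((k : ℤ) + (-(k : ℤ))) (S.R (S.Th (k : ℤ) y)) := by
      rw [S.Th_add]
      rfl
    rw [this, add_neg_cancel, S.Th_zero]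
  rw [e1]
  by_cases hA : S.Th (k : ℤ) y ∈ S.A
  · exact ⟨fun _ => hA, fun _ => hy hA⟩
  · rw [S.R_off _ hA]

/-- the sign of the step `l` after the first `e` reflections -/
private def sgn (i : ℕ → ℕ) (s : ℕ → Bool) : ℕ → ℕ → ℝ
  | 0, _ => 1
  | e + 1, l => if i e ≤ l then sg (s e) else sgn i s e l

private theorem sgn_of {i : ℕ → ℕ} {s : ℕ → Bool} {c l : ℕ} (hl : i c ≤ l) (e : ℕ) (hce : c < e)
    (h : ∀ c', c < c' → c' < e → l < i c') : sgn i s e l = sg (s c) := by
  induction e with
  | zero => omega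
  | succ e ih =>
    rcases Nat.lt_succ_iff_lt_or_eq.mp hce with h1 | h1
    · have h2 := h e h1 (Nat.lt_succ_self e)
      simp only [sgn, if_neg (not_le.mpr h2)]
      exact ih h1 (fun c' h3 h4 => h c' h3 (by omega))
    · subst h1
      simp only [sgn, if_pos hl]

private theorem sgn_one {i : ℕ → ℕ} {s : ℕ → Bool} {l : ℕ} (e : ℕ) (h : ∀ c < e, l < i c) :
    sgn i s e l = 1 := by
  induction e with
  | zero => rfl
  | succ e ih =>
    have h2 := h e (Nat.lt_succ_self e)
    simp only [sgn, if_neg (not_le.mpr h2)]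
    exact ih (fun c hc => h c (by omega))

private theorem abs_sg (b : Bool) : |sg b| = 1 := by
  cases b <;> simp [sg]

private theorem V_sub (S : Sys Y ν) {y z : Y} {σ : ℕ → ℝ}
    (h : ∀ l : ℕ, S.x (S.Th (l : ℤ) z) = σ l * S.x (S.Th (l : ℤ) y)) {k k' : ℕ} (hk : k ≤ k')
    {t : ℝ} (ht : ∀ l, k ≤ l → l < k' → σ l = t) :
    S.V z k' - S.V z k = t * (S.V y k' - S.V y k) := by
  unfold V
  rw [← Finset.sum_Ico_eq_sub _ hk, ← Finset.sum_Ico_eq_sub _ hk, Finset.mul_sum]
  refine Finset.sum_congr rfl (fun l hl => ?_)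
  rw [Finset.mem_Ico] at hl
  rw [h l, ht l hl.1 hl.2]

/-- the walk of the reflected point -/
theorem V_TT (S : Sys Y ν) (n N : ℕ) (i : ℕ → ℕ) (hi : ∀ a < N, i a ∈ blk n a)
    (s : ℕ → Bool) : ∀ᵐ y ∂ν, (∀ e < N, S.Th (i e : ℤ) (S.TT i s e y) ∈ S.A) →
      (∀ a < N, ∀ k ∈ blk n a, |S.V (S.TT i s N y) k - S.V (S.TT i s N y) (i a)|
        = |S.V y k - S.V y (i a)|) ∧
      (∀ a b, a < b → b < N → |S.V (S.TT i s N y) (i a) - S.V (S.TT i s N y) (i b)|
        = |Sab (S.V y) i s a b|) := by
  have hall : ∀ᵐ y ∂ν, ∀ e : ℕ, S.Th (i e : ℤ) (S.TT i s e y) ∈ S.A → ∀ l : ℕ,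
      S.x (S.Th (l : ℤ) (S.Rat (i e) (S.TT i s e y)))
        = (if i e ≤ l then -1 else 1) * S.x (S.Th (l : ℤ) (S.TT i s e y)) := by
    rw [ae_all_iff]
    intro e
    exact (S.mp_TT i s e).quasiMeasurePreserving.ae (S.x_Rat (i e))
  -- the times are in increasing blocks
  have hlt : ∀ a b, a < b → b < N → ∀ k ∈ blk n a, k < i b := by
    intro a b hab hb k hk
    have h2 := hi b hb
    rw [blk, Finset.mem_Ico] at hk h2
    have h3 : (a + 1) * n ≤ b * n := Nat.mul_le_mul_right n hab
    omega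
  have hgt : ∀ a b, a < b → b < N → ∀ k ∈ blk n b, i a < k := by
    intro a b hab hb k hk
    have h2 := hi a (by omega)
    rw [blk, Finset.mem_Ico] at hk h2
    have h3 : (a + 1) * n ≤ b * n := Nat.mul_le_mul_right n hab
    omega
  filter_upwards [hall] with y hy hA
  -- the signs of the steps
  have key : ∀ e, e ≤ N → ∀ l : ℕ,
      S.x (S.Th (l : ℤ) (S.TT i s e y)) = sgn i s e l * S.x (S.Th (l : ℤ) y) := by
    intro e
    induction e with
    | zero =>
      intro _ l
      simp only [TT, sgn, one_mul]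
    | succ e ih =>
      intro he l
      have ih' := ih (by omega) l
      -- the sign before
      have hprev : i e ≤ l → sgn i s e l = sg (prev s e) := by
        intro hl
        cases e with
        | zero => simp [sgn, prev, sg]
        | succ e' =>
          have h1 : i e' < i (e' + 1) :=
            hlt e' (e' + 1) (Nat.lt_succ_self _) (by omega) _ (hi e' (by omega))
          have h2 := sgn_of (i := i) (s := s) (c := e') (l := l) (by omega) (e' + 1)
            (Nat.lt_succ_self _) (fun c' h3 h4 => by omega)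
          rw [h2]
          rfl
      by_cases h : s e = prev s e
      · have h1 : S.TT i s (e + 1) y = S.TT i s e y := by
          simp only [TT, if_pos h]
        rw [h1, ih']
        congr 1
        by_cases hl : i e ≤ l
        · simp only [sgn, if_pos hl]
          rw [hprev hl, h]
        · simp only [sgn, if_neg hl]
      · have h1 : S.TT i s (e + 1) y = S.Rat (i e) (S.TT i s e y) := by
          simp only [TT, if_neg h]
        rw [h1, hy e (hA e (by omega)) l, ih', ← mul_assoc]
        congr 1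
        by_cases hl : i e ≤ l
        · simp only [sgn, if_pos hl]
          rw [hprev hl]
          revert h
          cases s e <;> cases prev s e <;> simp [sg]
        · simp only [sgn, if_neg hl, one_mul]
  have hz := key N le_rfl
  constructor
  · intro a ha k hk
    have hia := hi a ha
    rcases le_total (i a) k with hik | hik
    · have h1 := V_sub S hz hik (t := sg (s a)) (by
        intro l hl1 hl2
        refine sgn_of hl1 N ha (fun c' h3 h4 => ?_)
        refine hlt a c' h3 h4 l ?_
        rw [blk, Finset.mem_Ico] at hk hia ⊢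
        omega)
      rw [h1, abs_mul, abs_sg, one_mul]
    · have h1 : ∃ b : Bool, S.V (S.TT i s N y) (i a) - S.V (S.TT i s N y) k
          = sg b * (S.V y (i a) - S.V y k) := by
        cases a with
        | zero =>
          refine ⟨false, V_sub S hz hik (fun l hl1 hl2 => ?_)⟩
          have h5 : sg false = 1 := by simp [sg]
          rw [h5]
          refine sgn_one N (fun c hc => ?_)
          rcases Nat.eq_zero_or_pos c with h6 | h6
          · rw [h6]; exact hl2
          · refine hlt 0 c h6 hc l ?_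
            rw [blk, Finset.mem_Ico] at hk hia ⊢
            omega
        | succ a' =>
          refine ⟨s a', V_sub S hz hik (fun l hl1 hl2 => ?_)⟩
          have hlb : l ∈ blk n (a' + 1) := by
            rw [blk, Finset.mem_Ico] at hk hia ⊢
            omega
          refine sgn_of (c := a') (le_of_lt (hgt a' (a' + 1) (Nat.lt_succ_self _) ha l hlb)) N
            (by omega) (fun c' h3 h4 => ?_)
          rcases Nat.lt_or_ge (a' + 1) c' with h6 | h6
          · exact hlt (a' + 1) c' h6 h4 l hlb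
          · have h7 : c' = a' + 1 := by omega
            rw [h7]; exact hl2
      obtain ⟨b, hb⟩ := h1
      rw [abs_sub_comm, hb, abs_mul, abs_sg, one_mul, abs_sub_comm]
  · intro a b hab hb
    have h1 : ∀ c, a ≤ c → c < b → S.V (S.TT i s N y) (i (c + 1)) - S.V (S.TT i s N y) (i c)
        = sg (s c) * (S.V y (i (c + 1)) - S.V y (i c)) := by
      intro c hac hcb
      have h2 : i c < i (c + 1) :=
        hlt c (c + 1) (Nat.lt_succ_self _) (by omega) _ (hi c (by omega))
      refine V_sub S hz h2.le (fun l hl1 hl2 => ?_)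
      refine sgn_of hl1 N (by omega) (fun c' h3 h4 => ?_)
      rcases Nat.lt_or_ge (c + 1) c' with h6 | h6
      · have := hlt (c + 1) c' h6 h4 _ (hi (c + 1) (by omega))
        omega
      · have h7 : c' = c + 1 := by omega
        rw [h7]; exact hl2
    have h2 : S.V (S.TT i s N y) (i b) - S.V (S.TT i s N y) (i a) = Sab (S.V y) i s a b := by
      unfold Sab
      have h3 := Finset.sum_Ico_sub (fun c => S.V (S.TT i s N y) (i c)) hab.le
      rw [← h3]
      refine Finset.sum_congr rfl (fun c hc => ?_)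
      rw [Finset.mem_Ico] at hc
      exact h1 c hc.1 hc.2
    rw [abs_sub_comm, h2]

end Sys

end Pool.Agent.EAG
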